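import Pool.Agent.Helper28.DB.St

/-! Module Adm: admissible representation of a transport (MP_2bc838_lc). -/

set_option autoImplicit false

namespace Pool.Agent.Helper28.DB.M_Adm

open AddMonoidAlgebra Pool.Agent.Helper28.DB

theorem supp_shift {E : Type} [AddCommGroup E] [Module ℚ E] (hCmp : StCmp) (N : Submodule ℚ E)
    (v : E) (Q : Gr E) : Supp N (single (-v) (1 : ℚ) * cmp N.toAddSubgroup v Q) := by
  classical
  intro w hw
  obtain ⟨a, ha, b, hb, rfl⟩ := Finset.mem_add.1 (support_coeff_mul_subset _ _ hw)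
  rw [coeff_single] at ha
  have ha' := Finsupp.support_single_subset ha
  rw [Finset.mem_singleton] at ha'
  have hb' := (((hCmp E N.toAddSubgroup).1 Q v b).1 hb).2
  rw [ha', neg_add_eq_sub]
  exact hb'

theorem main (hCmp : StCmp) (hFrac : StFrac) : StAdm := by
  intro E E' _ _ _ _ A N f f' hf htr
  obtain ⟨P, D, hAD, hfD, hf'D⟩ := htr
  obtain ⟨s, hs, hsum⟩ := (hCmp E N.toAddSubgroup).2.2 D
  have hne : ∑ v ∈ s, gm A (cmp N.toAddSubgroup v D) ≠ 0 := by
    rw [← map_sum, ← hsum]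
    exact hAD
  obtain ⟨v, hv, hv0⟩ := Finset.exists_ne_zero_of_sum_ne_zero hne
  obtain ⟨D1, hD1⟩ : ∃ D1 : Gr E, D1 = single (-v) (1 : ℚ) * cmp N.toAddSubgroup v D := ⟨_, rfl⟩
  obtain ⟨P1, hP1⟩ : ∃ P1 : Gr E, P1 = single (-v) (1 : ℚ) * cmp N.toAddSubgroup v P := ⟨_, rfl⟩
  have hSD : Supp N D1 := hD1 ▸ supp_shift hCmp N v D
  have hSP : Supp N P1 := hP1 ▸ supp_shift hCmp N v P
  have hs1 : (single (A (-v)) (1 : ℚ) : Gr E') ≠ 0 := by
    intro h
    have h1 := congrArg (fun Q : Gr E' => Q.coeff (A (-v))) h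
    simp at h1
  have hgD : gm A D1 ≠ 0 := by
    rw [hD1, map_mul, gm_single]
    exact mul_ne_zero hs1 hv0
  have hfD1 : f * io D1 = io P1 := by
    rw [hD1, hP1, map_mul, map_mul, mul_left_comm, hFrac E N f hf P D hfD v]
  have hcross : P1 * D = P * D1 := by
    apply io_injective
    rw [map_mul, map_mul, ← hfD1, ← hfD]
    ring
  have hf'1 : f' * io (gm A D1) = io (gm A P1) := by
    have h0 : io (gm A D) ≠ 0 := io_ne_zero.2 hAD
    apply mul_right_cancel₀ h0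
    have h1 : io (gm A P1) * io (gm A D) = io (gm A P) * io (gm A D1) := by
      rw [← map_mul, ← map_mul, ← map_mul, ← map_mul, hcross]
    rw [h1, ← hf'D]
    ring
  refine ⟨⟨P1, D1, hSP, hSD, hgD, hfD1, hf'1⟩, ⟨gm A P1, gm A D1, hgD, hSP.gm A, hSD.gm A, hf'1⟩,
    ?_⟩
  intro B hB
  refine ⟨P1, D1, ?_, hfD1, ?_⟩
  · rw [← gm_congr hB hSD]
    exact hgD
  · rw [← gm_congr hB hSD, ← gm_congr hB hSP]
    exact hf'1

end Pool.Agent.Helper28.DB.M_Adm
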