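import Pool.Agent.Helper28.DB.St

/-! The subspace is generated early (MP_2bc838_lc). -/

set_option autoImplicit false
set_option linter.unusedSectionVars false

namespace Pool.Agent.Helper28.DB.M_B0

open AddMonoidAlgebra Pool.Agent.Helper28.DB

section

variable {E : Type} [AddCommGroup E] [Module ℚ E] [FiniteDimensional ℚ E]

/-- A predicate on subspaces that is closed under intersections has a least element. -/
theorem exists_least (R : Submodule ℚ E → Prop) (hR : ∃ X, R X)
    (hinf : ∀ X Y, R X → R Y → R (X ⊓ Y)) : ∃ X, R X ∧ ∀ Y, R Y → X ≤ Y := by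
  classical
  have hex : ∃ k : ℕ, ∃ X : Submodule ℚ E, R X ∧ Module.finrank ℚ X = k := by
    obtain ⟨X, hX⟩ := hR
    exact ⟨_, X, hX, rfl⟩
  obtain ⟨X, hX, hk⟩ := Nat.find_spec hex
  refine ⟨X, hX, fun Y hY => ?_⟩
  have h1 : Nat.find hex ≤ Module.finrank ℚ (X ⊓ Y : Submodule ℚ E) :=
    Nat.find_min' hex ⟨X ⊓ Y, hinf X Y hX hY, rfl⟩
  have h2 : X ⊓ Y = X := Submodule.eq_of_le_of_finrank_le inf_le_left (by rw [hk]; exact h1)
  exact inf_eq_left.1 h2

/-- The closing fact. -/
theorem closing (hAdm : StAdm) (hSubf : StSubf) {n : ℕ} {A : E →ₗ[ℚ] E} {u : ℕ → Fin n → Gr E}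
    {p : ℕ → E} {i₀ d : ℕ} {N : Submodule ℚ E} {lam : ℕ → Fin d → Fr E}
    (h : Stab A u p i₀ d N lam) {i₁ : ℕ} (hi : i₀ ≤ i₁) (X : Submodule ℚ E) (hXN : X ≤ N)
    (hXA : X.map A ≤ X) (hp : p i₁ ∈ X) (hl : ∀ j, InK X (lam i₁ j)) : X = N := by
  refine h.minimal X hXN i₁ hi ?_ ?_
  · intro i hi1
    induction i, hi1 using Nat.le_induction with
    | base => exact hl
    | succ k hk ih =>
      intro j
      have h1 := (hAdm E E A X (lam k j) (lam (k + 1) j) (ih j)
        (h.trA k (le_trans hi hk) j)).2.1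
      exact (hSubf E).2.1 _ _ hXA _ h1
  · intro i hi1
    induction i, hi1 using Nat.le_induction with
    | base => exact hp
    | succ k hk ih =>
      rw [h.p_succ k]
      exact hXA (Submodule.mem_map_of_mem ih)

/-- `A` is injective on `N`. -/
theorem inj_on {A : E →ₗ[ℚ] E} {N : Submodule ℚ E} (h : N.map A = N) :
    ∀ v ∈ N, A v = 0 → v = 0 := by
  have hmem : ∀ x ∈ N, A x ∈ N := fun x hx => by
    rw [← h]; exact Submodule.mem_map_of_mem hx
  have hsurj : Function.Surjective (A.restrict hmem) := by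
    rintro ⟨w, hw⟩
    rw [← h] at hw
    obtain ⟨v, hv, rfl⟩ := hw
    exact ⟨⟨v, hv⟩, rfl⟩
  have hinj : Function.Injective (A.restrict hmem) :=
    LinearMap.injective_iff_surjective.2 hsurj
  intro v hv h0
  have : A.restrict hmem ⟨v, hv⟩ = A.restrict hmem 0 := by
    rw [map_zero]
    exact Subtype.ext h0
  have := hinj this
  exact congrArg Subtype.val this

/-- The left inverse of `A` on `N`. -/
theorem exists_left {A : E →ₗ[ℚ] E} {N : Submodule ℚ E} (h : ∀ v ∈ N, A v = 0 → v = 0) :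
    ∃ A' : E →ₗ[ℚ] E, ∀ v ∈ N, A' (A v) = v := by
  have hk : LinearMap.ker (A.domRestrict N) = ⊥ := by
    rw [LinearMap.ker_eq_bot']
    rintro ⟨v, hv⟩ h0
    exact Subtype.ext (h v hv h0)
  obtain ⟨g, hg⟩ := LinearMap.exists_leftInverse_of_injective (A.domRestrict N) hk
  refine ⟨N.subtype ∘ₗ g, fun v hv => ?_⟩
  have := congrArg (fun f : N →ₗ[ℚ] N => ((f ⟨v, hv⟩ : N) : E)) hg
  simpa using this

end

theorem main (hAdm : StAdm) (hTr : StTr) (hInf : StInf) (hSubf : StSubf) : StB0 := by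
  intro E _ _ _ n A u p i₀ d N lam h i₁ hi N' hN1 hN2
  classical
  -- the predicate
  let R : ℕ → Submodule ℚ E → Prop := fun b X =>
    (∀ i, i₁ ≤ i → i + 1 < i₁ + b → ∀ j, InK X (lam i j)) ∧
    (∀ i, i₁ ≤ i → i + 1 < i₁ + b + d → p i ∈ X)
  have hRinf : ∀ b X Y, R b X → R b Y → R b (X ⊓ Y) := fun b X Y hX hY =>
    ⟨fun i h1 h2 j => hInf E X Y _ (hX.1 i h1 h2 j) (hY.1 i h1 h2 j),
      fun i h1 h2 => ⟨hX.2 i h1 h2, hY.2 i h1 h2⟩⟩
  have hRN : ∀ b, R b N := fun b =>
    ⟨fun i h1 _ j => h.lam_mem i (le_trans hi h1) j, fun i h1 _ => h.p_mem i (le_trans hi h1)⟩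
  have hRsucc : ∀ b X, R (b + 1) X → R b X := fun b X hX =>
    ⟨fun i h1 h2 j => hX.1 i h1 (by omega) j, fun i h1 h2 => hX.2 i h1 (by omega)⟩
  have hex : ∀ b, ∃ X, R b X ∧ ∀ Y, R b Y → X ≤ Y := fun b =>
    exists_least (R b) ⟨N, hRN b⟩ (hRinf b)
  choose M hM hMle using hex
  have hMN : ∀ b, M b ≤ N := fun b => hMle b N (hRN b)
  have hMsucc : ∀ b, M b ≤ M (b + 1) := fun b => hMle b _ (hRsucc b _ (hM (b + 1)))
  have hinj := inj_on h.map_eq
  obtain ⟨A', hA'⟩ := exists_left hinj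
  have hAA' : ∀ w ∈ N, A (A' w) = w := by
    intro w hw
    rw [← h.map_eq] at hw
    obtain ⟨v, hv, rfl⟩ := hw
    rw [hA' v hv]
  have hd := h.d_pos
  -- the claim
  have hclaim : ∀ b, 1 ≤ b → M (b + 1) = M b → M b = N := by
    intro b hb heq
    have hX1 : R (b + 1) (M b) := by rw [← heq]; exact hM (b + 1)
    have hRY : R b (M b ⊓ (M b).map A') := by
      refine ⟨fun i h1 h2 j => ?_, fun i h1 h2 => ⟨?_, ?_⟩⟩
      · refine hInf E _ _ _ (hX1.1 i h1 (by omega) j) ?_
        have h3 : InK (M b) (lam (i + 1) j) := hX1.1 (i + 1) (by omega) (by omega) j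
        have h4 : Tr A' (lam (i + 1) j) (lam i j) :=
          (hTr E E A).2.2.2.2.2 N hinj (lam i j) (lam (i + 1) j)
            (h.lam_mem i (le_trans hi h1) j) (h.trA i (le_trans hi h1) j) A' hA'
        exact (hAdm E E A' (M b) _ _ h3 h4).2.1
      · exact hX1.2 i h1 (by omega)
      · have h3 : p (i + 1) ∈ M b := hX1.2 (i + 1) (by omega) (by omega)
        have h4 : A' (p (i + 1)) = p i := by
          rw [h.p_succ i]
          exact hA' _ (h.p_mem i (le_trans hi h1))
        rw [← h4]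
        exact Submodule.mem_map_of_mem h3
    have hle : M b ≤ (M b).map A' := le_trans (hMle b _ hRY) inf_le_right
    have heq2 : M b = (M b).map A' :=
      Submodule.eq_of_le_of_finrank_le hle (Submodule.finrank_map_le A' (M b))
    refine closing hAdm hSubf h hi (M b) (hMN b) ?_ ?_ ?_
    · rintro _ ⟨v, hv, rfl⟩
      have hv' : v ∈ (M b).map A' := by rw [← heq2]; exact hv
      obtain ⟨w, hw, rfl⟩ := hv'
      rw [hAA' w (hMN b hw)]
      exact hw
    · exact hX1.2 i₁ le_rfl (by omega)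
    · exact fun j => hX1.1 i₁ le_rfl (by omega) j
  -- the count
  have hcount : ∀ b, 1 ≤ b → b ≤ Module.finrank ℚ (M b) ∨ M b = N := by
    intro b hb
    induction b, hb using Nat.le_induction with
    | base =>
      left
      have h1 : p i₁ ∈ M 1 := (hM 1).2 i₁ le_rfl (by omega)
      have h2 : M 1 ≠ ⊥ := by
        intro h0
        rw [h0] at h1
        exact h.p_ne i₁ hi ((Submodule.mem_bot ℚ).1 h1)
      exact Submodule.one_le_finrank_iff.2 h2
    | succ b hb ih =>
      rcases ih with ih | ih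
      · by_cases heq : M (b + 1) = M b
        · right
          rw [heq]
          exact hclaim b hb heq
        · left
          have hlt : M b < M (b + 1) := lt_of_le_of_ne (hMsucc b) (Ne.symm heq)
          have := Submodule.finrank_lt_finrank_of_lt hlt
          omega
      · right
        exact le_antisymm (hMN (b + 1)) (ih ▸ hMsucc b)
  -- the conclusion
  have hnu : 1 ≤ Module.finrank ℚ N := by
    have h2 : N ≠ ⊥ := by
      intro h0
      have h1 := h.p_mem i₁ hi
      rw [h0] at h1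
      exact h.p_ne i₁ hi ((Submodule.mem_bot ℚ).1 h1)
    exact Submodule.one_le_finrank_iff.2 h2
  have hMnu : M (Module.finrank ℚ N) = N := by
    rcases hcount _ hnu with h1 | h1
    · exact Submodule.eq_of_le_of_finrank_le (hMN _) h1
    · exact h1
  calc N = M (Module.finrank ℚ N) := hMnu.symm
    _ ≤ N' := hMle _ N' ⟨hN1, hN2⟩

end Pool.Agent.Helper28.DB.M_B0
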