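import Pool.Agent.Helper28.DB.St

/-! DB module BN: the second map preserves the subspace. -/

set_option autoImplicit false

namespace Pool.Agent.Helper28.DB.M_BN

open AddMonoidAlgebra

theorem main (hB0 : StB0) (hAdm : StAdm) : StBN := by
  intro E _ _ _ n A B u p i₀ d N lam hS hTr hp
  have hle : N ≤ N.map B := by
    refine hB0 E n A u p i₀ d N lam hS (i₀ + 1) (Nat.le_succ _) (N.map B) ?_ ?_
    · intro i hi hi2 j
      obtain ⟨i', rfl⟩ : ∃ i', i = i' + 1 := ⟨i - 1, by omega⟩
      have h1 : i₀ ≤ i' := by omega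
      have h2 : i' + 1 < i₀ + Module.finrank ℚ N := by omega
      exact (hAdm E E B N (lam i' j) (lam (i' + 1) j) (hS.lam_mem i' h1 j)
        (hTr i' h1 h2 j)).2.1
    · intro i hi hi2
      obtain ⟨i', rfl⟩ : ∃ i', i = i' + 1 := ⟨i - 1, by omega⟩
      have h1 : i₀ ≤ i' := by omega
      rw [hp i' h1 (by omega)]
      exact Submodule.mem_map_of_mem (hS.p_mem i' h1)
  exact (Submodule.eq_of_le_of_finrank_le hle (Submodule.finrank_map_le B N)).symm

end Pool.Agent.Helper28.DB.M_BN
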