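import Pool.Agent.Helper28.DB.St

/-! Extension of independent families to bases of the spans (MP_2bc838_lc). -/

set_option autoImplicit false

namespace Pool.Agent.Helper28.DB.M_Basis

open Pool.Agent.Helper28.DB

/-- the span of the later vectors -/
noncomputable def S {E : Type} [AddCommGroup E] [Module ℚ E] {n : ℕ} (u : ℕ → Fin n → Gr E)
    (i : ℕ) : Submodule (Fr E) (Fin n → Fr E) :=
  Submodule.span (Fr E) {x : Fin n → Fr E | ∃ k, i ≤ k ∧ x = iv (u k)}

variable {E : Type} [AddCommGroup E] [Module ℚ E] {n : ℕ} (u : ℕ → Fin n → Gr E)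

theorem dm_eq (i : ℕ) : dm u i = Module.finrank (Fr E) (S u i) := rfl

theorem mem_S (i k : ℕ) (hk : i ≤ k) : iv (u k) ∈ S u i := Submodule.subset_span ⟨k, hk, rfl⟩

theorem le_dm (i m : ℕ) (s : Fin m → ℕ) (hs : ∀ t, i ≤ s t)
    (hli : LinearIndependent (Fr E) (fun t => iv (u (s t)))) : m ≤ dm u i := by
  have h1 : Submodule.span (Fr E) (Set.range fun t => iv (u (s t))) ≤ S u i := by
    rw [Submodule.span_le]
    rintro x ⟨t, rfl⟩
    exact mem_S u i _ (hs t)
  have h2 := Submodule.finrank_mono h1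
  rw [finrank_span_eq_card hli, Fintype.card_fin] at h2
  exact h2

theorem snoc_li (i m : ℕ) (s : Fin m → ℕ) (hs : ∀ t, i ≤ s t)
    (hli : LinearIndependent (Fr E) (fun t => iv (u (s t)))) (k : ℕ) (hk : i ≤ k)
    (hn : iv (u k) ∉ Submodule.span (Fr E) (Set.range fun t => iv (u (s t)))) :
    (∀ t, i ≤ (Fin.snoc s k : Fin (m + 1) → ℕ) t) ∧ LinearIndependent (Fr E)
      (fun t => iv (u ((Fin.snoc s k : Fin (m + 1) → ℕ) t))) := by
  constructor
  · intro t
    refine Fin.lastCases ?_ (fun t => ?_) t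
    · rw [Fin.snoc_last]
      exact hk
    · rw [Fin.snoc_castSucc]
      exact hs t
  · have h1 : (fun t => iv (u ((Fin.snoc s k : Fin (m + 1) → ℕ) t))) =
        (Fin.snoc (fun t => iv (u (s t))) (iv (u k)) : Fin (m + 1) → (Fin n → Fr E)) := by
      funext t
      refine Fin.lastCases ?_ (fun t => ?_) t
      · rw [Fin.snoc_last, Fin.snoc_last]
      · rw [Fin.snoc_castSucc, Fin.snoc_castSucc]
    rw [h1]
    exact linearIndependent_finSnoc.2 ⟨hli, hn⟩

theorem ext (i d : ℕ) (hd : d = dm u i) : ∀ (j m : ℕ) (s : Fin m → ℕ), m + j = d →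
    (∀ t, i ≤ s t) → LinearIndependent (Fr E) (fun t => iv (u (s t))) →
    ∃ (s' : Fin d → ℕ) (e : Fin m → Fin d), (∀ t, i ≤ s' t) ∧
      LinearIndependent (Fr E) (fun t => iv (u (s' t))) ∧ Function.Injective e ∧
      ∀ t, s' (e t) = s t := by
  intro j
  induction j with
  | zero =>
    intro m s hm hs hli
    rw [add_zero] at hm
    subst hm
    exact ⟨s, id, hs, hli, Function.injective_id, fun t => rfl⟩
  | succ j ih =>
    intro m s hm hs hli
    obtain ⟨k, hk, hn⟩ : ∃ k, i ≤ k ∧
        iv (u k) ∉ Submodule.span (Fr E) (Set.range fun t => iv (u (s t))) := by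
      by_contra hcon
      push Not at hcon
      have h1 : S u i ≤ Submodule.span (Fr E) (Set.range fun t => iv (u (s t))) := by
        unfold S
        rw [Submodule.span_le]
        rintro x ⟨k, hk, rfl⟩
        exact hcon k hk
      have h2 := Submodule.finrank_mono h1
      rw [finrank_span_eq_card hli, Fintype.card_fin, ← dm_eq, ← hd] at h2
      omega
    obtain ⟨h1, h2⟩ := snoc_li u i m s hs hli k hk hn
    obtain ⟨s', e, h3, h4, h5, h6⟩ := ih (m + 1) (Fin.snoc s k) (by omega) h1 h2
    refine ⟨s', e ∘ Fin.castSucc, h3, h4, h5.comp (Fin.castSucc_injective m), ?_⟩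
    intro t
    rw [Function.comp_apply, h6, Fin.snoc_castSucc]

theorem main : StBasis := by
  intro E _ _ n u i
  refine ⟨?_, ?_, ?_, ?_, ?_⟩
  · intro m s hs hli
    have hm := le_dm u i m s hs hli
    exact ⟨hm, ext u i (dm u i) rfl (dm u i - m) m s (by omega) hs hli⟩
  · intro s hs hli k hk
    by_cases h : iv (u k) ∈ Submodule.span (Fr E) (Set.range fun t => iv (u (s t)))
    · obtain ⟨c, hc⟩ := (Submodule.mem_span_range_iff_exists_fun (Fr E)).1 h
      exact ⟨c, hc.symm⟩
    · exfalso
      obtain ⟨h1, h2⟩ := snoc_li u i _ s hs hli k hk h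
      have h3 := le_dm u i _ _ h1 h2
      omega
  · intro s hs hsp
    rw [linearIndependent_iff_card_eq_finrank_span, Fintype.card_fin]
    have h1 : Submodule.span (Fr E) (Set.range fun t => iv (u (s t))) = S u i := by
      apply le_antisymm
      · rw [Submodule.span_le]
        rintro x ⟨t, rfl⟩
        exact mem_S u i _ (hs t)
      · unfold S
        rw [Submodule.span_le]
        rintro x ⟨k, hk, rfl⟩
        obtain ⟨c, hc⟩ := hsp k hk
        exact (Submodule.mem_span_range_iff_exists_fun (Fr E)).2 ⟨c, hc.symm⟩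
    unfold Set.finrank
    rw [h1]
    exact dm_eq u i
  · rw [dm_eq, dm_eq]
    apply Submodule.finrank_mono
    unfold S
    apply Submodule.span_mono
    rintro x ⟨k, hk, rfl⟩
    exact ⟨k, by omega, rfl⟩
  · rw [dm_eq]
    have h := Submodule.finrank_le (S u i)
    rwa [Module.finrank_fin_fun] at h

end Pool.Agent.Helper28.DB.M_Basis
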