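import Pool.Agent.Helper28.DB.St

/-! DB module Chain: chains of intersections of conjugates. -/

set_option autoImplicit false

namespace Pool.Agent.Helper28.DB.M_Chain

open AddMonoidAlgebra ArithmeticFunction

theorem main : StChain := by
  intro Γ _ a G hfin hG l hl x hx
  have hsucc : ∀ k, G (k + 1) ≤ G k := fun k y hy => ((hG k y).1 hy).1
  have hanti : Antitone G := antitone_nat_of_succ_le hsucc
  have hfinite : ∀ k, Finite (G k) := fun k =>
    Finite.of_injective (Subgroup.inclusion (hanti (Nat.zero_le k)))
      (Subgroup.inclusion_injective _)
  have hcard : ∀ k, Nat.card (G k) ≠ 0 := by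
    intro k
    have := hfinite k
    exact Nat.card_pos.ne'
  by_cases hcase : ∃ k < l, G (k + 1) = G k
  · obtain ⟨k₀, hk₀, hkk⟩ := hcase
    have hst : ∀ j, G (k₀ + j + 1) = G (k₀ + j) := by
      intro j
      induction j with
      | zero => exact hkk
      | succ j ih =>
        ext y
        rw [hG (k₀ + (j + 1)) y]
        have e : k₀ + (j + 1) = k₀ + j + 1 := by omega
        rw [e, ih, ← hG (k₀ + j) y, ih]
    have hst' : ∀ j, G (k₀ + j) = G k₀ := by
      intro j
      induction j with
      | zero => rfl
      | succ j ih =>
        have := hst j
        rw [ih] at this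
        exact this
    have hx₀ : x ∈ G k₀ := hanti hk₀.le hx
    intro k
    rcases le_total k k₀ with h | h
    · exact hanti h hx₀
    · obtain ⟨j, rfl⟩ := Nat.exists_eq_add_of_le h
      rw [hst' j]
      exact hx₀
  · push Not at hcase
    have hdrop : ∀ k, k ≤ l → cardFactors (Nat.card (G k)) + k ≤ cardFactors (Nat.card (G 0)) := by
      intro k
      induction k with
      | zero => intro _; simp
      | succ k ih =>
        intro hk
        have h1 := ih (by omega)
        have := hfinite k
        have := hfinite (k + 1)
        obtain ⟨c, hc⟩ := Subgroup.card_dvd_of_le (hsucc k)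
        have hc0 : c ≠ 0 := by
          rintro rfl
          exact hcard k (by rw [hc, mul_zero])
        have hc1 : c ≠ 1 := by
          rintro rfl
          rw [mul_one] at hc
          exact hcase k (by omega) (Subgroup.eq_of_le_of_card_ge (hsucc k) hc.le)
        have h2 : cardFactors (Nat.card (G k)) =
            cardFactors (Nat.card (G (k + 1))) + cardFactors c := by
          rw [hc, cardFactors_mul (hcard (k + 1)) hc0]
        have h3 : 0 < cardFactors c := cardFactors_pos_iff_one_lt.2 (by omega)
        omega
    have h4 : cardFactors (Nat.card (G l)) = 0 := by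
      have := hdrop l le_rfl
      omega
    rcases cardFactors_eq_zero_iff_eq_zero_or_one.1 h4 with h5 | h5
    · exact absurd h5 (hcard l)
    · have h6 : G l = ⊥ := by
        have := hfinite l
        exact Subgroup.card_eq_one.1 h5
      rw [h6, Subgroup.mem_bot] at hx
      intro k
      rw [hx]
      exact (G k).one_mem

end Pool.Agent.Helper28.DB.M_Chain
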