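import Pool.Agent.Helper28.DB.St

/-! Module Cmp (MP_2bc838_lc): coset components. -/

set_option autoImplicit false

namespace Pool.Agent.Helper28.DB.M_Cmp

open AddMonoidAlgebra Pool.Agent.Helper28.DB

variable {E : Type} [AddCommGroup E]

open Classical in
theorem coeff_cmp (H : AddSubgroup E) (v : E) (P : Gr E) :
    (cmp H v P).coeff = P.coeff.filter fun w => w - v ∈ H := rfl

theorem coeff_cmp_apply (H : AddSubgroup E) (v : E) (P : Gr E) (w : E) [Decidable (w - v ∈ H)] :
    (cmp H v P).coeff w = if w - v ∈ H then P.coeff w else 0 := by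
  rw [coeff_cmp, Finsupp.filter_apply]
  by_cases h : w - v ∈ H
  · rw [if_pos h, if_pos h]
  · rw [if_neg h, if_neg h]

theorem cmp_add (H : AddSubgroup E) (v : E) (P Q : Gr E) :
    cmp H v (P + Q) = cmp H v P + cmp H v Q := by
  classical
  ext w
  rw [coeff_cmp_apply, coeff_add, Finsupp.add_apply, coeff_add, Finsupp.add_apply,
    coeff_cmp_apply, coeff_cmp_apply]
  split_ifs
  · rfl
  · rw [add_zero]

theorem cmp_zero (H : AddSubgroup E) (v : E) : cmp H v (0 : Gr E) = 0 := by
  classical
  ext w
  rw [coeff_cmp_apply]
  simp

theorem cmp_sum (H : AddSubgroup E) (v : E) {ι : Type} (s : Finset ι) (f : ι → Gr E) :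
    cmp H v (∑ i ∈ s, f i) = ∑ i ∈ s, cmp H v (f i) := by
  classical
  induction s using Finset.induction_on with
  | empty => rw [Finset.sum_empty, Finset.sum_empty, cmp_zero]
  | insert a s ha ih => rw [Finset.sum_insert ha, Finset.sum_insert ha, cmp_add, ih]

open Classical in
theorem cmp_single (H : AddSubgroup E) (v a : E) (r : ℚ) :
    cmp H v (single a r) = if a - v ∈ H then single a r else 0 := by
  ext w
  rw [coeff_cmp_apply]
  by_cases h : a - v ∈ H
  · rw [if_pos h]
    split_ifs with h1
    · rfl
    · rw [coeff_single, Finsupp.single_apply, if_neg]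
      rintro rfl
      exact h1 h
  · rw [if_neg h]
    split_ifs with h1
    · rw [coeff_single, Finsupp.single_apply, if_neg]
      · simp
      · rintro rfl
        exact h h1
    · simp

theorem cmp_mul_single [Module ℚ E] (H : AddSubgroup E) (P : Gr E) (b : E) (s : ℚ) (hb : b ∈ H) (v : E) :
    cmp H v (P * single b s) = cmp H v P * single b s := by
  classical
  conv_lhs => rw [sum_single P]
  conv_rhs => rw [sum_single P]
  rw [Finset.sum_mul, cmp_sum, cmp_sum, Finset.sum_mul]
  refine Finset.sum_congr rfl fun a _ => ?_
  rw [single_mul_single, cmp_single, cmp_single]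
  have : a + b - v ∈ H ↔ a - v ∈ H := by
    constructor
    · intro h
      have := H.sub_mem h hb
      rwa [show a + b - v - b = a - v by abel] at this
    · intro h
      have := H.add_mem h hb
      rwa [show a - v + b = a + b - v by abel] at this
  by_cases h : a - v ∈ H
  · rw [if_pos h, if_pos (this.2 h), single_mul_single]
  · rw [if_neg h, if_neg (fun h' => h (this.1 h')), zero_mul]

theorem main : StCmp := by
  classical
  intro E _ _ H
  refine ⟨?_, ?_, ?_⟩
  · intro P v w
    rw [Finsupp.mem_support_iff, Finsupp.mem_support_iff, coeff_cmp_apply]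
    split_ifs with h
    · simp [h]
    · simp [h]
  · intro P D hD v
    conv_lhs => rw [sum_single D]
    conv_rhs => rw [sum_single D]
    rw [Finset.mul_sum, cmp_sum, Finset.mul_sum]
    exact Finset.sum_congr rfl fun b hb => cmp_mul_single H P b _ (hD b hb) v
  · intro P
    -- representatives of the classes
    have hrep : ∀ c ∈ P.coeff.support.image (fun w : E => (w : E ⧸ H)),
        ∃ v ∈ P.coeff.support, (v : E ⧸ H) = c := fun c hc => Finset.mem_image.1 hc
    choose! f hf1 hf2 using hrep
    refine ⟨(P.coeff.support.image (fun w : E => (w : E ⧸ H))).image f, ?_, ?_⟩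
    · intro v hv
      obtain ⟨c, hc, rfl⟩ := Finset.mem_image.1 hv
      exact hf1 c hc
    · ext w
      rw [coeff_sum, Finsupp.finsetSum_apply]
      by_cases hw : w ∈ P.coeff.support
      · have hcw : (w : E ⧸ H) ∈ P.coeff.support.image (fun w : E => (w : E ⧸ H)) :=
          Finset.mem_image_of_mem _ hw
        rw [Finset.sum_eq_single (f (w : E ⧸ H))]
        · rw [coeff_cmp_apply, if_pos]
          have := hf2 _ hcw
          exact (QuotientAddGroup.eq_iff_sub_mem.1 this.symm)
        · intro v hv hne
          obtain ⟨c, hc, rfl⟩ := Finset.mem_image.1 hv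
          rw [coeff_cmp_apply, if_neg]
          intro h
          apply hne
          have h1 : (w : E ⧸ H) = (f c : E ⧸ H) := QuotientAddGroup.eq_iff_sub_mem.2 h
          rw [hf2 c hc] at h1
          rw [h1]
        · intro h
          exact absurd (Finset.mem_image_of_mem f hcw) h
      · rw [Finsupp.notMem_support_iff] at hw
        rw [hw]
        symm
        refine Finset.sum_eq_zero fun v _ => ?_
        rw [coeff_cmp_apply, hw]
        split_ifs <;> rfl

end Pool.Agent.Helper28.DB.M_Cmp
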