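import Pool.Agent.Helper28.DB.St

/-! The conclusion when the maps commute as soon as the quotient has finite order. -/

set_option autoImplicit false

namespace Pool.Agent.Helper28.DB.M_Comm

open AddMonoidAlgebra

theorem main (hGrp : StGrp) : StComm := by
  intro E _ _ _ A B d lam p hC hfin
  obtain ⟨G, hG0, hGs, -, hGl, hlast⟩ := hGrp E A B d lam p 0 hC
  have hfo : IsOfFinOrder (A⁻¹ * B) := by
    have h1 : IsOfFinOrder (⟨A⁻¹ * B, hGl⟩ : G 0) := isOfFinOrder_of_finite _
    exact (G 0).subtype.isOfFinOrder h1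
  have hAB := hfin hfo
  refine hlast fun k => ?_
  induction k with
  | zero => exact hGl
  | succ k ih =>
    rw [hGs]
    refine ⟨ih, ?_⟩
    have h2 : A⁻¹ * (A⁻¹ * B) * A = A⁻¹ * B := by
      rw [mul_assoc, mul_assoc, ← hAB, ← mul_assoc A⁻¹ A B, inv_mul_cancel, one_mul]
    rw [h2]
    exact ih

end Pool.Agent.Helper28.DB.M_Comm
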