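import Pool.Agent.Helper28.DB.St

/-! Module Core (MP_2bc838_lc). -/

set_option autoImplicit false

namespace Pool.Agent.Helper28.DB.M_Core

theorem main (hGrp : StGrp) (hChain : StChain) (hEmb : StEmb) (hMink : StMink) : StCore := by
  intro E _ _ _ A B d lam p l hC hl
  obtain ⟨G, hfin, hstep, hfix, hmem, hconc⟩ := hGrp E A B d lam p l hC
  obtain ⟨G', hG'⟩ := hEmb E (G 0) hfin (p 0) hC.p_ne hfix
  have hfin' : Finite G' := by
    apply Nat.finite_of_card_ne_zero
    rw [hG']
    exact Nat.card_pos.ne'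
  have hnu : 0 < Module.finrank ℚ E := by
    have : Nontrivial E := ⟨p 0, 0, hC.p_ne⟩
    exact Module.finrank_pos
  have h1 := hMink _ G' hfin'
  rw [hG', Nat.sub_add_cancel hnu] at h1
  apply hconc
  exact hChain (E ≃ₗ[ℚ] E) A G hfin hstep l (h1.trans hl) _ hmem

end Pool.Agent.Helper28.DB.M_Core
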