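import Pool.Agent.Helper28.DB.St

/-! The first stage (MP_2bc838_lc). -/

set_option autoImplicit false

namespace Pool.Agent.Helper28.DB.M_Count

theorem good_succ {E : Type} [AddCommGroup E] [Module ℚ E] {n : ℕ} {u : ℕ → Fin n → Gr E}
    {p : ℕ → E} {N : Submodule ℚ E} {i : ℕ} (h : Good u p N i) : Good u p N (i + 1) :=
  ⟨fun m s hs hl k hk c hc t => h.1 m s (fun t => (Nat.le_succ i).trans (hs t)) hl k
    ((Nat.le_succ i).trans hk) c hc t, fun k hk => h.2 k ((Nat.le_succ i).trans hk)⟩

theorem zero_of_dm {E : Type} [AddCommGroup E] [Module ℚ E] {n : ℕ} {u : ℕ → Fin n → Gr E}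
    {i : ℕ} (h : dm u i = 0) (k : ℕ) (hk : i ≤ k) : u k = 0 := by
  unfold dm at h
  rw [Submodule.finrank_eq_zero] at h
  have h1 : iv (u k) ∈ Submodule.span (Fr E) {x : Fin n → Fr E | ∃ k, i ≤ k ∧ x = iv (u k)} :=
    Submodule.subset_span ⟨k, hk, rfl⟩
  rw [h, Submodule.mem_bot] at h1
  funext c
  have h2 := congrFun h1 c
  exact io_eq_zero.1 h2

theorem main (hLeast : StLeast) (hBasis : StBasis) (hStable : StStable) (hStab : StStab)
    (_hSubf : StSubf) : StCount := by
  intro E _ _ _ n A J u p hfr hu hp hpu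
  choose N hN hNl using fun i => hLeast E n u p i
  have hNle : ∀ i, N (i + 1) ≤ N i := fun i => hNl (i + 1) _ (good_succ (hN i))
  have hdle : ∀ i, dm u (i + 1) ≤ dm u i := fun i => (hBasis E n u i).2.2.2.1
  have hdn : ∀ i, dm u i ≤ n := fun i => (hBasis E n u i).2.2.2.2
  have hfle : ∀ i, Module.finrank ℚ (N (i + 1)) ≤ Module.finrank ℚ (N i) :=
    fun i => Submodule.finrank_mono (hNle i)
  have hs0 : dm u 0 + Module.finrank ℚ (N 0) ≤ 2 * n := by
    have h1 := hdn 0
    have h2 : Module.finrank ℚ (N 0) ≤ Module.finrank ℚ E := Submodule.finrank_le _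
    omega
  have hex : ∃ i, dm u (i + 1) + Module.finrank ℚ (N (i + 1)) =
      dm u i + Module.finrank ℚ (N i) := by
    by_contra hcon
    push Not at hcon
    have h1 : ∀ i, dm u i + Module.finrank ℚ (N i) + i ≤ 2 * n := by
      intro i
      induction i with
      | zero => simpa using hs0
      | succ i ih =>
        have h2 := hcon i
        have h3 := hdle i
        have h4 := hfle i
        omega
    have h5 := h1 (2 * n + 1)
    omega
  classical
  let i₀ := Nat.find hex
  have hi₀ : dm u (i₀ + 1) + Module.finrank ℚ (N (i₀ + 1)) =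
      dm u i₀ + Module.finrank ℚ (N i₀) := Nat.find_spec hex
  have hlt : ∀ i, i < i₀ → dm u (i + 1) + Module.finrank ℚ (N (i + 1)) ≠
      dm u i + Module.finrank ℚ (N i) := fun i hi => Nat.find_min hex hi
  have hsum : ∀ i, i ≤ i₀ → dm u i + Module.finrank ℚ (N i) + i ≤ 2 * n := by
    intro i
    induction i with
    | zero => intro _; simpa using hs0
    | succ i ih =>
      intro hi
      have h2 := hlt i hi
      have h3 := hdle i
      have h4 := hfle i
      have h5 := ih (Nat.le_of_succ_le hi)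
      omega
  have hd : dm u (i₀ + 1) = dm u i₀ := by
    have h3 := hdle i₀
    have h4 := hfle i₀
    omega
  have hNeq : N (i₀ + 1) = N i₀ := by
    refine Submodule.eq_of_le_of_finrank_eq (hNle i₀) ?_
    omega
  obtain ⟨hmap, hall⟩ := hStable E n A J u p hu hp i₀ (N i₀) hd (hN i₀) (by
    intro N' hN'
    rw [← hNeq]
    exact hNl _ _ hN')
  have hsi := hsum i₀ le_rfl
  by_cases h0 : dm u i₀ = 0
  · left
    intro i hi
    by_cases h1 : i₀ ≤ i
    · exact zero_of_dm h0 i h1
    · have h2 := hsum i (by omega)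
      by_cases h3 : dm u i = 0
      · exact zero_of_dm h3 i le_rfl
      · have h4 : Module.finrank ℚ (N i) = 0 := by omega
        rw [Submodule.finrank_eq_zero] at h4
        have h5 := (hN i).2 i le_rfl
        rw [h4, Submodule.mem_bot] at h5
        exact (hpu i).1 h5
  · right
    obtain ⟨lam, hlam⟩ := hStab E n A J u p hu hp hpu i₀ (dm u i₀) (N i₀) (by omega) hmap hall
    exact ⟨i₀, dm u i₀, N i₀, lam, by omega, hlam⟩

end Pool.Agent.Helper28.DB.M_Count
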