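import Pool.Agent.Helper28.DB.St

/-! Coefficients of relations between vectors over `K_N` lie in `K_N` (MP_2bc838_lc). -/

set_option autoImplicit false

namespace Pool.Agent.Helper28.DB.M_Desc

open Pool.Agent.Helper28.DB

/-- A matrix with independent rows has a nonzero maximal minor. -/
theorem exists_minor {K : Type} [Field K] {m N : ℕ} (A : Matrix (Fin m) (Fin N) K)
    (h : LinearIndependent K A.row) :
    ∃ s : Fin m → Fin N, Function.Injective s ∧ (A.submatrix id s).det ≠ 0 := by
  obtain ⟨κ, a, ha, hsp, hli⟩ := exists_linearIndependent' K A.col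
  have hrk : A.rank = m := by simpa using h.rank_matrix
  have : Finite κ := Finite.of_injective a ha
  have : Fintype κ := Fintype.ofFinite κ
  have hcard : Fintype.card κ = m := by
    rw [← hrk, Matrix.rank_eq_finrank_span_cols, ← hsp, finrank_span_eq_card hli]
  let e : Fin m ≃ κ := (Fintype.equivFinOfCardEq hcard).symm
  refine ⟨a ∘ e, ha.comp e.injective, ?_⟩
  have h2 : LinearIndependent K ((A.submatrix id (a ∘ e)).col) := by
    have := hli.comp e e.injective
    exact this
  have h3 := Matrix.linearIndependent_cols_iff_isUnit.1 h2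
  exact ((Matrix.isUnit_iff_isUnit_det _).1 h3).ne_zero

theorem main (hSubf : StSubf) : StDesc := by
  intro E _ _ N m l a b c ha hb hli hrel
  obtain ⟨K, hK⟩ := (hSubf E).1 N
  obtain ⟨s, -, hs⟩ := exists_minor (Matrix.of a) hli
  -- the square system over `K`
  let MK : Matrix (Fin m) (Fin m) K := Matrix.of fun t j => ⟨a t (s j), (hK _).2 (ha t (s j))⟩
  let bK : Fin m → K := fun j => ⟨b (s j), (hK _).2 (hb (s j))⟩
  have hM : MK.map K.subtype = (Matrix.of a).submatrix id s := by
    ext t j
    rfl
  have hdet : MK.det ≠ 0 := by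
    intro h
    apply hs
    rw [← hM]
    have h1 := RingHom.map_det K.subtype MK
    rw [h, map_zero] at h1
    exact h1.symm
  let cK : Fin m → K := Matrix.vecMul bK MK⁻¹
  have hcK : Matrix.vecMul cK MK = bK := by
    change Matrix.vecMul (Matrix.vecMul bK MK⁻¹) MK = bK
    rw [Matrix.vecMul_vecMul, Matrix.nonsing_inv_mul _ (isUnit_iff_ne_zero.2 hdet),
      Matrix.vecMul_one]
  have h1 : Matrix.vecMul (K.subtype ∘ cK) ((Matrix.of a).submatrix id s) =
      Matrix.vecMul c ((Matrix.of a).submatrix id s) := by
    funext j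
    rw [← hM, ← RingHom.map_vecMul, hcK]
    change b (s j) = _
    rw [hrel, hM, Finset.sum_apply]
    rfl
  have hinj : Function.Injective (fun v : Fin m → Fr E =>
      Matrix.vecMul v ((Matrix.of a).submatrix id s)) := by
    apply Matrix.vecMul_injective_iff_isUnit.2
    exact (Matrix.isUnit_iff_isUnit_det _).2 (isUnit_iff_ne_zero.2 hs)
  have h2 := hinj h1
  intro t
  rw [← hK, ← h2]
  exact (cK t).2

end Pool.Agent.Helper28.DB.M_Desc
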