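import Pool.Agent.Helper28.DB.St

/-! Linear maps fixing `f` permute a finite set of vectors (MP_2bc838_lc). -/

set_option autoImplicit false

namespace Pool.Agent.Helper28.DB.M_Diff

open AddMonoidAlgebra

variable {E : Type} [AddCommGroup E] [Module ℚ E]

theorem mem_of_mul_single (P : Gr E) (b : E) (c : ℚ) (x : E)
    (hx : x ∈ (P * single b c).coeff.support) : x - b ∈ P.coeff.support := by
  classical
  obtain ⟨a, ha, b', hb', rfl⟩ := Finset.mem_add.1 (support_coeff_mul_subset P (single b c) hx)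
  rw [coeff_single] at hb'
  have := Finsupp.support_single_subset hb'
  rw [Finset.mem_singleton] at this
  rw [this, add_sub_cancel_right]
  exact ha

theorem mem_gm (θ : E ≃ₗ[ℚ] E) (P : Gr E) (v : E) (hv : v ∈ P.coeff.support) :
    θ v ∈ (gm (θ : E →ₗ[ℚ] E) P).coeff.support := by
  rw [Finsupp.mem_support_iff, gm_coeff]
  have h1 : Finsupp.mapDomain (θ : E →ₗ[ℚ] E) P.coeff ((θ : E →ₗ[ℚ] E) v) = P.coeff v :=
    Finsupp.mapDomain_apply (f := (θ : E →ₗ[ℚ] E)) θ.injective P.coeff v
  have h2 : (θ : E →ₗ[ℚ] E) v = θ v := rfl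
  rw [h2] at h1
  rw [h1]
  exact Finsupp.mem_support_iff.1 hv

theorem main (hRed : StRed) (hUnit : StUnit) (hTr : StTr) : StDiff := by
  classical
  intro E _ _ _ f
  obtain ⟨P, D, ⟨hD, hred⟩, hf⟩ := hRed E f
  have hDne : D.coeff.support.Nonempty := by
    rw [Finset.nonempty_iff_ne_empty]
    intro h0
    apply hD
    ext v
    have : v ∉ D.coeff.support := by rw [h0]; simp
    simpa using this
  obtain ⟨v₀, hv₀⟩ := hDne
  set X : Finset E := P.coeff.support ∪ D.coeff.support with hX
  have hv₀X : v₀ ∈ X := Finset.mem_union_right _ hv₀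
  refine ⟨(X ×ˢ X).image fun x => x.1 - x.2, ?_, ?_⟩
  · have key : ∀ Q : Gr E, (∀ v ∈ Q.coeff.support, v ∈ X) →
        Supp (Submodule.span ℚ (((X ×ˢ X).image fun x : E × E => x.1 - x.2 : Finset E) : Set E))
          (Q * single (-v₀) 1) := by
      intro Q hQ x hx
      have h1 := mem_of_mul_single Q (-v₀) 1 x hx
      rw [sub_neg_eq_add] at h1
      apply Submodule.subset_span
      rw [Finset.mem_coe, Finset.mem_image]
      exact ⟨(x + v₀, v₀), Finset.mem_product.2 ⟨hQ _ h1, hv₀X⟩, by simp⟩
    refine ⟨P * single (-v₀) 1, D * single (-v₀) 1, ?_, ?_, ?_, ?_⟩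
    · refine mul_ne_zero hD ?_
      intro h0
      have h1 := congrArg (fun z : Gr E => z.coeff (-v₀)) h0
      simp at h1
    · exact key P fun v hv => Finset.mem_union_left _ hv
    · exact key D fun v hv => Finset.mem_union_right _ hv
    · rw [map_mul, map_mul, ← mul_assoc, hf]
  · intro θ hθ v hv
    set A : E →ₗ[ℚ] E := (θ : E →ₗ[ℚ] E) with hA
    set A' : E →ₗ[ℚ] E := (θ.symm : E →ₗ[ℚ] E) with hA'
    have hAA' : ∀ Q : Gr E, gm A (gm A' Q) = Q := by
      intro Q
      rw [← gm_comp]
      have : A ∘ₗ A' = LinearMap.id := by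
        ext x
        simp [hA, hA']
      rw [this, gm_id]
    have hA'A : ∀ Q : Gr E, gm A' (gm A Q) = Q := by
      intro Q
      rw [← gm_comp]
      have : A' ∘ₗ A = LinearMap.id := by
        ext x
        simp [hA, hA']
      rw [this, gm_id]
    have hAD : gm A D ≠ 0 := by
      intro h0
      apply hD
      rw [← hA'A D, h0, map_zero]
    have hf' : f * io (gm A D) = io (gm A P) := by
      have h1 : Tr A f (io (gm A P) / io (gm A D)) :=
        ⟨P, D, hAD, hf, div_mul_cancel₀ _ (io_ne_zero.2 hAD)⟩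
      have h2 := (hTr E E A).1 f _ _ hθ h1
      rw [h2]
      exact div_mul_cancel₀ _ (io_ne_zero.2 hAD)
    have hcross : P * gm A D = gm A P * D := by
      apply io_injective
      rw [map_mul, map_mul, ← hf, ← hf']
      ring
    obtain ⟨T, hT1, hT2⟩ := hred _ _ hcross
    have hcross' : P * gm A' D = gm A' P * D := by
      have h1 := congrArg (gm A') hcross
      rw [map_mul, map_mul, hA'A, hA'A] at h1
      exact h1.symm
    obtain ⟨T', hT'1, hT'2⟩ := hred _ _ hcross'
    have hD2 : D = gm A D * gm A T' := by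
      have := congrArg (gm A) hT'2
      rwa [hAA', map_mul] at this
    have hTT : T * gm A T' = 1 := by
      apply mul_left_cancel₀ hD
      rw [← mul_assoc, ← hT2, ← hD2, mul_one]
    obtain ⟨b, c, hc, hTb⟩ := hUnit E T _ hTT
    rw [hTb] at hT1 hT2
    have hmem : ∀ v ∈ X, θ v - b ∈ X := by
      intro v hv
      rcases Finset.mem_union.1 hv with h | h
      · apply Finset.mem_union_left
        apply mem_of_mul_single P b c
        rw [← hT1]
        exact mem_gm θ P v h
      · apply Finset.mem_union_right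
        apply mem_of_mul_single D b c
        rw [← hT2]
        exact mem_gm θ D v h
    rw [Finset.mem_image] at hv ⊢
    obtain ⟨x, hx, rfl⟩ := hv
    rw [Finset.mem_product] at hx
    exact ⟨(θ x.1 - b, θ x.2 - b), Finset.mem_product.2 ⟨hmem _ hx.1, hmem _ hx.2⟩, by simp⟩

end Pool.Agent.Helper28.DB.M_Diff
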