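import Pool.Agent.Helper28.DB.St

/-! Descent to the subspace (DB module Down). -/

set_option autoImplicit false
set_option linter.unusedSectionVars false

namespace Pool.Agent.Helper28.DB.M_Down

open AddMonoidAlgebra

section

variable {E : Type} [AddCommGroup E] [Module ℚ E]

lemma lift_supp (N : Submodule ℚ E) (N'' : Submodule ℚ N) (P : Gr E)
    (hP : Supp (N''.map N.subtype) P) : ∃ P0 : Gr N, Supp N'' P0 ∧ gm N.subtype P0 = P := by
  classical
  let w : E → N := fun v => if h : v ∈ N then ⟨v, h⟩ else 0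
  have hw : ∀ v ∈ P.coeff.support, w v ∈ N'' ∧ N.subtype (w v) = v := by
    intro v hv
    obtain ⟨x, hx, hxv⟩ := hP v hv
    have hvN : v ∈ N := by
      rw [← hxv]
      exact x.2
    have h1 : w v = x := by
      change (if h : v ∈ N then (⟨v, h⟩ : N) else 0) = x
      rw [dif_pos hvN]
      apply Subtype.ext
      exact hxv.symm
    rw [h1]
    exact ⟨hx, hxv⟩
  refine ⟨∑ v ∈ P.coeff.support, single (w v) (P.coeff v), ?_, ?_⟩
  · exact supp_sum _ _ fun v hv => supp_single (hw v hv).1 _
  · rw [map_sum]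
    conv_rhs => rw [sum_single P]
    refine Finset.sum_congr rfl fun v hv => ?_
    rw [gm_single, (hw v hv).2]

lemma gm_sub_inj (N : Submodule ℚ E) : Function.Injective (gm N.subtype) := by
  rw [injective_iff_map_eq_zero]
  intro P hP
  by_contra h
  exact gm_ne_zero (N := ⊤) (A := N.subtype) (fun v _ hv => Subtype.ext hv) (supp_top P) h hP

lemma tr_inj (N : Submodule ℚ E) {g g' : Fr N} {f : Fr E} (h : Tr N.subtype g f)
    (h' : Tr N.subtype g' f) : g = g' := by
  obtain ⟨P, D, hD, hg, hf⟩ := h
  obtain ⟨P', D', hD', hg', hf'⟩ := h'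
  have hD0 : io D ≠ 0 := by
    rw [io_ne_zero]
    rintro rfl
    exact hD (map_zero _)
  have hD0' : io D' ≠ 0 := by
    rw [io_ne_zero]
    rintro rfl
    exact hD' (map_zero _)
  have h1 : P * D' = D * P' := by
    apply gm_sub_inj N
    apply io_injective
    rw [map_mul, map_mul, map_mul, map_mul]
    linear_combination (-io (gm N.subtype D')) * hf + (io (gm N.subtype D)) * hf'
  have h2 : io P * io D' = io D * io P' := by
    rw [← map_mul, ← map_mul, h1]
  have h3 : (g - g') * (io D * io D') = 0 := by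
    linear_combination (io D') * hg - (io D) * hg' + h2
  rcases mul_eq_zero.mp h3 with h4 | h4
  · exact sub_eq_zero.mp h4
  · exact absurd h4 (mul_ne_zero hD0 hD0')

end

theorem main (hAdm : StAdm) (hTr : StTr) (hTrComp : StTrComp) (hSubf : StSubf) : StDown := by
  intro E _ _ N
  refine ⟨?_, ?_, ?_⟩
  · rintro f ⟨P, D, hD, hP, hD', hf⟩
    have htop : (⊤ : Submodule ℚ N).map N.subtype = N := Submodule.map_subtype_top N
    obtain ⟨P0, _, hP0⟩ := lift_supp N ⊤ P (by rw [htop]; exact hP)
    obtain ⟨D0, _, hD0⟩ := lift_supp N ⊤ D (by rw [htop]; exact hD')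
    have hne : io D0 ≠ 0 := by
      rw [io_ne_zero]
      rintro rfl
      rw [map_zero] at hD0
      exact hD hD0.symm
    refine ⟨io P0 / io D0, P0, D0, ?_, ?_, ?_⟩
    · rw [hD0]
      exact hD
    · exact div_mul_cancel₀ _ hne
    · rw [hD0, hP0]
      exact hf
  · intro f g hgf N'
    constructor
    · intro h
      exact (hAdm N E N.subtype N' g f h hgf).2.1
    · rintro ⟨P, D, hD, hP, hD', hf⟩
      obtain ⟨P0, hP0s, hP0⟩ := lift_supp N N' P hP
      obtain ⟨D0, hD0s, hD0⟩ := lift_supp N N' D hD'
      obtain ⟨P1, D1, hD1, hg, hf1⟩ := hgf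
      have hne : D0 ≠ 0 := by
        rintro rfl
        rw [map_zero] at hD0
        exact hD hD0.symm
      have hne1 : io D1 ≠ 0 := by
        rw [io_ne_zero]
        rintro rfl
        exact hD1 (map_zero _)
      refine ⟨P0, D0, hne, hP0s, hD0s, ?_⟩
      have h1 : P0 * D1 = P1 * D0 := by
        apply gm_sub_inj N
        apply io_injective
        rw [map_mul, map_mul, map_mul, map_mul, hP0, hD0]
        linear_combination (-io (gm N.subtype D1)) * hf + (io D) * hf1
      have h2 : io P0 * io D1 = io P1 * io D0 := by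
        rw [← map_mul, ← map_mul, h1]
      have h3 : (g * io D0 - io P0) * io D1 = 0 := by
        linear_combination (io D0) * hg - h2
      exact sub_eq_zero.mp ((mul_eq_zero.mp h3).resolve_right hne1)
  · intro A A' hAA' hA f f' g g' hgf hgf'
    have hcomp : A ∘ₗ N.subtype = N.subtype ∘ₗ A' := by
      ext v
      exact (hAA' v).symm
    have htop : InK ⊤ g := (hSubf N).2.2.1 g
    have h1 := hTrComp N E E N.subtype A ⊤ (fun v _ hv => Subtype.ext (hA v v.2 hv)) g f f' htop hgf
    have hinj : ∀ v ∈ (⊤ : Submodule ℚ N), N.subtype (A' v) = 0 → v = 0 := by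
      intro v _ hv
      apply Subtype.ext
      apply hA v v.2
      rw [← hAA' v]
      exact hv
    rw [h1, hcomp]
    constructor
    · intro h
      obtain ⟨g1, hg1⟩ := (hTr N N A').2.2.2.2.1 ⊤ (fun v hv h0 => hinj v hv (by rw [h0]; rfl)) g
        htop
      have h2 := (hTrComp N N E A' N.subtype ⊤ hinj g g1 f' htop hg1).mpr h
      rw [← tr_inj N h2 hgf']
      exact hg1
    · intro h
      exact (hTrComp N N E A' N.subtype ⊤ hinj g g' f' htop h).mp hgf'

end Pool.Agent.Helper28.DB.M_Down
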