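import Pool.Agent.Helper28.DB.St

/-! A finite group of linear automorphisms that fixes a nonzero vector embeds in a smaller linear
group (MP_2bc838_lc, module Emb). -/

set_option autoImplicit false

namespace Pool.Agent.Helper28.DB.M_Emb

open Pool.Agent.Helper28.DB

section

variable {E : Type} [AddCommGroup E] [Module ℚ E]

theorem le_comap (p : E) (g : E ≃ₗ[ℚ] E) (hg : g p = p) :
    (Submodule.span ℚ {p}) ≤ (Submodule.span ℚ {p}).comap (g : E →ₗ[ℚ] E) := by
  rw [Submodule.span_singleton_le_iff_mem, Submodule.mem_comap]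
  change g p ∈ Submodule.span ℚ {p}
  rw [hg]
  exact Submodule.mem_span_singleton_self p

/-- the action on the quotient by the fixed line -/
noncomputable def rho (p : E) (G : Subgroup (E ≃ₗ[ℚ] E)) (hG : ∀ g ∈ G, g p = p) :
    G →* Module.End ℚ (E ⧸ Submodule.span ℚ {p}) where
  toFun g := (Submodule.span ℚ {p}).mapQ (Submodule.span ℚ {p}) (g.1 : E →ₗ[ℚ] E)
    (le_comap p g.1 (hG g.1 g.2))
  map_one' := by
    ext x
    rfl
  map_mul' g h := by
    ext x
    rfl

theorem rho_mk (p : E) (G : Subgroup (E ≃ₗ[ℚ] E)) (hG : ∀ g ∈ G, g p = p) (g : G) (v : E) :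
    rho p G hG g (Submodule.Quotient.mk v) = Submodule.Quotient.mk (g.1 v) := rfl

theorem unip {p : E} (hp : p ≠ 0) {g : E ≃ₗ[ℚ] E} (hg : g p = p) {N : ℕ} (hN : 0 < N)
    (hgN : g ^ N = 1) {v : E} (hv : g v - v ∈ Submodule.span ℚ {p}) : g v = v := by
  obtain ⟨c, hc⟩ := Submodule.mem_span_singleton.1 hv
  have hc' : g v = v + c • p := by rw [hc]; abel
  have key : ∀ k : ℕ, (g ^ k) v = v + ((k : ℚ) * c) • p := by
    intro k
    induction k with
    | zero => simp
    | succ k ih =>
      rw [pow_succ', LinearEquiv.mul_apply, ih, map_add, map_smul, hg, hc', add_assoc, ← add_smul]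
      congr 2
      push_cast
      ring
  have h1 := key N
  rw [hgN, LinearEquiv.coe_one, id] at h1
  have h2 : ((N : ℚ) * c) • p = 0 := by
    have := h1.symm
    rwa [add_eq_left] at this
  have h3 : (N : ℚ) * c = 0 := (smul_eq_zero.1 h2).resolve_right hp
  have h4 : c = 0 := (mul_eq_zero.1 h3).resolve_left (by exact_mod_cast hN.ne')
  rw [hc', h4, zero_smul, add_zero]

theorem rho_injective {p : E} (hp : p ≠ 0) (G : Subgroup (E ≃ₗ[ℚ] E)) [Finite G]
    (hG : ∀ g ∈ G, g p = p) : Function.Injective (rho p G hG) := by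
  rw [injective_iff_map_eq_one]
  intro g hg
  apply Subtype.ext
  apply LinearEquiv.ext
  intro v
  have h1 := LinearMap.congr_fun hg (Submodule.Quotient.mk v)
  rw [rho_mk] at h1
  have h2 : g.1 v - v ∈ Submodule.span ℚ {p} := (Submodule.Quotient.eq _).1 h1
  have h3 : (g : E ≃ₗ[ℚ] E) ^ orderOf g = 1 := by
    have := pow_orderOf_eq_one g
    exact_mod_cast congrArg Subtype.val this
  exact unip hp (hG g.1 g.2) (orderOf_pos g) h3 h2

end

theorem main : StEmb := by
  intro E _ _ _ G hfin p hp hG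
  have hdim : Module.finrank ℚ (E ⧸ Submodule.span ℚ {p}) = Module.finrank ℚ E - 1 := by
    have h1 := Submodule.finrank_quotient_add_finrank (Submodule.span ℚ {p})
    rw [finrank_span_singleton hp] at h1
    omega
  let b : Module.Basis (Fin (Module.finrank ℚ E - 1)) ℚ (E ⧸ Submodule.span ℚ {p}) :=
    Module.finBasisOfFinrankEq ℚ _ hdim
  let e : Module.End ℚ (E ⧸ Submodule.span ℚ {p}) ≃ₐ[ℚ]
      Matrix (Fin (Module.finrank ℚ E - 1)) (Fin (Module.finrank ℚ E - 1)) ℚ :=
    LinearMap.toMatrixAlgEquiv b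
  let f : G →* GL (Fin (Module.finrank ℚ E - 1)) ℚ :=
    MonoidHom.toHomUnits ((e : _ →* _).comp (rho p G hG))
  have hf : Function.Injective f := by
    intro g h hgh
    apply rho_injective hp G hG
    apply e.injective
    exact congrArg Units.val hgh
  exact ⟨f.range, Nat.card_congr (MonoidHom.ofInjective hf).toEquiv.symm⟩

end Pool.Agent.Helper28.DB.M_Emb
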