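import Pool.Agent.Helper28.DB.St

/-! Words and their Fox derivatives. -/

set_option autoImplicit false

namespace Pool.Agent.Helper28.DB.M_Fox

open AddMonoidAlgebra

/-- the unit vector -/
private def ee {n : ℕ} (a : Fin n) : Fin n → ℚ := Pi.single a (1 : ℚ)

private theorem ee_nonneg {n : ℕ} (a i : Fin n) : 0 ≤ ee a i := by
  unfold ee
  by_cases h : i = a
  · subst h; simp
  · rw [Pi.single_eq_of_ne h]

private theorem ee_self {n : ℕ} (a : Fin n) : ee a a = 1 := by simp [ee]

private theorem fox_cons {n : ℕ} (a : Fin n) (w : List (Fin n)) (c : Fin n) :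
    fox (a :: w) c = (if a = c then 1 else 0) + single (ee a) (1 : ℚ) * fox w c := rfl

private theorem coeff_ite {n : ℕ} (p : Prop) [Decidable p] (v : Fin n → ℚ) :
    ((if p then (1 : Gr (Fin n → ℚ)) else 0)).coeff v = if p ∧ v = 0 then 1 else 0 := by
  by_cases h : p
  · rw [if_pos h]
    by_cases hv : v = 0
    · rw [if_pos ⟨h, hv⟩, hv]
      simp [AddMonoidAlgebra.one_def]
    · rw [if_neg (fun h' => hv h'.2)]
      rw [AddMonoidAlgebra.one_def, coeff_single, Finsupp.single_apply, if_neg (Ne.symm hv)]
  · rw [if_neg h, if_neg (fun h' => h h'.1)]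
    simp

private theorem fox_coeff_cons {n : ℕ} (a : Fin n) (w : List (Fin n)) (c : Fin n)
    (v : Fin n → ℚ) :
    (fox (a :: w) c).coeff v = (if a = c ∧ v = 0 then 1 else 0) + (fox w c).coeff (-ee a + v) := by
  rw [fox_cons, coeff_add, Finsupp.add_apply, coeff_ite, coeff_single_mul_apply, one_mul]

private theorem fox_nonneg {n : ℕ} (w : List (Fin n)) (c : Fin n) (v : Fin n → ℚ)
    (h : (fox w c).coeff v ≠ 0) : ∀ i, 0 ≤ v i := by
  induction w generalizing v with
  | nil => exact absurd (by simp [fox]) h
  | cons a w ih =>
    rw [fox_coeff_cons] at h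
    intro i
    by_cases hv : v = 0
    · rw [hv]; exact le_rfl
    · rw [if_neg (fun h' => hv h'.2), zero_add] at h
      have h1 := ih _ h i
      have h2 := ee_nonneg a i
      rw [Pi.add_apply, Pi.neg_apply] at h1
      linarith

private theorem fox_coeff_zero {n : ℕ} (a : Fin n) (w : List (Fin n)) (c : Fin n) :
    (fox (a :: w) c).coeff 0 = if a = c then 1 else 0 := by
  rw [fox_coeff_cons]
  have h : (fox w c).coeff (-ee a + 0) = 0 := by
    by_contra hne
    have h1 := fox_nonneg w c _ hne a
    rw [add_zero, Pi.neg_apply, ee_self] at h1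
    linarith
  rw [h, add_zero]
  simp

private theorem cancel {n : ℕ} (a : Fin n) (P Q : Gr (Fin n → ℚ))
    (h : single (ee a) (1 : ℚ) * P = single (ee a) (1 : ℚ) * Q) : P = Q := by
  have h1 : single (-ee a) (1 : ℚ) * single (ee a) (1 : ℚ) = (1 : Gr (Fin n → ℚ)) := by
    rw [single_mul_single, neg_add_cancel, one_mul, AddMonoidAlgebra.one_def]
  calc P = single (-ee a) (1 : ℚ) * single (ee a) (1 : ℚ) * P := by rw [h1, one_mul]
    _ = single (-ee a) (1 : ℚ) * single (ee a) (1 : ℚ) * Q := by rw [mul_assoc, h, ← mul_assoc]
    _ = Q := by rw [h1, one_mul]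

private theorem fox_inj {n : ℕ} (w w' : List (Fin n)) (h : fox w = fox w') : w = w' := by
  induction w generalizing w' with
  | nil =>
    cases w' with
    | nil => rfl
    | cons b w' =>
      exfalso
      have h1 := congrArg (fun f => (f b).coeff 0) h
      simp only [fox_coeff_zero, if_true] at h1
      simp [fox] at h1
  | cons a w ih =>
    cases w' with
    | nil =>
      exfalso
      have h1 := congrArg (fun f => (f a).coeff 0) h
      simp only [fox_coeff_zero, if_true] at h1
      simp [fox] at h1
    | cons b w' =>
      have h1 := congrArg (fun f => (f a).coeff 0) h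
      simp only [fox_coeff_zero, if_true] at h1
      have hab : b = a := by
        by_contra hne
        rw [if_neg hne] at h1
        exact one_ne_zero h1
      subst hab
      congr 1
      apply ih
      funext c
      have h2 := congrFun h c
      rw [fox_cons, fox_cons] at h2
      exact cancel b _ _ (add_left_cancel h2)

private theorem par_nil {n : ℕ} : par ([] : List (Fin n)) = 0 := by
  funext c; simp [par]

private theorem par_cons {n : ℕ} (a : Fin n) (w : List (Fin n)) :
    par (a :: w) = ee a + par w := by
  funext c
  rw [Pi.add_apply]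
  unfold par ee
  rw [List.count_cons]
  by_cases h : c = a
  · subst h
    simp
    ring
  · rw [Pi.single_eq_of_ne h]
    have : ¬ (a == c) = true := by
      simpa using (Ne.symm h)
    rw [if_neg this]
    simp

private theorem par_append {n : ℕ} (v w : List (Fin n)) : par (v ++ w) = par v + par w := by
  funext c
  simp [par, List.count_append]

private theorem fox_append {n : ℕ} (v w : List (Fin n)) (c : Fin n) :
    fox (v ++ w) c = fox v c + single (par v) (1 : ℚ) * fox w c := by
  induction v with
  | nil =>
    rw [List.nil_append, par_nil]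
    simp only [fox, zero_add]
    rw [← AddMonoidAlgebra.one_def, one_mul]
  | cons a v ih =>
    rw [List.cons_append, fox_cons, fox_cons, ih, par_cons, mul_add, ← mul_assoc,
      single_mul_single, one_mul, add_assoc]

private theorem parM_ee {n : ℕ} (h : Fin n → List (Fin n)) (a : Fin n) :
    parM h (ee a) = par (h a) := by
  unfold parM ee
  rw [Fintype.linearCombination_apply_single, one_smul]

private theorem gm_ite {n : ℕ} (A : (Fin n → ℚ) →ₗ[ℚ] (Fin n → ℚ)) (p : Prop) [Decidable p] :
    gm A (if p then 1 else 0) = if p then 1 else 0 := by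
  by_cases h : p
  · rw [if_pos h, map_one]
  · rw [if_neg h, map_zero]

private theorem fox_flatMap {n : ℕ} (h : Fin n → List (Fin n)) (w : List (Fin n)) (c : Fin n) :
    fox (w.flatMap h) c = sh (parM h) (fun a => fox (h a)) (fox w) c := by
  induction w with
  | nil =>
    unfold sh
    simp [fox]
  | cons a w ih =>
    rw [List.flatMap_cons, fox_append, ih]
    unfold sh
    have h1 : ∀ b, gm (parM h) (fox (a :: w) b) * fox (h b) c =
        (if a = b then 1 else 0) * fox (h b) c +
          single (par (h a)) (1 : ℚ) * (gm (parM h) (fox w b) * fox (h b) c) := by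
      intro b
      rw [fox_cons, map_add, map_mul, gm_ite, gm_single, parM_ee, add_mul, mul_assoc]
    simp only [h1]
    rw [Finset.sum_add_distrib, ← Finset.mul_sum]
    congr 1
    rw [Finset.sum_eq_single a]
    · rw [if_pos rfl, one_mul]
    · intro b _ hb
      rw [if_neg (Ne.symm hb), zero_mul]
    · intro ha
      exact absurd (Finset.mem_univ a) ha

theorem main : StFox := by
  intro n
  refine ⟨fox_inj, fun h w => funext fun c => fox_flatMap h w c, ?_, ?_⟩
  · intro h w
    induction w with
    | nil => rw [List.flatMap_nil, par_nil, map_zero]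
    | cons a w ih => rw [List.flatMap_cons, par_append, ih, par_cons, map_add, parM_ee]
  · intro w
    cases w with
    | nil =>
      constructor
      · intro _
        funext c
        rfl
      · intro _
        exact par_nil
    | cons a w =>
      constructor
      · intro h
        exfalso
        have h1 := congrFun h a
        rw [par_cons, Pi.add_apply, ee_self, Pi.zero_apply] at h1
        have h2 : (0 : ℚ) ≤ par w a := by
          unfold par
          positivity
        linarith
      · intro h
        exfalso
        have h1 := congrArg (fun f => (f a).coeff 0) h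
        simp only [fox_coeff_zero, if_true] at h1
        simp at h1

end Pool.Agent.Helper28.DB.M_Fox
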