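import Pool.Agent.Helper28.DB.St

/-! Module Frac (MP_2bc838_lc): fractions and coset components. -/

set_option autoImplicit false

namespace Pool.Agent.Helper28.DB.M_Frac

open AddMonoidAlgebra Pool.Agent.Helper28.DB

theorem main (hCmp : StCmp) : StFrac := by
  intro E _ _ N f hf P D hPD v
  obtain ⟨P0, D0, h0, hP0, hD0, hf0⟩ := hf
  obtain ⟨-, hmul, -⟩ := hCmp E N.toAddSubgroup
  have e : P * D0 = D * P0 := by
    apply io_injective
    rw [map_mul, map_mul, ← hPD, ← hf0]
    ring
  have h1 := hmul P D0 (fun w hw => hD0 w hw) v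
  have h2 := hmul D P0 (fun w hw => hP0 w hw) v
  rw [e, h2] at h1
  apply mul_right_cancel₀ (io_ne_zero.2 h0)
  rw [← map_mul, ← h1, map_mul, ← hf0]
  ring

end Pool.Agent.Helper28.DB.M_Frac
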