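import Pool.Agent.Helper28.DB.St

/-! The groups of the chain (DB module Grp). -/

set_option autoImplicit false
set_option linter.unusedSectionVars false

namespace Pool.Agent.Helper28.DB.M_Grp

open AddMonoidAlgebra

section

variable {E : Type} [AddCommGroup E] [Module ℚ E]

/-- transport along equivalences -/
def T (x : E ≃ₗ[ℚ] E) (f f' : Fr E) : Prop := Tr (x : E →ₗ[ℚ] E) f f'

lemma T_one (f : Fr E) : T 1 f f := by
  obtain ⟨P, D, hD, hf⟩ := exists_frac f
  have h1 : ∀ P : Gr E, gm ((1 : E ≃ₗ[ℚ] E) : E →ₗ[ℚ] E) P = P := fun P => gm_id P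
  exact ⟨P, D, by rw [h1]; exact hD, hf, by rw [h1, h1]; exact hf⟩

lemma T_mul (hTrComp : StTrComp) (hSubf : StSubf) {x y : E ≃ₗ[ℚ] E} {f f' f'' : Fr E}
    (h : T y f f') : T x f' f'' ↔ T (x * y) f f'' := by
  have h1 := hTrComp E E E (y : E →ₗ[ℚ] E) (x : E →ₗ[ℚ] E) ⊤ (by
    intro v _ hv
    have h2 : y v = 0 := x.map_eq_zero_iff.mp hv
    exact y.map_eq_zero_iff.mp h2) f f' f'' ((hSubf E).2.2.1 f) h
  exact h1

lemma T_inv (hTr : StTr) (hSubf : StSubf) {x : E ≃ₗ[ℚ] E} {f f' : Fr E} (h : T x f f') :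
    T x⁻¹ f' f := by
  refine (hTr E E (x : E →ₗ[ℚ] E)).2.2.2.2.2 ⊤ (fun v _ hv => x.map_eq_zero_iff.mp hv) f f'
    ((hSubf E).2.2.1 f) h ((x⁻¹ : E ≃ₗ[ℚ] E) : E →ₗ[ℚ] E) (fun v _ => ?_)
  exact x.symm_apply_apply v

end

theorem main (hFSL : StFSL) (hTr : StTr) (hTrComp : StTrComp) (hSubf : StSubf) : StGrp := by
  intro E _ _ _ A B d lam p l hC
  have Tmul : ∀ {x y : E ≃ₗ[ℚ] E} {f f' f'' : Fr E}, T y f f' →
      (T x f' f'' ↔ T (x * y) f f'') := fun h => T_mul hTrComp hSubf h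
  have Tinv : ∀ {x : E ≃ₗ[ℚ] E} {f f' : Fr E}, T x f f' → T x⁻¹ f' f := fun h =>
    T_inv hTr hSubf h
  have hA : ∀ i j, T A (lam i j) (lam (i + 1) j) := hC.trA
  have hA' : ∀ i j, T A⁻¹ (lam (i + 1) j) (lam i j) := fun i j => Tinv (hA i j)
  have hν : 1 ≤ Module.finrank ℚ E := by
    haveI : Nontrivial E := ⟨p 0, 0, hC.p_ne⟩
    exact Module.finrank_pos
  have hd := hC.d_pos
  let G : ℕ → Subgroup (E ≃ₗ[ℚ] E) := fun k =>
    { carrier := {x | (∀ i, i + 1 < Module.finrank ℚ E + k → ∀ j, T x (lam i j) (lam i j)) ∧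
        ∀ i, i + 1 < Module.finrank ℚ E + k + d → x (p i) = p i}
      mul_mem' := by
        rintro x y ⟨hx, hx'⟩ ⟨hy, hy'⟩
        refine ⟨fun i hi j => (Tmul (hy i hi j)).mp (hx i hi j), fun i hi => ?_⟩
        rw [LinearEquiv.mul_apply, hy' i hi, hx' i hi]
      one_mem' := ⟨fun i _ j => T_one _, fun i _ => rfl⟩
      inv_mem' := by
        rintro x ⟨hx, hx'⟩
        refine ⟨fun i hi j => Tinv (hx i hi j), fun i hi => ?_⟩
        have h1 : x⁻¹ (x (p i)) = p i := x.symm_apply_apply (p i)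
        rw [hx' i hi] at h1
        exact h1 }
  have memG : ∀ k x, x ∈ G k ↔
      (∀ i, i + 1 < Module.finrank ℚ E + k → ∀ j, T x (lam i j) (lam i j)) ∧
        ∀ i, i + 1 < Module.finrank ℚ E + k + d → x (p i) = p i := fun k x => Iff.rfl
  have conj1 : ∀ x i j, T (A⁻¹ * x * A) (lam i j) (lam i j) ↔
      T x (lam (i + 1) j) (lam (i + 1) j) := by
    intro x i j
    constructor
    · intro h
      have h1 := (Tmul (hA' i j)).mp h
      have h2 := (Tmul h1).mp (hA i j)
      have h3 : A * (A⁻¹ * x * A * A⁻¹) = x := by group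
      rw [h3] at h2
      exact h2
    · intro h
      have h1 := (Tmul (hA i j)).mp h
      have h2 := (Tmul h1).mp (hA' i j)
      rw [← mul_assoc] at h2
      exact h2
  have conj2 : ∀ (x : E ≃ₗ[ℚ] E) i, (A⁻¹ * x * A) (p i) = p i ↔ x (p (i + 1)) = p (i + 1) := by
    intro x i
    rw [hC.p_succ i, LinearEquiv.mul_apply, LinearEquiv.mul_apply]
    constructor
    · intro h
      have h1 := congrArg A h
      have h2 : A (A⁻¹ (x (A (p i)))) = x (A (p i)) := A.apply_symm_apply _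
      rw [h2] at h1
      exact h1
    · intro h
      change A⁻¹ (x (A (p i))) = p i
      have h3 : x (A (p i)) = A (p i) := h
      rw [h3]
      exact A.symm_apply_apply _
  haveI hfin : ∀ n : ℕ, Finite {i : ℕ // i + 1 < n} := fun n =>
    Finite.of_injective (fun i => (⟨i.1, by have := i.2; omega⟩ : Fin n)) (by
      intro a b hab
      apply Subtype.ext
      simpa using congrArg Fin.val hab)
  refine ⟨G, ?_, ?_, ?_, ?_, ?_⟩
  · haveI := hfin (Module.finrank ℚ E)
    haveI := hfin (Module.finrank ℚ E + d)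
    have h1 := hFSL E ({i : ℕ // i + 1 < Module.finrank ℚ E} × Fin d)
      {i : ℕ // i + 1 < Module.finrank ℚ E + d} (fun x => lam x.1.1 x.2) (fun x => p x.1) (by
        intro E' h2 h3
        exact hC.minimal E' (fun i hi j => h2 (⟨i, hi⟩, j)) (fun i hi => h3 ⟨i, hi⟩))
    have h2 : ((G 0 : Subgroup (E ≃ₗ[ℚ] E)) : Set (E ≃ₗ[ℚ] E)).Finite := by
      refine h1.subset ?_
      rintro x ⟨hx, hx'⟩
      exact ⟨fun i => hx i.1.1 i.1.2 i.2, fun k => hx' k.1 k.2⟩
    exact h2.to_subtype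
  · intro k x
    constructor
    · intro hx
      rw [memG] at hx
      refine ⟨⟨fun i hi j => hx.1 i (by omega) j, fun i hi => hx.2 i (by omega)⟩, ?_⟩
      refine ⟨fun i hi j => (conj1 x i j).mpr (hx.1 (i + 1) (by omega) j), fun i hi =>
        (conj2 x i).mpr (hx.2 (i + 1) (by omega))⟩
    · rintro ⟨⟨hx, hx'⟩, ⟨hy, hy'⟩⟩
      refine ⟨fun i hi j => ?_, fun i hi => ?_⟩
      · rcases i with _ | i
        · by_cases h0 : 0 + 1 < Module.finrank ℚ E + k
          · exact hx 0 h0 j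
          · have h1 : Module.finrank ℚ E = 1 := by omega
            have h2 := hx' 0 (by omega)
            have h3 : x = 1 := by
              ext v
              obtain ⟨c, rfl⟩ := exists_smul_eq_of_finrank_eq_one h1 hC.p_ne v
              rw [map_smul, h2]
              rfl
            rw [h3]
            exact T_one _
        · exact (conj1 x i j).mp (hy i (by omega) j)
      · rcases i with _ | i
        · exact hx' 0 (by omega)
        · exact (conj2 x i).mp (hy' i (by omega))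
  · intro g hg
    exact hg.2 0 (by omega)
  · refine ⟨fun i hi j => (Tmul (hC.trB i hi j)).mp (hA' i j), fun i hi => ?_⟩
    rw [LinearEquiv.mul_apply, ← hC.p_succB i hi, hC.p_succ i]
    exact A.symm_apply_apply _
  · intro h i j
    have h1 := (h (i + 2)).1 i (by omega) j
    have h2 := (Tmul h1).mp (hA i j)
    rw [mul_inv_cancel_left] at h2
    exact h2

end Pool.Agent.Helper28.DB.M_Grp
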