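import Pool.Agent.Helper28.DB.St

/-! Intersections (MP_2bc838_lc). -/

set_option autoImplicit false

namespace Pool.Agent.Helper28.DB.M_Inf

open AddMonoidAlgebra Pool.Agent.Helper28.DB

theorem shift_supp {E : Type} [AddCommGroup E] [Module ℚ E] (N N' : Submodule ℚ E) (v : E)
    (hv : v ∈ N) (Q R : Gr E) (hR : Supp N R)
    (hQ : ∀ w ∈ Q.coeff.support, w ∈ R.coeff.support ∧ w - v ∈ N') :
    Supp (N ⊓ N') (single (-v) (1 : ℚ) * Q) := by
  classical
  intro x hx
  obtain ⟨a, ha, b, hb, rfl⟩ := Finset.mem_add.1 (support_coeff_mul_subset _ Q hx)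
  rw [coeff_single] at ha
  have ha' := Finsupp.support_single_subset ha
  rw [Finset.mem_singleton] at ha'
  subst ha'
  obtain ⟨h1, h2⟩ := hQ b hb
  have e : -v + b = b - v := by abel
  rw [e]
  exact Submodule.mem_inf.2 ⟨N.sub_mem (hR b h1) hv, h2⟩

theorem main (hCmp : StCmp) (hFrac : StFrac) : StInf := by
  intro E _ _ N N' f hN hN'
  obtain ⟨P, D, hD, hP, hDs, h⟩ := hN
  have hne : D.coeff.support.Nonempty := by
    rw [Finset.nonempty_iff_ne_empty]
    intro he
    apply hD
    ext v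
    have : D.coeff = 0 := Finsupp.support_eq_empty.1 he
    simp [this]
  obtain ⟨v, hv⟩ := hne
  have hvN : v ∈ N := hDs v hv
  have hc := (hCmp E N'.toAddSubgroup).1
  have key := hFrac E N' f hN' P D h v
  refine ⟨single (-v) (1 : ℚ) * cmp N'.toAddSubgroup v P,
    single (-v) (1 : ℚ) * cmp N'.toAddSubgroup v D, ?_, ?_, ?_, ?_⟩
  · intro h0
    have h1 : cmp N'.toAddSubgroup v D =
        single v (1 : ℚ) * (single (-v) (1 : ℚ) * cmp N'.toAddSubgroup v D) := by
      rw [← mul_assoc, single_mul_single, add_neg_cancel, mul_one, ← one_def, one_mul]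
    rw [h0, mul_zero] at h1
    have h2 : v ∈ (cmp N'.toAddSubgroup v D).coeff.support := by
      rw [hc]
      exact ⟨hv, by simp⟩
    rw [h1] at h2
    simp at h2
  · exact shift_supp N N' v hvN _ P hP fun w hw => (hc P v w).1 hw
  · exact shift_supp N N' v hvN _ D hDs fun w hw => (hc D v w).1 hw
  · rw [map_mul, map_mul, ← key]
    ring

end Pool.Agent.Helper28.DB.M_Inf
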