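import Pool.Agent.Helper28.DB.St

/-! Least good subspaces exist (MP_2bc838_lc). -/

set_option autoImplicit false

namespace Pool.Agent.Helper28.DB.M_Least

open Pool.Agent.Helper28.DB

theorem main (hInf : StInf) (hSubf : StSubf) : StLeast := by
  intro E _ _ _ n u p i
  have hinf : ∀ N N' : Submodule ℚ E, Good u p N i → Good u p N' i → Good u p (N ⊓ N') i := by
    intro N N' h h'
    refine ⟨?_, ?_⟩
    · intro m s hs hli k hk c hc t
      exact hInf E N N' _ (h.1 m s hs hli k hk c hc t) (h'.1 m s hs hli k hk c hc t)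
    · intro k hk
      exact ⟨h.2 k hk, h'.2 k hk⟩
  have htop : Good u p (⊤ : Submodule ℚ E) i := by
    refine ⟨?_, ?_⟩
    · intro m s hs hli k hk c hc t
      exact (hSubf E).2.2.1 _
    · intro k hk
      exact Submodule.mem_top
  classical
  have hex : ∃ r : ℕ, ∃ N : Submodule ℚ E, Good u p N i ∧ Module.finrank ℚ N = r :=
    ⟨_, ⊤, htop, rfl⟩
  obtain ⟨N, hN, hr⟩ := Nat.find_spec hex
  refine ⟨N, hN, ?_⟩
  intro N' hN'
  have h1 := hinf N N' hN hN'
  have h2 : Nat.find hex ≤ Module.finrank ℚ (N ⊓ N' : Submodule ℚ E) :=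
    Nat.find_min' hex ⟨_, h1, rfl⟩
  rw [← hr] at h2
  have h3 : N ⊓ N' = N := Submodule.eq_of_le_of_finrank_le inf_le_left h2
  exact inf_eq_left.1 h3

end Pool.Agent.Helper28.DB.M_Least
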