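import Pool.Agent.Helper28.DB.St

/-! Module Mink (MP_2bc838_lc). -/

set_option autoImplicit false

namespace Pool.Agent.Helper28.DB.M_Mink

theorem main (hMod : StMod) (hOdd : StOdd) (hTwo : StTwo) (hNum : StNum) : StMink := by
  intro m G hG
  have hN : Nat.card G ≠ 0 := Nat.card_pos.ne'
  obtain ⟨p₀, hp₀⟩ := hMod m G hG
  have hprod : ∀ p : ℕ, p.Prime → ∏ i ∈ Finset.range m, (p ^ m - p ^ i) ≠ 0 := by
    intro p hp
    rw [Finset.prod_ne_zero_iff]
    intro i hi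
    have h1 : p ^ i < p ^ m := Nat.pow_lt_pow_right hp.one_lt (Finset.mem_range.1 hi)
    omega
  have hle : ∀ (l p : ℕ), l.Prime → p₀ ≤ p → p.Prime →
      padicValNat l (Nat.card G) ≤ padicValNat l (∏ i ∈ Finset.range m, (p ^ m - p ^ i)) := by
    intro l p hl h1 hp
    have _ : Fact l.Prime := ⟨hl⟩
    have h2 := hp₀ p h1 hp
    rw [← padicValNat_dvd_iff_le (hprod p hp)]
    exact pow_padicValNat_dvd.trans h2
  apply hNum m (Nat.card G) hN
  · obtain ⟨p, h1, hp, h2⟩ := hTwo m p₀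
    exact (hle 2 p Nat.prime_two h1 hp).trans h2
  · intro l hl hl2
    obtain ⟨p, h1, hp, h2, h3⟩ := hOdd l hl hl2 m p₀
    have h4 := hle l p hl h1 hp
    refine ⟨(Nat.mul_le_mul_left _ h4).trans h2, fun h5 => ?_⟩
    have h6 := h3 h5
    omega

end Pool.Agent.Helper28.DB.M_Mink
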