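import Pool.Agent.Helper28.DB.St

/-! Module Mod: reduction modulo a large prime. -/

set_option autoImplicit false

namespace Pool.Agent.Helper28.DB.M_Mod

open Finset Matrix

variable {m : ℕ} {p : ℕ} [hp : Fact p.Prime]

theorem den_ok {q : ℚ} (h : q.den < p) : ‖(q : ℚ_[p])‖ ≤ 1 := by
  apply Padic.norm_rat_le_one
  intro hd
  have := Nat.le_of_dvd q.den_pos hd
  omega

/-- a rational number as a `p`-adic integer -/
noncomputable def zi (q : ℚ) (h : ‖(q : ℚ_[p])‖ ≤ 1) : ℤ_[p] := ⟨(q : ℚ_[p]), h⟩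

theorem zi_coe (q : ℚ) (h : ‖(q : ℚ_[p])‖ ≤ 1) : ((zi q h : ℤ_[p]) : ℚ_[p]) = (q : ℚ_[p]) := rfl

/-- the matrix over the `p`-adic integers -/
noncomputable def zm (M : Matrix (Fin m) (Fin m) ℚ) (h : ∀ i j, (M i j).den < p) :
    Matrix (Fin m) (Fin m) ℤ_[p] := fun i j => zi (M i j) (den_ok (h i j))

theorem zm_mul (M N : Matrix (Fin m) (Fin m) ℚ) (h : ∀ i j, (M i j).den < p)
    (h' : ∀ i j, (N i j).den < p) (h'' : ∀ i j, ((M * N) i j).den < p) :
    zm (M * N) h'' = zm M h * zm N h' := by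
  ext i j
  apply PadicInt.ext
  rw [Matrix.mul_apply, PadicInt.coe_sum]
  simp only [zm, zi_coe, Matrix.mul_apply, PadicInt.coe_mul, Rat.cast_sum, Rat.cast_mul]

theorem zm_one (h : ∀ i j, ((1 : Matrix (Fin m) (Fin m) ℚ) i j).den < p) :
    zm (1 : Matrix (Fin m) (Fin m) ℚ) h = 1 := by
  ext i j
  apply PadicInt.ext
  simp only [zm, zi_coe, Matrix.one_apply]
  split_ifs <;> simp

theorem eq_of_red {q : ℚ} {b : ℤ} (hq : ‖(q : ℚ_[p])‖ ≤ 1) (hn : (q - b).num.natAbs < p)
    (h : PadicInt.toZMod (zi q hq) = (b : ZMod p)) : q = b := by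
  have h1 : PadicInt.toZMod (zi q hq - (b : ℤ_[p])) = 0 := by
    rw [map_sub, h, map_intCast, sub_self]
  have h2 : ‖zi q hq - (b : ℤ_[p])‖ < 1 := by
    have : zi q hq - (b : ℤ_[p]) ∈ RingHom.ker (PadicInt.toZMod (p := p)) := h1
    rw [PadicInt.ker_toZMod] at this
    exact PadicInt.mem_nonunits.mp this
  have h3 : ‖((q - b : ℚ) : ℚ_[p])‖ < 1 := by
    have e : ((zi q hq - (b : ℤ_[p]) : ℤ_[p]) : ℚ_[p]) = ((q - b : ℚ) : ℚ_[p]) := by
      push_cast
      rfl
    rw [← e]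
    exact h2
  set r : ℚ := q - b with hr
  have h4 : ‖((r.num : ℤ) : ℚ_[p])‖ < 1 := by
    have e : ((r.num : ℤ) : ℚ_[p]) = (r : ℚ_[p]) * ((r.den : ℕ) : ℚ_[p]) := by
      have := Rat.mul_den_eq_num r
      have h5 := congrArg (fun x : ℚ => (x : ℚ_[p])) this
      simp only [Rat.cast_mul, Rat.cast_natCast, Rat.cast_intCast] at h5
      exact h5.symm
    rw [e, norm_mul]
    have h6 : ‖((r.den : ℕ) : ℚ_[p])‖ ≤ 1 := by
      have := Padic.norm_int_le_one (p := p) (r.den : ℤ)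
      simpa using this
    calc ‖(r : ℚ_[p])‖ * ‖((r.den : ℕ) : ℚ_[p])‖ ≤ ‖(r : ℚ_[p])‖ * 1 :=
          mul_le_mul_of_nonneg_left h6 (norm_nonneg _)
      _ < 1 := by rw [mul_one]; exact h3
  have h5 : (p : ℤ) ∣ r.num := Padic.norm_intCast_lt_one_iff.mp h4
  have h6 : r.num = 0 := by
    have h7 : p ∣ r.num.natAbs := Int.natCast_dvd.mp h5
    have h8 := Nat.eq_zero_of_dvd_of_lt h7 hn
    omega
  have h7 : r = 0 := Rat.num_eq_zero.mp h6
  rw [hr] at h7
  linarith

theorem main : StMod := by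
  intro m G hG
  classical
  have _ : Fintype G := Fintype.ofFinite G
  let b : G → Fin m → Fin m → ℕ := fun g i j =>
    (((g : GL (Fin m) ℚ) : Matrix (Fin m) (Fin m) ℚ) i j).den +
    ((((g : GL (Fin m) ℚ) : Matrix (Fin m) (Fin m) ℚ) i j) -
      (((1 : Matrix (Fin m) (Fin m) ℤ) i j : ℤ) : ℚ)).num.natAbs
  refine ⟨1 + ∑ g : G, ∑ i, ∑ j, b g i j, fun p hp0 hp => ?_⟩
  have hb : ∀ g i j, b g i j < p := by
    intro g i j
    have h1 : b g i j ≤ ∑ j, b g i j := single_le_sum (f := fun j => b g i j)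
      (fun _ _ => Nat.zero_le _) (mem_univ j)
    have h2 : ∑ j, b g i j ≤ ∑ i, ∑ j, b g i j := single_le_sum (f := fun i => ∑ j, b g i j)
      (fun _ _ => Nat.zero_le _) (mem_univ i)
    have h3 : ∑ i, ∑ j, b g i j ≤ ∑ g : G, ∑ i, ∑ j, b g i j :=
      single_le_sum (f := fun g => ∑ i, ∑ j, b g i j) (fun _ _ => Nat.zero_le _) (mem_univ g)
    omega
  have : Fact p.Prime := ⟨hp⟩
  have hden : ∀ (g : G) i j, (((g : GL (Fin m) ℚ) : Matrix (Fin m) (Fin m) ℚ) i j).den < p :=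
    fun g i j => lt_of_le_of_lt (Nat.le_add_right _ _) (hb g i j)
  let f : G →* Matrix (Fin m) (Fin m) (ZMod p) :=
    { toFun := fun g => (PadicInt.toZMod (p := p)).mapMatrix
        (zm ((g : GL (Fin m) ℚ) : Matrix (Fin m) (Fin m) ℚ) (hden g))
      map_one' := by
        rw [← map_one (PadicInt.toZMod (p := p)).mapMatrix]
        congr 1
        exact zm_one _
      map_mul' := fun g g' => by
        rw [← map_mul]
        congr 1
        exact zm_mul _ _ _ _ _ }
  have hinj : Function.Injective f.toHomUnits := by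
    rw [injective_iff_map_eq_one]
    intro g hg
    have h1 : f g = 1 := by
      have := congrArg (fun u : (Matrix (Fin m) (Fin m) (ZMod p))ˣ =>
        (u : Matrix (Fin m) (Fin m) (ZMod p))) hg
      exact this
    apply Subtype.ext
    apply Units.ext
    ext i j
    have h2 := congrFun (congrFun h1 i) j
    have h3 : PadicInt.toZMod (zm ((g : GL (Fin m) ℚ) : Matrix (Fin m) (Fin m) ℚ) (hden g) i j) =
        (((1 : Matrix (Fin m) (Fin m) ℤ) i j : ℤ) : ZMod p) := by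
      have e : (((1 : Matrix (Fin m) (Fin m) ℤ) i j : ℤ) : ZMod p) =
          (1 : Matrix (Fin m) (Fin m) (ZMod p)) i j := by
        simp only [Matrix.one_apply]
        split_ifs <;> simp
      rw [e]
      exact h2
    have h4 := eq_of_red (p := p) (den_ok (hden g i j))
      (lt_of_le_of_lt (Nat.le_add_left _ _) (hb g i j)) h3
    rw [h4]
    have e : (((1 : Matrix (Fin m) (Fin m) ℤ) i j : ℤ) : ℚ) =
          (1 : Matrix (Fin m) (Fin m) ℚ) i j := by
      simp only [Matrix.one_apply]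
      split_ifs <;> simp
    exact e
  have hc := Subgroup.card_dvd_of_injective f.toHomUnits hinj
  have hGL : Nat.card (GL (Fin m) (ZMod p)) = ∏ i ∈ range m, (p ^ m - p ^ i) := by
    rw [Matrix.card_GL_field, ZMod.card, Finset.prod_range]
  rw [← hGL]
  exact hc

end Pool.Agent.Helper28.DB.M_Mod
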