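import Pool.Agent.Helper28.DB.St

/-! # DB module Num: a numerical estimate -/

set_option autoImplicit false

namespace Pool.Agent.Helper28.DB.M_Num

open Finset

theorem gsum (k : ℕ) : (∑ j ∈ Ico 1 (2 ^ k), ((2 * j + 1 : ℕ) : ℚ) / ((2 * j : ℕ) : ℚ) ^ 2) ≤
    (k : ℚ) / 2 + 1 / 2 - 1 / 2 ^ (k + 1) := by
  induction k with
  | zero => simp
  | succ k ih =>
    have h1 : (1 : ℕ) ≤ 2 ^ k := Nat.one_le_two_pow
    have h2 : (2 : ℕ) ^ k ≤ 2 ^ (k + 1) := Nat.pow_le_pow_right (by norm_num) (Nat.le_succ k)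
    rw [← Finset.sum_Ico_consecutive _ h1 h2]
    have h3 : (∑ j ∈ Ico (2 ^ k) (2 ^ (k + 1)), ((2 * j + 1 : ℕ) : ℚ) / ((2 * j : ℕ) : ℚ) ^ 2) ≤
        ∑ j ∈ Ico (2 ^ k) (2 ^ (k + 1)), (2 * 2 ^ k + 1 : ℚ) / (2 * 2 ^ k : ℚ) ^ 2 := by
      refine Finset.sum_le_sum fun j hj => ?_
      obtain ⟨hj1, -⟩ := Finset.mem_Ico.1 hj
      have hj1' : (2 : ℚ) ^ k ≤ j := by exact_mod_cast hj1
      have hk : (0 : ℚ) < 2 ^ k := by positivity
      have hj0 : (0 : ℚ) < j := lt_of_lt_of_le hk hj1'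
      have e1 : ((2 * j + 1 : ℕ) : ℚ) / ((2 * j : ℕ) : ℚ) ^ 2 =
          1 / (2 * (j : ℚ)) + 1 / (2 * (j : ℚ)) ^ 2 := by
        push_cast
        field_simp
      have e2 : (2 * 2 ^ k + 1 : ℚ) / (2 * 2 ^ k : ℚ) ^ 2 =
          1 / (2 * (2 : ℚ) ^ k) + 1 / (2 * (2 : ℚ) ^ k) ^ 2 := by
        field_simp
      rw [e1, e2]
      gcongr
    rw [Finset.sum_const, Nat.card_Ico] at h3
    have h4 : 2 ^ (k + 1) - 2 ^ k = 2 ^ k := by
      rw [pow_succ]; omega
    rw [h4, nsmul_eq_mul] at h3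
    have hk : (0 : ℚ) < 2 ^ k := by positivity
    have h5 : (((2 ^ k : ℕ) : ℚ)) * ((2 * 2 ^ k + 1 : ℚ) / (2 * 2 ^ k : ℚ) ^ 2) =
        1 / 2 + 1 / 2 ^ (k + 2) := by
      push_cast
      rw [pow_add (2 : ℚ) k 2]
      field_simp
    rw [h5] at h3
    have h6 : (1 : ℚ) / 2 ^ (k + 1) = 2 * (1 / 2 ^ (k + 2)) := by
      rw [pow_succ (2 : ℚ) (k + 1)]
      field_simp
    rw [h6] at ih
    rw [Nat.cast_succ]
    have h7 : (1 : ℚ) / 2 ^ (k + 1 + 1) = 1 / 2 ^ (k + 2) := rfl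
    rw [h7]
    linarith

/-- the number of prime factors is bounded by the valuations at `2` and at the odd numbers up to
`m + 1` -/
theorem omega_le (m N : ℕ)
    (h : ∀ l : ℕ, l.Prime → l ≠ 2 → m < l - 1 → padicValNat l N = 0) :
    ArithmeticFunction.cardFactors N ≤ padicValNat 2 N +
      ∑ j ∈ Icc 1 (m / 2), if (2 * j + 1).Prime then padicValNat (2 * j + 1) N else 0 := by
  classical
  rw [ArithmeticFunction.cardFactors_eq_sum_factorization, Finsupp.sum]
  have h1 : ∀ l ∈ N.factorization.support, l = 2 ∨ ∃ j ∈ Icc 1 (m / 2), l = 2 * j + 1 := by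
    intro l hl
    have hl0 := Finsupp.mem_support_iff.1 hl
    have hlp : l.Prime := Nat.prime_of_mem_primeFactors (by rwa [Nat.support_factorization] at hl)
    by_cases h2 : l = 2
    · exact Or.inl h2
    · right
      have hodd := hlp.odd_of_ne_two h2
      obtain ⟨j, hj⟩ := hodd
      refine ⟨j, ?_, hj⟩
      have h3 : ¬ m < l - 1 := fun h4 => hl0 (by
        rw [Nat.factorization_def _ hlp]
        exact h l hlp h2 h4)
      have h5 := hlp.two_le
      rw [Finset.mem_Icc]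
      omega
  have h2 : N.factorization.support ⊆ {2} ∪ ((Icc 1 (m / 2)).filter
      (fun j => (2 * j + 1).Prime)).image (fun j => 2 * j + 1) := by
    intro l hl
    have hlp : l.Prime := Nat.prime_of_mem_primeFactors (by rwa [Nat.support_factorization] at hl)
    rcases h1 l hl with h3 | ⟨j, hj, rfl⟩
    · exact Finset.mem_union_left _ (Finset.mem_singleton.2 h3)
    · exact Finset.mem_union_right _ (Finset.mem_image.2 ⟨j, Finset.mem_filter.2 ⟨hj, hlp⟩, rfl⟩)
  refine (Finset.sum_le_sum_of_subset h2).trans ?_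
  refine (Nat.le_of_add_right_le (Finset.sum_union_inter ..).le).trans ?_
  rw [Finset.sum_singleton, Finset.sum_image (fun a _ b _ hab => by
    have : 2 * a + 1 = 2 * b + 1 := hab
    omega), Finset.sum_filter, Nat.factorization_def _ Nat.prime_two]
  refine Nat.add_le_add_left (Finset.sum_le_sum fun j _ => ?_) _
  split_ifs with hp
  · rw [Nat.factorization_def _ hp]
  · exact le_rfl

theorem main : StNum := by
  intro m N _ h2 h
  have h0 := omega_le m N (fun l hl hl2 => (h l hl hl2).2)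
  have hv : ∀ j ∈ Icc 1 (m / 2), (((if (2 * j + 1).Prime then padicValNat (2 * j + 1) N else 0 : ℕ)
      : ℚ)) ≤ m * (((2 * j + 1 : ℕ) : ℚ) / ((2 * j : ℕ) : ℚ) ^ 2) := by
    intro j hj
    obtain ⟨hj1, -⟩ := Finset.mem_Icc.1 hj
    have hj0 : (0 : ℚ) < ((2 * j : ℕ) : ℚ) := by
      have : 0 < 2 * j := by omega
      exact_mod_cast this
    split_ifs with hp
    · have h3 := (h _ hp (by omega)).1
      rw [Nat.add_sub_cancel] at h3
      rw [mul_div_assoc', le_div_iff₀ (by positivity)]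
      have h4 : (((2 * j) ^ 2 * padicValNat (2 * j + 1) N : ℕ) : ℚ) ≤ ((m * (2 * j + 1) : ℕ) : ℚ) := by
        exact_mod_cast h3
      rw [Nat.cast_mul, Nat.cast_pow, Nat.cast_mul m] at h4
      linarith
    · rw [Nat.cast_zero]
      positivity
  rcases Nat.lt_or_ge m 3 with hm | hm
  · interval_cases m
    · rw [show (0 : ℕ) / 2 = 0 from rfl, Finset.Icc_eq_empty (by norm_num), Finset.sum_empty] at h0
      omega
    · rw [show (1 : ℕ) / 2 = 0 from rfl, Finset.Icc_eq_empty (by norm_num), Finset.sum_empty] at h0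
      omega
    · have h3 := (h 3 Nat.prime_three (by norm_num)).1
      norm_num at h3
      have h5 : (2 : ℕ) / 2 = 1 := rfl
      rw [h5] at h0 h2
      rw [Finset.Icc_self, Finset.sum_singleton, if_pos (by norm_num)] at h0
      norm_num at h0
      have h6 : Nat.log 2 (2 + 1) = 1 := by
        rw [Nat.log_eq_iff] <;> norm_num
      rw [h6]
      omega
  · set L := Nat.log 2 (m + 1) with hL
    have hL2 : 2 ≤ L := by
      rw [hL]
      exact Nat.le_log_of_pow_le (by norm_num) (by omega)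
    have hlt : m + 1 < 2 ^ (L + 1) := Nat.lt_pow_succ_log_self (by norm_num) _
    have hsub : Icc 1 (m / 2) ⊆ Ico 1 (2 ^ L) := by
      intro j hj
      obtain ⟨h3, h4⟩ := Finset.mem_Icc.1 hj
      rw [Finset.mem_Ico]
      refine ⟨h3, ?_⟩
      rw [pow_succ] at hlt
      omega
    have h3 : ((∑ j ∈ Icc 1 (m / 2), if (2 * j + 1).Prime then padicValNat (2 * j + 1) N else 0 : ℕ)
        : ℚ) ≤ m * ((L : ℚ) / 2 + 1 / 2) := by
      rw [Nat.cast_sum]
      refine (Finset.sum_le_sum hv).trans ?_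
      rw [← Finset.mul_sum]
      refine mul_le_mul_of_nonneg_left ?_ (Nat.cast_nonneg m)
      refine (Finset.sum_le_sum_of_subset_of_nonneg hsub fun j _ _ => by positivity).trans ?_
      refine (gsum L).trans ?_
      have : (0 : ℚ) ≤ 1 / 2 ^ (L + 1) := by positivity
      linarith
    have h4 : ((padicValNat 2 N : ℕ) : ℚ) ≤ m + 3 * ((m : ℚ) / 2) := by
      have h5 : ((padicValNat 2 N : ℕ) : ℚ) ≤ ((m + 3 * (m / 2) : ℕ) : ℚ) := by exact_mod_cast h2
      have h6 : ((m / 2 : ℕ) : ℚ) ≤ (m : ℚ) / 2 := Nat.cast_div_le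
      push_cast at h5
      linarith
    have h5 : ((ArithmeticFunction.cardFactors N : ℕ) : ℚ) ≤ ((m * (2 + L) : ℕ) : ℚ) := by
      have h6 : ((ArithmeticFunction.cardFactors N : ℕ) : ℚ) ≤ ((padicValNat 2 N +
        ∑ j ∈ Icc 1 (m / 2), if (2 * j + 1).Prime then padicValNat (2 * j + 1) N else 0 : ℕ) : ℚ) := by
        exact_mod_cast h0
      rw [Nat.cast_add] at h6
      push_cast at h3 h6 ⊢
      have hLq : (2 : ℚ) ≤ L := by exact_mod_cast hL2
      have hmq : (0 : ℚ) ≤ m := Nat.cast_nonneg m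
      nlinarith
    exact_mod_cast h5

end Pool.Agent.Helper28.DB.M_Num
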