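import Pool.Agent.Helper28.DB.St

/-! Module Odd: the odd part. -/

set_option autoImplicit false

namespace Pool.Agent.Helper28.DB.M_Odd

open Finset

theorem val_prod (l : ℕ) [hl : Fact l.Prime] {ι : Type} (s : Finset ι) (f : ι → ℕ)
    (hf : ∀ i ∈ s, f i ≠ 0) :
    padicValNat l (∏ i ∈ s, f i) = ∑ i ∈ s, padicValNat l (f i) := by
  classical
  induction s using Finset.induction_on with
  | empty => simp
  | insert a s ha ih =>
    rw [prod_insert ha, sum_insert ha, padicValNat.mul (hf a (mem_insert_self a s))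
      (prod_ne_zero_iff.mpr fun i hi => hf i (mem_insert_of_mem hi)),
      ih fun i hi => hf i (mem_insert_of_mem hi)]

theorem pow_sub_ne {p : ℕ} (hp : 1 < p) {k : ℕ} (hk : k ≠ 0) : p ^ k - 1 ≠ 0 := by
  have : 1 < p ^ k := Nat.one_lt_pow hk hp
  omega

theorem val_GL (l p : ℕ) (hl : l.Prime) (hp : p.Prime) (hlp : l ≠ p) (m : ℕ) :
    padicValNat l (∏ i ∈ range m, (p ^ m - p ^ i)) =
      ∑ j ∈ range m, padicValNat l (p ^ (j + 1) - 1) := by
  have : Fact l.Prime := ⟨hl⟩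
  have hne : ∀ k : ℕ, p ^ (k + 1) - 1 ≠ 0 := fun k => pow_sub_ne hp.one_lt (Nat.succ_ne_zero k)
  have h1 : ∀ i ∈ range m, p ^ m - p ^ i = p ^ i * (p ^ ((m - 1 - i) + 1) - 1) := by
    intro i hi
    have hi' := mem_range.mp hi
    rw [Nat.mul_sub, mul_one, ← pow_add]
    congr 2
    omega
  rw [prod_congr rfl h1, val_prod l _ _ (fun i _ => mul_ne_zero (pow_ne_zero _ hp.ne_zero) (hne _))]
  have h2 : ∀ i ∈ range m, padicValNat l (p ^ i * (p ^ ((m - 1 - i) + 1) - 1)) =
      padicValNat l (p ^ ((m - 1 - i) + 1) - 1) := by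
    intro i _
    rw [padicValNat.mul (pow_ne_zero _ hp.ne_zero) (hne _), padicValNat.pow]
    have : padicValNat l p = 0 := by
      apply padicValNat.eq_zero_of_not_dvd
      intro h
      exact hlp ((Nat.prime_dvd_prime_iff_eq hl hp).mp h)
    rw [this, mul_zero, zero_add]
  rw [sum_congr rfl h2]
  exact sum_range_reflect (fun j => padicValNat l (p ^ (j + 1) - 1)) m

theorem cast_pow_sub {p n k : ℕ} (hp : 0 < p) : n ∣ p ^ k - 1 ↔ ((p : ZMod n)) ^ k = 1 := by
  have h1 : 1 ≤ p ^ k := Nat.one_le_pow _ _ hp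
  rw [← ZMod.natCast_eq_zero_iff, Nat.cast_sub h1]
  push_cast
  exact sub_eq_zero

/-- a prime which is a primitive root modulo `l ^ 2` -/
theorem exists_root {l : ℕ} (hl : l.Prime) (hl2 : l ≠ 2) (p₀ : ℕ) : ∃ p : ℕ, p₀ ≤ p ∧ p.Prime ∧
    l < p ∧ orderOf (p : ZMod (l ^ 2)) = l * (l - 1) := by
  have : NeZero (l ^ 2) := ⟨pow_ne_zero _ hl.ne_zero⟩
  obtain ⟨g, hg⟩ := (ZMod.isCyclic_units_of_prime_pow l hl hl2 2).exists_generator
  obtain ⟨p, hp0, hp, hpe⟩ := Nat.forall_exists_prime_gt_and_eq_mod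
    (a := (g : ZMod (l ^ 2))) g.isUnit (p₀ + l)
  refine ⟨p, by omega, hp, by omega, ?_⟩
  rw [hpe, orderOf_units, orderOf_eq_card_of_forall_mem_zpowers hg, Nat.card_eq_fintype_card,
    ZMod.card_units_eq_totient, Nat.totient_prime_pow hl (by norm_num)]
  simp

section
variable {l p : ℕ} (hl : l.Prime) (hl2 : l ≠ 2) (hp : p.Prime) (hlp : l < p)
  (ho : orderOf (p : ZMod (l ^ 2)) = l * (l - 1))

include hl hp ho in
theorem dvd_of {j : ℕ} (h : l ∣ p ^ j - 1) : l - 1 ∣ j := by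
  have h0 : 0 < p := hp.pos
  have h1 : l ^ 2 ∣ p ^ (j * l) - 1 := by
    have h2 : (p ^ j) ≡ 1 [MOD l] := by
      have : 1 ≤ p ^ j := Nat.one_le_pow _ _ h0
      exact ((Nat.modEq_iff_dvd' this).mpr h).symm
    have h3 : ((l : ℤ)) ∣ ((p : ℤ) ^ j - 1) := by
      have : 1 ≤ p ^ j := Nat.one_le_pow _ _ h0
      have h4 : ((p ^ j - 1 : ℕ) : ℤ) = (p : ℤ) ^ j - 1 := by
        rw [Nat.cast_sub this]
        push_cast
        rfl
      rw [← h4]
      exact_mod_cast h
    have h5 := dvd_sub_pow_of_dvd_sub (R := ℤ) (p := l) (a := (p : ℤ) ^ j) (b := 1) h3 1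
    rw [one_pow, pow_one, ← pow_mul] at h5
    have h6 : ((p ^ (j * l) - 1 : ℕ) : ℤ) = (p : ℤ) ^ (j * l) - 1 := by
      rw [Nat.cast_sub (Nat.one_le_pow _ _ h0)]
      push_cast
      rfl
    have h7 : ((l ^ 2 : ℕ) : ℤ) ∣ ((p ^ (j * l) - 1 : ℕ) : ℤ) := by
      rw [h6]
      exact_mod_cast h5
    exact_mod_cast h7
  have h2 := (cast_pow_sub h0).mp h1
  have h3 := orderOf_dvd_of_pow_eq_one h2
  rw [ho, mul_comm j l] at h3
  exact Nat.dvd_of_mul_dvd_mul_left hl.pos h3

include hl hp hlp ho in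
theorem val_base : padicValNat l (p ^ (l - 1) - 1) = 1 := by
  have : Fact l.Prime := ⟨hl⟩
  have hl1 : l - 1 ≠ 0 := by
    have := hl.two_le
    omega
  have hne := pow_sub_ne hp.one_lt hl1
  have h1 : l ∣ p ^ (l - 1) - 1 := by
    rw [cast_pow_sub hp.pos]
    apply ZMod.pow_card_sub_one_eq_one
    intro h
    rw [ZMod.natCast_eq_zero_iff] at h
    have := (Nat.prime_dvd_prime_iff_eq hl hp).mp h
    omega
  have h2 : ¬ l ^ 2 ∣ p ^ (l - 1) - 1 := by
    intro h
    rw [cast_pow_sub hp.pos] at h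
    have h3 := orderOf_dvd_of_pow_eq_one h
    rw [ho] at h3
    have h4 := Nat.le_of_dvd (Nat.pos_of_ne_zero hl1) h3
    have h5 := hl.two_le
    have h6 : 2 * (l - 1) ≤ l * (l - 1) := Nat.mul_le_mul_right _ h5
    omega
  have h3 : 1 ≤ padicValNat l (p ^ (l - 1) - 1) :=
    (padicValNat_dvd_iff_le hne).mp (by simpa using h1)
  have h4 : ¬ 2 ≤ padicValNat l (p ^ (l - 1) - 1) := fun h =>
    h2 ((padicValNat_dvd_iff_le hne).mpr h)
  omega

include hl hl2 hp hlp ho in
theorem val_mul {k : ℕ} (hk : k ≠ 0) :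
    padicValNat l (p ^ ((l - 1) * k) - 1) = 1 + padicValNat l k := by
  have : Fact l.Prime := ⟨hl⟩
  have hb := val_base hl hp hlp ho
  have hl1 : l - 1 ≠ 0 := by
    have := hl.two_le
    omega
  have h1 : 1 < p ^ (l - 1) := Nat.one_lt_pow hl1 hp.one_lt
  have hd : l ∣ p ^ (l - 1) - 1 := by
    by_contra hc
    rw [padicValNat.eq_zero_of_not_dvd hc] at hb
    omega
  have hn : ¬ l ∣ p ^ (l - 1) := by
    intro h
    have := (Nat.prime_dvd_prime_iff_eq hl hp).mp (hl.dvd_of_dvd_pow h)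
    omega
  have h2 := padicValNat.pow_sub_pow (p := l) (hl.odd_of_ne_two hl2) (x := p ^ (l - 1)) (y := 1)
    h1 hd hn hk
  rw [one_pow, ← pow_mul, hb] at h2
  exact h2

include hl hl2 hp hlp ho in
theorem val_sum (m : ℕ) : ∑ j ∈ range m, padicValNat l (p ^ (j + 1) - 1) =
    m / (l - 1) + padicValNat l (m / (l - 1)).factorial := by
  have : Fact l.Prime := ⟨hl⟩
  have hl1 : 0 < l - 1 := by
    have := hl.two_le
    omega
  induction m with
  | zero => simp
  | succ m ih =>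
    rw [sum_range_succ, ih, Nat.succ_div]
    by_cases hd : l - 1 ∣ m + 1
    · rw [if_pos hd]
      obtain ⟨k, hk⟩ := hd
      have hk0 : k ≠ 0 := by
        rintro rfl
        omega
      have hq : m / (l - 1) + 1 = k := by
        have h1 : (m + 1) / (l - 1) = m / (l - 1) + if l - 1 ∣ m + 1 then 1 else 0 :=
          Nat.succ_div
        rw [if_pos (Dvd.intro k hk.symm)] at h1
        rw [← h1, hk, Nat.mul_div_cancel_left _ hl1]
      rw [hk, val_mul hl hl2 hp hlp ho hk0, Nat.factorial_succ,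
        padicValNat.mul (Nat.succ_ne_zero _) (Nat.factorial_ne_zero _), Nat.succ_eq_add_one, hq]
      omega
    · rw [if_neg hd]
      have : padicValNat l (p ^ (m + 1) - 1) = 0 :=
        padicValNat.eq_zero_of_not_dvd fun h => hd (dvd_of hl hp ho h)
      rw [this]
      simp

end

theorem main : StOdd := by
  intro l hl hl2 m p₀
  obtain ⟨p, hp0, hp, hlp, ho⟩ := exists_root hl hl2 p₀
  have : Fact l.Prime := ⟨hl⟩
  have h1 := val_sum hl hl2 hp hlp ho m
  have h2 := val_GL l p hl hp hlp.ne m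
  refine ⟨p, hp0, hp, ?_, fun hm => ?_⟩
  · rw [h2, h1]
    have h3 : (l - 1) * padicValNat l (m / (l - 1)).factorial ≤ m / (l - 1) := by
      rw [sub_one_mul_padicValNat_factorial]
      exact Nat.sub_le _ _
    have h4 : m / (l - 1) * (l - 1) ≤ m := Nat.div_mul_le_self m (l - 1)
    set M := m / (l - 1)
    set v := padicValNat l M.factorial
    have h5 : (l - 1) ^ 2 * (M + v) = (l - 1) * ((l - 1) * M + (l - 1) * v) := by ring
    rw [h5]
    have h6 : (l - 1) * M + (l - 1) * v ≤ l * M := by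
      have h7 : l * M = (l - 1) * M + M := by
        have : l = (l - 1) + 1 := by
          have := hl.two_le
          omega
        nth_rewrite 1 [this]
        ring
      omega
    calc (l - 1) * ((l - 1) * M + (l - 1) * v) ≤ (l - 1) * (l * M) := Nat.mul_le_mul_left _ h6
      _ = (M * (l - 1)) * l := by ring
      _ ≤ m * l := Nat.mul_le_mul_right _ h4
  · rw [h2, h1, Nat.div_eq_of_lt hm]
    simp

end Pool.Agent.Helper28.DB.M_Odd
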