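import Pool.Agent.Helper28.DB.St

/-! Module PL (MP_2bc838_lc): propagation of the agreement. -/

set_option autoImplicit false

namespace Pool.Agent.Helper28.DB.M_PL

theorem main (hTrLin : StTrLin) : StPL := by
  intro E _ _ _ n A B J' u p i₀ d N lam hS hB h0
  intro i
  induction i using Nat.strong_induction_on with
  | _ i ih =>
    intro hi
    rcases Nat.lt_or_ge i (i₀ + d) with hlt | hge
    · exact h0 i hi hlt
    · obtain ⟨k, rfl⟩ : ∃ k, i = k + d := ⟨i - d, by omega⟩
      have hk : i₀ ≤ k := by omega
      have hd := hS.d_pos
      have h1 := hTrLin E E n d B J' (fun j : Fin d => u (k + j)) (u (k + d)) (lam k) (lam (k + 1))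
        (hS.rel k hk) (hB k hk)
      have h2 := hS.rel (k + 1) (by omega)
      have h3 : iv (u (k + 1 + d)) = iv (sh B J' (u (k + d))) := by
        rw [h1, h2]
        refine Finset.sum_congr rfl fun j _ => ?_
        have hj := j.2
        have h4 := ih (k + j) (by omega) (by omega)
        have h5 : k + 1 + (j : ℕ) = k + j + 1 := by omega
        rw [h5, h4]
      have h6 : k + d + 1 = k + 1 + d := by omega
      rw [h6]
      funext c
      exact io_injective (congrFun h3 c)

end Pool.Agent.Helper28.DB.M_PL
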