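import Pool.Agent.Helper28.DB.St

/-! # DB module Red: reduced fractions exist -/

set_option autoImplicit false
set_option linter.unusedSectionVars false

namespace Pool.Agent.Helper28.DB.M_Red

open AddMonoidAlgebra

section

variable {E : Type} [AddCommGroup E] [Module ℚ E] {r : ℕ}

/-- `e` embeds `ℕ^r` in `E`, the group of differences is `L` -/
structure Emb (L : AddSubgroup E) (e : (Fin r →₀ ℕ) →+ E) : Prop where
  inj : Function.Injective e
  mem : ∀ z, e z ∈ L
  diff : ∀ w ∈ L, ∃ z₁ z₂, w = e z₁ - e z₂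

theorem exists_emb (s : Finset E) : ∃ (L : AddSubgroup E) (r : ℕ) (e : (Fin r →₀ ℕ) →+ E),
    Emb L e ∧ ∀ v ∈ s, v ∈ L := by
  classical
  let L : AddSubgroup E := AddSubgroup.closure (s : Set E)
  have hfg : AddGroup.FG L := by
    rw [AddGroup.fg_iff_addSubgroup_fg]
    exact ⟨s, rfl⟩
  have : Module.Finite ℤ L := Module.Finite.iff_addGroup_fg.2 hfg
  have hE : Module.IsTorsionFree ℤ E := by
    constructor
    intro n hn x y hxy
    have hn0 : (n : ℚ) ≠ 0 := by exact_mod_cast hn.ne_zero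
    have h1 : (n : ℚ) • x = (n : ℚ) • y := by
      rw [Int.cast_smul_eq_zsmul, Int.cast_smul_eq_zsmul]
      exact hxy
    exact smul_right_injective E hn0 h1
  have hL' : Module.IsTorsionFree ℤ L :=
    Subtype.val_injective.moduleIsTorsionFree (fun x : L => (x : E)) (fun _ _ => rfl)
  let bL := Module.finBasis ℤ L
  let e1 : (Fin (Module.finrank ℤ L) →₀ ℕ) →+ (Fin (Module.finrank ℤ L) →₀ ℤ) :=
    Finsupp.mapRange.addMonoidHom (Nat.castAddMonoidHom ℤ)
  let e2 : (Fin (Module.finrank ℤ L) →₀ ℤ) →+ L := bL.repr.symm.toLinearMap.toAddMonoidHom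
  have h1 : Function.Injective e1 :=
    Finsupp.mapRange_injective _ (map_zero _) Nat.cast_injective
  refine ⟨L, Module.finrank ℤ L, L.subtype.comp (e2.comp e1), ⟨?_, ?_, ?_⟩, fun v hv =>
    AddSubgroup.subset_closure hv⟩
  · exact (Subtype.val_injective.comp bL.repr.symm.injective).comp h1
  · intro z
    exact (e2 (e1 z)).2
  · intro w hw
    let x := bL.repr ⟨w, hw⟩
    refine ⟨x.mapRange Int.toNat rfl, (-x).mapRange Int.toNat rfl, ?_⟩
    have h2 : e1 (x.mapRange Int.toNat rfl) - e1 ((-x).mapRange Int.toNat rfl) = x := by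
      ext k
      rw [Finsupp.sub_apply]
      simp only [e1, Finsupp.mapRange.addMonoidHom_apply, Finsupp.mapRange_apply,
        Finsupp.neg_apply, Nat.coe_castAddMonoidHom]
      omega
    have h3 : e2 (e1 (x.mapRange Int.toNat rfl)) - e2 (e1 ((-x).mapRange Int.toNat rfl)) =
        ⟨w, hw⟩ := by
      rw [← map_sub, h2]
      exact bL.repr.symm_apply_apply _
    have h4 := congrArg (fun y : L => (y : E)) h3
    exact h4.symm

/-- the ring homomorphism from polynomials -/
noncomputable def phi (e : (Fin r →₀ ℕ) →+ E) : MvPolynomial (Fin r) ℚ →+* Gr E :=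
  AddMonoidAlgebra.mapDomainRingHom ℚ e

theorem phi_injective {e : (Fin r →₀ ℕ) →+ E} (h : Function.Injective e) :
    Function.Injective (phi e) :=
  AddMonoidAlgebra.mapDomain_injective h

theorem phi_single (e : (Fin r →₀ ℕ) →+ E) (z : Fin r →₀ ℕ) (c : ℚ) :
    phi e (MvPolynomial.monomial z c) = single (e z) c := by
  change AddMonoidAlgebra.mapDomainRingHom ℚ e (single z c) = _
  simp

theorem phi_supp {L : AddSubgroup E} {e : (Fin r →₀ ℕ) →+ E} (h : Emb L e)
    (p : MvPolynomial (Fin r) ℚ) : ∀ w ∈ (phi e p).coeff.support, w ∈ L := by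
  classical
  intro w hw
  have h1 : (phi e p).coeff = Finsupp.mapDomain e (AddMonoidAlgebra.coeff p) := rfl
  rw [h1] at hw
  obtain ⟨z, -, rfl⟩ := Finset.mem_image.1 (Finsupp.mapDomain_support hw)
  exact h.mem z

/-- after a shift every element with exponents in a coset is the image of a polynomial -/
theorem shift {L : AddSubgroup E} {e : (Fin r →₀ ℕ) →+ E} (h : Emb L e) (v : E) (Q : Gr E)
    (hQ : ∀ w ∈ Q.coeff.support, w - v ∈ L) : ∃ z₀, ∀ z, z₀ ≤ z →
      ∃ q, Q * single (e z - v) 1 = phi e q := by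
  classical
  have key : ∀ s : Finset E, (∀ w ∈ s, w - v ∈ L) → ∃ z₀, ∀ z, z₀ ≤ z → ∃ q,
      (∑ w ∈ s, single w (Q.coeff w)) * single (e z - v) 1 = phi e q := by
    intro s
    induction s using Finset.induction_on with
    | empty => exact fun _ => ⟨0, fun z _ => ⟨0, by simp⟩⟩
    | insert a s ha ih =>
      intro hs
      obtain ⟨z₀, hz₀⟩ := ih fun w hw => hs w (Finset.mem_insert_of_mem hw)
      obtain ⟨z₁, z₂, h12⟩ := h.diff _ (hs a (Finset.mem_insert_self a s))
      refine ⟨z₀ ⊔ z₂, fun z hz => ?_⟩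
      obtain ⟨q, hq⟩ := hz₀ z (le_sup_left.trans hz)
      obtain ⟨y, hy⟩ := exists_add_of_le (le_sup_right.trans hz)
      refine ⟨MvPolynomial.monomial (z₁ + y) (Q.coeff a) + q, ?_⟩
      rw [Finset.sum_insert ha, add_mul, hq, map_add, phi_single, single_mul_single, mul_one]
      congr 2
      rw [hy, map_add, map_add]
      have : a = e z₁ - e z₂ + v := by rw [← h12]; abel
      rw [this]
      abel
  obtain ⟨z₀, hz₀⟩ := key Q.coeff.support hQ
  refine ⟨z₀, fun z hz => ?_⟩
  obtain ⟨q, hq⟩ := hz₀ z hz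
  exact ⟨q, by rw [← hq, ← sum_single Q]⟩

theorem single_ne (v : E) : (single v 1 : Gr E) ≠ 0 := by
  intro h
  have := congrArg (fun x : Gr E => x.coeff v) h
  simp at this

theorem single_cancel (v : E) : (single v 1 : Gr E) * single (-v) 1 = 1 := by
  rw [single_mul_single, add_neg_cancel, mul_one]
  rfl

end

theorem main (hCmp : StCmp) : StRed := by
  classical
  intro E _ _ _ f
  obtain ⟨P₀, D₀, hD₀, hf⟩ := exists_frac f
  obtain ⟨L, r, e, he, hL⟩ := exists_emb (P₀.coeff.support ∪ D₀.coeff.support)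
  obtain ⟨z₁, hz₁⟩ := shift he 0 P₀ (fun w hw => by
    rw [sub_zero]; exact hL w (Finset.mem_union_left _ hw))
  obtain ⟨z₂, hz₂⟩ := shift he 0 D₀ (fun w hw => by
    rw [sub_zero]; exact hL w (Finset.mem_union_right _ hw))
  obtain ⟨p₀, hp₀⟩ := hz₁ _ (le_sup_left (b := z₂))
  obtain ⟨d₀, hd₀⟩ := hz₂ _ (le_sup_right (a := z₁))
  set x : Gr E := single (e (z₁ ⊔ z₂) - 0) 1 with hx
  have hd₀' : d₀ ≠ 0 := by
    rintro rfl
    rw [map_zero] at hd₀
    rcases mul_eq_zero.1 hd₀ with h | h
    · exact hD₀ h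
    · exact single_ne _ h
  obtain ⟨p, d, c, hpd, hcp, hcd⟩ := UniqueFactorizationMonoid.exists_reduced_factors' p₀ d₀ hd₀'
  have hc : c ≠ 0 := by
    rintro rfl
    rw [zero_mul] at hcd
    exact hd₀' hcd.symm
  have hd : d ≠ 0 := by
    rintro rfl
    rw [mul_zero] at hcd
    exact hd₀' hcd.symm
  have hinj := phi_injective he.inj
  have hphid : phi e d ≠ 0 := fun h => hd (hinj (by rw [h, map_zero]))
  have hphic : phi e c ≠ 0 := fun h => hc (hinj (by rw [h, map_zero]))
  refine ⟨phi e p, phi e d, ⟨hphid, ?_⟩, ?_⟩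
  · intro Q R hPR
    obtain ⟨-, hmul, hdec⟩ := hCmp E L
    have key : ∀ v : E, ∃ T : Gr E, cmp L v R = phi e d * T := by
      intro v
      have h1 : cmp L v R * phi e p = cmp L v Q * phi e d := by
        rw [← hmul R _ (phi_supp he p), ← hmul Q _ (phi_supp he d), mul_comm R, hPR]
      have hs : ∀ S : Gr E, ∀ w ∈ (cmp L v S).coeff.support, w - v ∈ L := by
        intro S w hw
        exact (((hCmp E L).1 S v w).1 hw).2
      obtain ⟨y₁, hy₁⟩ := shift he v _ (hs R)
      obtain ⟨y₂, hy₂⟩ := shift he v _ (hs Q)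
      obtain ⟨a, ha⟩ := hy₁ _ (le_sup_left (b := y₂))
      obtain ⟨b, hb⟩ := hy₂ _ (le_sup_right (a := y₁))
      set y : E := e (y₁ ⊔ y₂) - v
      have h2 : a * p = b * d := by
        apply hinj
        rw [map_mul, map_mul, ← ha, ← hb]
        calc _ = (cmp L v R * phi e p) * single y 1 := by ring
          _ = _ := by rw [h1]; ring
      have h3 : d ∣ a := by
        have h4 : d ∣ a * p := ⟨b, by rw [h2, mul_comm]⟩
        exact hpd.symm.dvd_of_dvd_mul_right h4
      obtain ⟨t, ht⟩ := h3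
      refine ⟨phi e t * single (-y) 1, ?_⟩
      rw [← mul_assoc, ← map_mul, ← ht, ← ha, mul_assoc, single_cancel, mul_one]
    choose T hT using key
    obtain ⟨s, -, hs⟩ := hdec R
    refine ⟨∑ v ∈ s, T v, ?_, ?_⟩
    · have h5 : R = phi e d * ∑ v ∈ s, T v := by
        rw [Finset.mul_sum]
        conv_lhs => rw [hs]
        exact Finset.sum_congr rfl fun v _ => hT v
      have h6 : Q * phi e d = (phi e p * ∑ v ∈ s, T v) * phi e d := by
        rw [← hPR]
        conv_lhs => rw [h5]
        ring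
      exact mul_right_cancel₀ hphid h6
    · rw [Finset.mul_sum]
      conv_lhs => rw [hs]
      exact Finset.sum_congr rfl fun v _ => hT v
  · have h1 : io (phi e c) ≠ 0 := io_ne_zero.2 hphic
    apply mul_left_cancel₀ h1
    calc io (phi e c) * (f * io (phi e d)) = f * io (phi e c * phi e d) := by
          rw [map_mul]; ring
      _ = f * io D₀ * io x := by rw [← map_mul (phi e), hcd, ← hd₀, map_mul]; ring
      _ = io (P₀ * x) := by rw [hf, map_mul]
      _ = io (phi e c) * io (phi e p) := by rw [hp₀, ← hcp, map_mul, map_mul]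

end Pool.Agent.Helper28.DB.M_Red
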