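import Pool.Agent.Helper28.DB.St

/-! If the shifted vectors are independent then the coefficients can be transported
(MP_2bc838_lc, module Shift). -/

set_option autoImplicit false

namespace Pool.Agent.Helper28.DB.M_Shift

open Pool.Agent.Helper28.DB

/-- A matrix with independent rows has a nonzero maximal minor. -/
theorem exists_minor {K : Type} [Field K] {m N : ℕ} (A : Matrix (Fin m) (Fin N) K)
    (h : LinearIndependent K A.row) :
    ∃ s : Fin m → Fin N, Function.Injective s ∧ (A.submatrix id s).det ≠ 0 := by
  obtain ⟨κ, a, ha, hsp, hli⟩ := exists_linearIndependent' K A.col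
  have hrk : A.rank = m := by simpa using h.rank_matrix
  have : Finite κ := Finite.of_injective a ha
  have : Fintype κ := Fintype.ofFinite κ
  have hcard : Fintype.card κ = m := by
    rw [← hrk, Matrix.rank_eq_finrank_span_cols, ← hsp, finrank_span_eq_card hli]
  let e : Fin m ≃ κ := (Fintype.equivFinOfCardEq hcard).symm
  refine ⟨a ∘ e, ha.comp e.injective, ?_⟩
  have h2 : LinearIndependent K ((A.submatrix id (a ∘ e)).col) := by
    have := hli.comp e e.injective
    exact this
  have h3 := Matrix.linearIndependent_cols_iff_isUnit.1 h2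
  exact ((Matrix.isUnit_iff_isUnit_det _).1 h3).ne_zero

theorem main (hTrLin : StTrLin) : StShift := by
  intro E E' _ _ _ _ n m A J P hli
  -- the vectors before multiplication by `J` are independent
  have h1 : LinearIndependent (Fr E')
      (fun t : Fin m => (fun k => io (gm A (P t k)) : Fin n → Fr E')) := by
    refine LinearIndependent.of_comp
      (Matrix.vecMulLinear (Matrix.of fun a c => (io (J a c) : Fr E'))) ?_
    have e0 : (Matrix.vecMulLinear (Matrix.of fun a c => (io (J a c) : Fr E'))) ∘
        (fun t : Fin m => (fun k => io (gm A (P t k)) : Fin n → Fr E')) =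
        fun t => iv (sh A J (P t)) := by
      funext t c
      change ∑ a, io (gm A (P t a)) * io (J a c) = (io (∑ a, gm A (P t a) * J a c) : Fr E')
      rw [map_sum]
      exact Finset.sum_congr rfl fun a _ => (map_mul _ _ _).symm
    rw [e0]
    exact hli
  obtain ⟨s, hs, hdet⟩ := exists_minor
    (Matrix.of fun (t : Fin m) (k : Fin n) => (io (gm A (P t k)) : Fr E')) h1
  set MP : Matrix (Fin m) (Fin m) (Gr E) := Matrix.of fun t j => P t (s j) with hMP
  have h2 : (io (gm A MP.det) : Fr E') ≠ 0 := by
    rw [RingHom.map_det, RingHom.map_det]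
    exact hdet
  have h3 : gm A MP.det ≠ 0 := io_ne_zero.1 h2
  have h4 : MP.det ≠ 0 := by
    intro h
    rw [h, map_zero] at h3
    exact h3 rfl
  set M : Matrix (Fin m) (Fin m) (Fr E) := Matrix.of fun t j => io (P t (s j)) with hM
  have h5 : M.det = io MP.det := by
    rw [RingHom.map_det]
    rfl
  have h6 : M.det ≠ 0 := by rw [h5]; exact io_ne_zero.2 h4
  refine ⟨?_, fun Q c hQ => ?_⟩
  · refine LinearIndependent.of_comp (LinearMap.funLeft (Fr E) (Fr E) s) ?_
    have h7 : LinearIndependent (Fr E) M.row :=
      Matrix.linearIndependent_rows_iff_isUnit.2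
        ((Matrix.isUnit_iff_isUnit_det _).2 (isUnit_iff_ne_zero.2 h6))
    exact h7
  · have h8 : ∀ t, c t * io MP.det = io (MP.updateRow t (fun j => Q (s j))).det := by
      intro t
      rw [← h5, RingHom.map_det]
      have e1 : (io : Gr E →+* Fr E).mapMatrix (MP.updateRow t (fun j => Q (s j))) =
          M.updateRow t (∑ k, c k • M k) := by
        rw [RingHom.mapMatrix_apply, Matrix.map_updateRow]
        congr 1
        funext j
        have := congrFun hQ (s j)
        change (io (Q (s j)) : Fr E) = _
        change (io (Q (s j)) : Fr E) = _ at this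
        rw [this, Finset.sum_apply, Finset.sum_apply]
        rfl
      rw [e1, Matrix.det_updateRow_sum]
      rfl
    have h9 : ∀ t, Tr A (c t)
        (io (gm A (MP.updateRow t (fun j => Q (s j))).det) / io (gm A MP.det)) :=
      fun t => ⟨_, MP.det, h3, h8 t, div_mul_cancel₀ _ h2⟩
    exact ⟨_, h9, hTrLin E E' n m A J P Q c _ hQ h9⟩

end Pool.Agent.Helper28.DB.M_Shift
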