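import Pool.Agent.Helper28.DB.St

/-! # DB module Stab: the stable data -/

set_option autoImplicit false
set_option linter.unusedSectionVars false

namespace Pool.Agent.Helper28.DB.M_Stab

open AddMonoidAlgebra

section

variable {E : Type} [AddCommGroup E] [Module ℚ E] [FiniteDimensional ℚ E] {n : ℕ}

theorem inj_on {A : E →ₗ[ℚ] E} {N : Submodule ℚ E} (h : N.map A = N) :
    ∀ v ∈ N, A v = 0 → v = 0 := by
  have h1 : LinearMap.range (A.domRestrict N) = N := by
    rw [LinearMap.range_domRestrict]
    exact h
  have h2 := LinearMap.finrank_range_add_finrank_ker (A.domRestrict N)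
  rw [h1] at h2
  have h3 : Module.finrank ℚ (LinearMap.ker (A.domRestrict N)) = 0 := by omega
  have h4 : LinearMap.ker (A.domRestrict N) = ⊥ := Submodule.finrank_eq_zero.1 h3
  intro v hv hv0
  have h5 : (⟨v, hv⟩ : N) ∈ LinearMap.ker (A.domRestrict N) := by
    rw [LinearMap.mem_ker]
    exact hv0
  rw [h4, Submodule.mem_bot] at h5
  exact congrArg Subtype.val h5

theorem lin_inj {d : ℕ} {v : Fin d → Fin n → Fr E} (h : LinearIndependent (Fr E) v) :
    Function.Injective (Fintype.linearCombination (Fr E) v) := by
  intro c c' hc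
  rw [Fintype.linearCombination_apply, Fintype.linearCombination_apply] at hc
  have h1 : ∑ j, (c j - c' j) • v j = 0 := by
    simp only [sub_smul, Finset.sum_sub_distrib]
    rw [hc, sub_self]
  funext j
  exact sub_eq_zero.1 (Fintype.linearIndependent_iff.1 h _ h1 j)

theorem iv_zero : iv (0 : Fin n → Gr E) = 0 := by
  funext c
  exact map_zero io

theorem sh_zero (A : E →ₗ[ℚ] E) (J : Fin n → Fin n → Gr E) : sh A J (0 : Fin n → Gr E) = 0 := by
  funext c
  simp [sh]

end

theorem main (hBasis : StBasis) (hAdm : StAdm) (hTr : StTr) (hTrLin : StTrLin)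
    (hDesc : StDesc) (hSubf : StSubf) : StStab := by
  classical
  intro E _ _ _ n A J u p hu hp h0 i₀ d N hd hN hk
  have hinj := inj_on hN
  -- shift fact
  have S : ∀ (m : ℕ) (s : Fin m → ℕ) (k : ℕ) (c : Fin m → Fr E), (∀ t, InK N (c t)) →
      iv (u k) = ∑ t, c t • iv (u (s t)) → ∃ c' : Fin m → Fr E, (∀ t, Tr A (c t) (c' t)) ∧
        iv (u (k + 1)) = ∑ t, c' t • iv (u (s t + 1)) := by
    intro m s k c hc hrel
    have h1 : ∀ t, ∃ f', Tr A (c t) f' := fun t => (hTr E E A).2.2.2.2.1 N hinj (c t) (hc t)
    choose c' hc' using h1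
    refine ⟨c', hc', ?_⟩
    have h2 := hTrLin E E n m A J (fun t => u (s t)) (u k) c c' hrel hc'
    simp only [← hu] at h2
    exact h2
  -- independence of the windows
  have hindep : ∀ i, i₀ ≤ i → LinearIndependent (Fr E) (fun j : Fin d => iv (u (i + j))) := by
    intro i hi
    have key : ∀ m, m ≤ d → LinearIndependent (Fr E) (fun j : Fin m => iv (u (i + j))) := by
      intro m
      induction m with
      | zero => exact fun _ => linearIndependent_empty_type
      | succ m ih =>
        intro hm
        have ih' := ih (by omega)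
        rw [linearIndependent_finSucc']
        have e1 : Fin.init (fun j : Fin (m + 1) => iv (u (i + j))) =
            fun j : Fin m => iv (u (i + j)) := by
          funext j
          simp [Fin.init]
        rw [e1]
        refine ⟨ih', fun hmem => ?_⟩
        have hmem' : iv (u (i + m)) ∈ Submodule.span (Fr E)
            (Set.range fun j : Fin m => iv (u (i + j))) := by simpa using hmem
        set W := Submodule.span (Fr E) (Set.range fun j : Fin m => iv (u (i + j))) with hW
        have hle : ∀ j, j ≤ m → iv (u (i + j)) ∈ W := by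
          intro j hj
          rcases Nat.lt_or_ge j m with h | h
          · exact Submodule.subset_span ⟨⟨j, h⟩, rfl⟩
          · rw [show j = m by omega]
            exact hmem'
        have hall : ∀ l, iv (u (i + l)) ∈ W := by
          intro l
          induction l with
          | zero => exact hle 0 (Nat.zero_le _)
          | succ l ihl =>
            rcases Nat.lt_or_ge l m with h | h
            · exact hle (l + 1) h
            · obtain ⟨c, hc⟩ := (Submodule.mem_span_range_iff_exists_fun (Fr E)).1 ihl
              have hg := (hk i hi).2.1.1 m (fun j => i + j) (fun t => Nat.le_add_right _ _) ih'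
                (i + l) (Nat.le_add_right _ _) c hc.symm
              obtain ⟨c', -, h2⟩ := S m (fun j => i + j) (i + l) c hg hc.symm
              rw [← add_assoc, h2]
              refine Submodule.sum_mem _ fun t _ => Submodule.smul_mem _ _ ?_
              rw [add_assoc]
              exact hle _ t.2
        have h3 : dm u i ≤ m := by
          have h4 : Submodule.span (Fr E) {x : Fin n → Fr E | ∃ k, i ≤ k ∧ x = iv (u k)} ≤ W := by
            rw [Submodule.span_le]
            rintro x ⟨k, hik, rfl⟩
            obtain ⟨l, rfl⟩ := Nat.exists_eq_add_of_le hik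
            exact hall l
          have h5 : Module.finrank (Fr E) W ≤ m := by
            have := finrank_range_le_card (R := Fr E) (fun j : Fin m => iv (u (i + j)))
            rwa [Fintype.card_fin] at this
          exact (Submodule.finrank_mono h4).trans h5
        rw [(hk i hi).1] at h3
        omega
    exact key d le_rfl
  -- the relations
  have hrel : ∀ i, ∃ c : Fin d → Fr E, i₀ ≤ i →
      iv (u (i + d)) = ∑ j : Fin d, c j • iv (u (i + j)) := by
    intro i
    by_cases hi : i₀ ≤ i
    · have hB := (hBasis E n u i).2.1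
      rw [(hk i hi).1] at hB
      obtain ⟨c, hc⟩ := hB (fun j => i + j) (fun t => Nat.le_add_right _ _) (hindep i hi) (i + d)
        (Nat.le_add_right _ _)
      exact ⟨c, fun _ => hc⟩
    · exact ⟨0, fun h => absurd h hi⟩
  choose lam hlam using hrel
  have hlamN : ∀ i, i₀ ≤ i → ∀ j, InK N (lam i j) := fun i hi =>
    (hk i hi).2.1.1 d (fun j => i + j) (fun t => Nat.le_add_right _ _) (hindep i hi) (i + d)
      (Nat.le_add_right _ _) (lam i) (hlam i hi)
  refine ⟨lam, hd, hindep, hlam, hlamN, fun i hi => (hk i hi).2.1.2 i le_rfl, ?_, hp, hN, ?_, ?_⟩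
  · -- p_ne
    intro i hi hpi
    have h1 : u i = 0 := (h0 i).1 hpi
    have h2 : ∀ l, u (i + l) = 0 := by
      intro l
      induction l with
      | zero => exact h1
      | succ l ih => rw [← add_assoc, hu, ih, sh_zero]
    have h3 : dm u i = 0 := by
      have h4 : Submodule.span (Fr E) {x : Fin n → Fr E | ∃ k, i ≤ k ∧ x = iv (u k)} = ⊥ := by
        rw [Submodule.span_eq_bot]
        rintro x ⟨k, hik, rfl⟩
        obtain ⟨l, rfl⟩ := Nat.exists_eq_add_of_le hik
        rw [h2, iv_zero]
      rw [dm, h4]
      exact finrank_bot _ _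
    rw [(hk i hi).1] at h3
    omega
  · -- trA
    intro i hi j
    obtain ⟨c', hc', h1⟩ := S d (fun j => i + j) (i + d) (lam i) (hlamN i hi) (hlam i hi)
    have h2 := hlam (i + 1) (Nat.le_succ_of_le hi)
    have h3 := hindep (i + 1) (Nat.le_succ_of_le hi)
    have e1 : i + 1 + d = i + d + 1 := by omega
    have e2 : ∀ j : ℕ, i + 1 + j = i + j + 1 := fun j => by omega
    rw [e1, h1] at h2
    simp only [e2] at h2 h3
    have h4 : c' = lam (i + 1) := by
      have h5 : Function.Injective (Fintype.linearCombination (Fr E)
          (fun j : Fin d => iv (u (i + j + 1)))) := by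
        exact lin_inj h3
      apply h5
      rw [Fintype.linearCombination_apply, Fintype.linearCombination_apply]
      exact h2
    rw [← h4]
    exact hc' j
  · -- minimal
    intro N' hN' i₁ hi₁ hlam' hp'
    refine le_antisymm hN' ((hk i₁ hi₁).2.2 N' ⟨?_, hp'⟩)
    intro m s hs hind k hk' c hc
    obtain ⟨K, hK⟩ := (hSubf E).1 N'
    -- coordinates
    have hx : ∀ l, ∃ x : Fin d → Fr E, (∀ j, x j ∈ K) ∧
        iv (u (i₁ + l)) = ∑ j, x j • iv (u (i₁ + j)) := by
      intro l
      induction l using Nat.strong_induction_on with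
      | _ l ih =>
        rcases Nat.lt_or_ge l d with h | h
        · refine ⟨Pi.single ⟨l, h⟩ 1, fun j => ?_, ?_⟩
          · by_cases hj : j = ⟨l, h⟩
            · rw [hj, Pi.single_eq_same]
              exact K.one_mem
            · rw [Pi.single_eq_of_ne hj]
              exact K.zero_mem
          · rw [Finset.sum_eq_single (⟨l, h⟩ : Fin d)]
            · rw [Pi.single_eq_same, one_smul]
            · intro b _ hb
              rw [Pi.single_eq_of_ne hb, zero_smul]
            · intro h'
              exact absurd (Finset.mem_univ _) h'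
        · obtain ⟨q, rfl⟩ := Nat.exists_eq_add_of_le' h
          have h1 : ∀ j : Fin d, ∃ x : Fin d → Fr E, (∀ j, x j ∈ K) ∧
              iv (u (i₁ + (q + j))) = ∑ j, x j • iv (u (i₁ + j)) := fun j => ih _ (by omega)
          choose x hx1 hx2 using h1
          refine ⟨fun l => ∑ j, lam (i₁ + q) j * x j l, fun l => ?_, ?_⟩
          · refine K.sum_mem fun j _ => K.mul_mem ((hK _).2 (hlam' _ (by omega) j)) (hx1 j l)
          · rw [← add_assoc, hlam (i₁ + q) (by omega)]
            have h2 : ∀ j : Fin d, iv (u (i₁ + q + j)) = ∑ l, x j l • iv (u (i₁ + l)) := by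
              intro j
              rw [add_assoc]
              exact hx2 j
            simp only [h2, Finset.smul_sum, smul_smul, Finset.sum_smul]
            exact Finset.sum_comm
    have hx' : ∀ k, ∃ x : Fin d → Fr E, i₁ ≤ k → (∀ j, x j ∈ K) ∧
        iv (u k) = ∑ j, x j • iv (u (i₁ + j)) := by
      intro k
      by_cases hik : i₁ ≤ k
      · obtain ⟨l, rfl⟩ := Nat.exists_eq_add_of_le hik
        obtain ⟨x, hx1⟩ := hx l
        exact ⟨x, fun _ => hx1⟩
      · exact ⟨0, fun h => absurd h hik⟩
    choose x hx2 using hx'
    let Φ := Fintype.linearCombination (Fr E) (fun j : Fin d => iv (u (i₁ + j)))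
    have hΦ : ∀ k, i₁ ≤ k → Φ (x k) = iv (u k) := fun k hk => by
      rw [Fintype.linearCombination_apply]
      exact (hx2 k hk).2.symm
    have hΦi : Function.Injective Φ := lin_inj (hindep i₁ hi₁)
    refine hDesc E N' m d (fun t => x (s t)) (x k) c (fun t j => (hK _).1 ((hx2 _ (hs t)).1 j))
      (fun j => (hK _).1 ((hx2 _ hk').1 j)) ?_ ?_
    · refine LinearIndependent.of_comp Φ ?_
      have : (Φ ∘ fun t => x (s t)) = fun t => iv (u (s t)) := by
        funext t
        exact hΦ _ (hs t)
      rw [this]
      exact hind
    · apply hΦi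
      rw [hΦ k hk', hc, map_sum]
      refine Finset.sum_congr rfl fun t _ => ?_
      rw [map_smul, hΦ _ (hs t)]

end Pool.Agent.Helper28.DB.M_Stab
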