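import Pool.Agent.Helper28.DB.St

/-! Module Subf (MP_2bc838_lc): the subfield of the fractions with exponents in a subspace. -/

set_option autoImplicit false

namespace Pool.Agent.Helper28.DB.M_Subf

open AddMonoidAlgebra Pool.Agent.Helper28.DB

variable {E : Type} [AddCommGroup E] [Module ℚ E]

theorem inK_io (N : Submodule ℚ E) {P : Gr E} (hP : Supp N P) : InK N (io P) :=
  ⟨P, 1, one_ne_zero, hP, supp_one N, by rw [map_one, mul_one]⟩

theorem inK_add (N : Submodule ℚ E) {f g : Fr E} (hf : InK N f) (hg : InK N g) :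
    InK N (f + g) := by
  obtain ⟨P, D, h1, h2, h3, h4⟩ := hf
  obtain ⟨P', D', h1', h2', h3', h4'⟩ := hg
  refine ⟨P * D' + P' * D, D * D', mul_ne_zero h1 h1', (h2.mul h3').add (h2'.mul h3),
    h3.mul h3', ?_⟩
  rw [map_mul, map_add, map_mul, map_mul, ← h4, ← h4']
  ring

theorem inK_mul (N : Submodule ℚ E) {f g : Fr E} (hf : InK N f) (hg : InK N g) :
    InK N (f * g) := by
  obtain ⟨P, D, h1, h2, h3, h4⟩ := hf
  obtain ⟨P', D', h1', h2', h3', h4'⟩ := hg
  refine ⟨P * P', D * D', mul_ne_zero h1 h1', h2.mul h2', h3.mul h3', ?_⟩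
  rw [map_mul, map_mul, ← h4, ← h4']
  ring

theorem inK_neg (N : Submodule ℚ E) {f : Fr E} (hf : InK N f) : InK N (-f) := by
  obtain ⟨P, D, h1, h2, h3, h4⟩ := hf
  refine ⟨-P, D, h1, h2.neg, h3, ?_⟩
  rw [map_neg, ← h4]
  ring

theorem inK_inv (N : Submodule ℚ E) {f : Fr E} (hf : InK N f) : InK N f⁻¹ := by
  obtain ⟨P, D, h1, h2, h3, h4⟩ := hf
  by_cases h0 : f = 0
  · rw [h0, inv_zero, ← map_zero (io : Gr E →+* Fr E)]
    exact inK_io N (supp_zero N)
  · have hP : P ≠ 0 := by
      intro hP
      rw [hP, map_zero] at h4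
      rcases mul_eq_zero.1 h4 with h5 | h5
      · exact h0 h5
      · exact (io_ne_zero.2 h1) h5
    refine ⟨D, P, hP, h3, h2, ?_⟩
    rw [← h4, inv_mul_cancel_left₀ h0]

theorem main : StSubf := by
  intro E _ _
  refine ⟨fun N => ⟨{ carrier := {f | InK N f}
                      mul_mem' := fun hf hg => inK_mul N hf hg
                      one_mem' := ?_
                      add_mem' := fun hf hg => inK_add N hf hg
                      zero_mem' := ?_
                      neg_mem' := fun hf => inK_neg N hf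
                      inv_mem' := fun f hf => inK_inv N hf }, fun f => Iff.rfl⟩, ?_, ?_, ?_⟩
  · have := inK_io N (supp_one N)
    rwa [map_one] at this
  · have := inK_io N (supp_zero N)
    rwa [map_zero] at this
  · rintro N N' h f ⟨P, D, h1, h2, h3, h4⟩
    exact ⟨P, D, h1, h2.mono h, h3.mono h, h4⟩
  · intro f
    obtain ⟨P, D, h1, h2⟩ := exists_frac f
    exact ⟨P, D, h1, supp_top P, supp_top D, h2⟩
  · intro N P hP
    exact inK_io N hP

end Pool.Agent.Helper28.DB.M_Subf
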