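import Pool.Agent.Helper28.DB.St

/-! Module T2 (MP_2bc838_lc): agreement transports the coefficients. -/

set_option autoImplicit false

namespace Pool.Agent.Helper28.DB.M_T2

open Pool.Agent.Helper28.DB AddMonoidAlgebra

theorem main (hShift : StShift) : StT2 := by
  intro E _ _ _ n A B J' u p i₀ d N lam T hS hu i hi hiT j
  have hsh : ∀ t : Fin d, sh B J' (u (i + t)) = u (i + 1 + t) := by
    intro t
    have ht := t.2
    rw [← hu (i + t) (by omega)]
    congr 1
    omega
  have hsh2 : sh B J' (u (i + d)) = u (i + 1 + d) := by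
    rw [← hu (i + d) hiT]
    congr 1
    omega
  have hfun : (fun t : Fin d => iv (sh B J' (u (i + t)))) = fun t : Fin d => iv (u (i + 1 + t)) := by
    funext t
    rw [hsh t]
  have hind := hS.indep (i + 1) (by omega)
  obtain ⟨-, h2⟩ := hShift E E n d B J' (fun t : Fin d => u (i + t)) (by
    rw [hfun]
    exact hind)
  obtain ⟨c', hc1, hc2⟩ := h2 (u (i + d)) (lam i) (hS.rel i hi)
  have h3 := hS.rel (i + 1) (by omega)
  rw [hsh2] at hc2
  have hc3 : ∑ t : Fin d, c' t • iv (u (i + 1 + t)) = ∑ t : Fin d, lam (i + 1) t • iv (u (i + 1 + t)) := by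
    rw [← h3, hc2]
    refine Finset.sum_congr rfl fun t _ => ?_
    rw [hsh t]
  have h4 : c' = lam (i + 1) := by
    have h5 := Fintype.linearIndependent_iff.1 hind (fun t => c' t - lam (i + 1) t) (by
      simp only [sub_smul, Finset.sum_sub_distrib]
      rw [hc3, sub_self])
    funext t
    exact sub_eq_zero.1 (h5 t)
  have h6 := hc1 j
  rw [h4] at h6
  exact h6

end Pool.Agent.Helper28.DB.M_T2
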