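import Pool.Agent.Helper28.DB.St

/-! Module TL: transport of good subspaces when the dimension does not drop (MP_2bc838_lc). -/

set_option autoImplicit false

namespace Pool.Agent.Helper28.DB.M_TL

open AddMonoidAlgebra Pool.Agent.Helper28.DB

theorem main (hBasis : StBasis) (hShift : StShift) (hAdm : StAdm) : StTL := by
  classical
  intro E _ _ _ n A J u p hu hp i N hdm hgood
  obtain ⟨hG1, hG2⟩ := hgood
  refine ⟨?_, ?_⟩
  · intro m s hs hli k hk c hc t
    obtain ⟨-, s', e, hs', hli', he, hse⟩ := (hBasis E n u (i + 1)).1 m s hs hli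
    have key : ∀ D : ℕ, D = dm u i → ∀ s'' : Fin D → ℕ, (∀ t, i ≤ s'' t) →
        LinearIndependent (Fr E) (fun t => iv (u (s'' t))) → ∀ k, i ≤ k →
        ∃ c : Fin D → Fr E, iv (u k) = ∑ t, c t • iv (u (s'' t)) := by
      rintro D rfl
      exact (hBasis E n u i).2.1
    have hP : ∀ t, sh A J (u (s' t - 1)) = u (s' t) := by
      intro t
      rw [← hu]
      congr 1
      have := hs' t
      omega
    have hli2 : LinearIndependent (Fr E) (fun t => iv (sh A J (u (s' t - 1)))) := by
      simpa only [hP] using hli'
    obtain ⟨hliP, hsh⟩ := hShift E E n _ A J (fun t => u (s' t - 1)) hli2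
    have hs1 : ∀ t, i ≤ s' t - 1 := by
      intro t
      have := hs' t
      omega
    have hk1 : i ≤ k - 1 := by omega
    obtain ⟨b, hb⟩ := key _ hdm (fun t => s' t - 1) hs1 hliP (k - 1) hk1
    have hbm := hG1 _ (fun t => s' t - 1) hs1 hliP (k - 1) hk1 b hb
    obtain ⟨b', htr, hb'⟩ := hsh (u (k - 1)) b hb
    have hk2 : sh A J (u (k - 1)) = u k := by
      rw [← hu]
      congr 1
      omega
    simp only [hP, hk2] at hb'
    -- compare coefficients
    have hc2 : iv (u k) = ∑ r, (∑ t, if e t = r then c t else 0) • iv (u (s' r)) := by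
      rw [hc]
      have h1 : ∀ r, (∑ t, if e t = r then c t else 0) • iv (u (s' r)) =
          ∑ t, (if e t = r then c t else 0) • iv (u (s' r)) := fun r => Finset.sum_smul
      simp only [h1]
      rw [Finset.sum_comm]
      refine Finset.sum_congr rfl fun t _ => ?_
      rw [Finset.sum_eq_single (e t)]
      · rw [if_pos rfl, hse]
      · intro r _ hr
        rw [if_neg (Ne.symm hr), zero_smul]
      · intro h
        exact absurd (Finset.mem_univ _) h
    have hz : ∑ r, (b' r - ∑ t, if e t = r then c t else 0) • iv (u (s' r)) = 0 := by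
      simp only [sub_smul]
      rw [Finset.sum_sub_distrib, ← hb', ← hc2, sub_self]
    have h2 := Fintype.linearIndependent_iff.1 hli' _ hz (e t)
    have h3 : (∑ t', if e t' = e t then c t' else 0) = c t := by
      rw [Finset.sum_eq_single t]
      · rw [if_pos rfl]
      · intro r _ hr
        rw [if_neg (fun h => hr (he h))]
      · intro h
        exact absurd (Finset.mem_univ _) h
    rw [h3, sub_eq_zero] at h2
    rw [← h2]
    exact (hAdm E E A N (b (e t)) (b' (e t)) (hbm (e t)) (htr (e t))).2.1
  · intro k hk
    have : p k = A (p (k - 1)) := by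
      rw [← hp]
      congr 1
      omega
    rw [this]
    exact Submodule.mem_map_of_mem (hG2 (k - 1) (by omega))

end Pool.Agent.Helper28.DB.M_TL
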