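import Pool.Agent.Helper28.DB.St

/-! Basic properties of the transport relation (MP_2bc838_lc, module Tr). -/

set_option autoImplicit false
set_option linter.unusedVariables false

namespace Pool.Agent.Helper28.DB.M_Tr

open Pool.Agent.Helper28.DB

section

variable {E E' : Type} [AddCommGroup E] [Module ℚ E] [AddCommGroup E'] [Module ℚ E']

theorem uniq (A : E →ₗ[ℚ] E') (f : Fr E) (f' f'' : Fr E') (h1 : Tr A f f') (h2 : Tr A f f'') :
    f' = f'' := by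
  obtain ⟨P1, D1, a1, a2, a3⟩ := h1
  obtain ⟨P2, D2, b1, b2, b3⟩ := h2
  have h3 : P1 * D2 = P2 * D1 := by
    apply io_injective
    rw [map_mul, map_mul, ← a2, ← b2]
    ring
  have h4 := congrArg (gm A) h3
  rw [map_mul, map_mul] at h4
  have h5 := congrArg (io (E := E')) h4
  rw [map_mul, map_mul, ← a3, ← b3] at h5
  have h6 : (io (gm A D1) : Fr E') ≠ 0 := io_ne_zero.2 a1
  have h7 : (io (gm A D2) : Fr E') ≠ 0 := io_ne_zero.2 b1
  have h8 : f' * (io (gm A D1) * io (gm A D2)) = f'' * (io (gm A D1) * io (gm A D2)) := by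
    linear_combination h5
  exact mul_right_cancel₀ (mul_ne_zero h6 h7) h8

theorem of_io (A : E →ₗ[ℚ] E') (P : Gr E) : Tr A (io P) (io (gm A P)) := by
  refine ⟨P, 1, ?_, ?_, ?_⟩
  · rw [map_one]; exact one_ne_zero
  · rw [map_one, mul_one]
  · rw [map_one, map_one, mul_one]

theorem add (A : E →ₗ[ℚ] E') (f g : Fr E) (f' g' : Fr E') (h1 : Tr A f f') (h2 : Tr A g g') :
    Tr A (f + g) (f' + g') := by
  obtain ⟨P1, D1, a1, a2, a3⟩ := h1
  obtain ⟨P2, D2, b1, b2, b3⟩ := h2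
  refine ⟨P1 * D2 + P2 * D1, D1 * D2, ?_, ?_, ?_⟩
  · rw [map_mul]; exact mul_ne_zero a1 b1
  · simp only [map_mul, map_add]
    rw [← a2, ← b2]
    ring
  · simp only [map_mul, map_add]
    rw [← a3, ← b3]
    ring

theorem mul (A : E →ₗ[ℚ] E') (f g : Fr E) (f' g' : Fr E') (h1 : Tr A f f') (h2 : Tr A g g') :
    Tr A (f * g) (f' * g') := by
  obtain ⟨P1, D1, a1, a2, a3⟩ := h1
  obtain ⟨P2, D2, b1, b2, b3⟩ := h2
  refine ⟨P1 * P2, D1 * D2, ?_, ?_, ?_⟩
  · rw [map_mul]; exact mul_ne_zero a1 b1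
  · simp only [map_mul]
    rw [← a2, ← b2]
    ring
  · simp only [map_mul]
    rw [← a3, ← b3]
    ring

theorem ex (A : E →ₗ[ℚ] E') (N : Submodule ℚ E) (hN : ∀ v ∈ N, A v = 0 → v = 0) (f : Fr E)
    (hf : InK N f) : ∃ f' : Fr E', Tr A f f' := by
  obtain ⟨P, D, h1, h2, h3, h4⟩ := hf
  have h5 : gm A D ≠ 0 := gm_ne_zero hN h3 h1
  have h6 : (io (gm A D) : Fr E') ≠ 0 := io_ne_zero.2 h5
  exact ⟨io (gm A P) / io (gm A D), P, D, h5, h4, div_mul_cancel₀ _ h6⟩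

theorem back (hAdm : StAdm) (A : E →ₗ[ℚ] E') (N : Submodule ℚ E) (f : Fr E) (f' : Fr E')
    (hf : InK N f) (ht : Tr A f f') (A' : E' →ₗ[ℚ] E) (hA' : ∀ v ∈ N, A' (A v) = v) :
    Tr A' f' f := by
  obtain ⟨⟨P, D, h1, h2, h3, h4, h5⟩, _⟩ := hAdm E E' A N f f' hf ht
  have key : ∀ Q : Gr E, Supp N Q → gm A' (gm A Q) = Q := by
    intro Q hQ
    rw [← gm_comp, gm_congr (B := LinearMap.id) (fun v hv => hA' v hv) hQ, gm_id]
  refine ⟨gm A P, gm A D, ?_, h5, ?_⟩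
  · rw [key D h2]
    rintro rfl
    exact h3 (map_zero _)
  · rw [key D h2, key P h1]
    exact h4

end

theorem main (hAdm : StAdm) (hSubf : StSubf) : StTr := by
  intro E E' _ _ _ _ A
  exact ⟨uniq A, of_io A, add A, mul A, fun N hN f hf => ex A N hN f hf,
    fun N _ f f' hf ht A' hA' => back hAdm A N f f' hf ht A' hA'⟩

end Pool.Agent.Helper28.DB.M_Tr
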