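import Pool.Agent.Helper28.DB.St

/-! Module TrComp (MP_2bc838_lc): composition of transports. -/

set_option autoImplicit false

namespace Pool.Agent.Helper28.DB.M_TrComp

open Pool.Agent.Helper28.DB AddMonoidAlgebra

theorem main (hAdm : StAdm) (hTr : StTr) : StTrComp := by
  intro E E' E'' _ _ _ _ _ _ A B N hN f f' f'' hf hff'
  obtain ⟨⟨P, D, hP, hD, hD0, h1, h2⟩, -, -⟩ := hAdm E E' A N f f' hf hff'
  have hDne : D ≠ 0 := by
    intro h
    rw [h, map_zero] at hD0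
    exact hD0 rfl
  have hBA : gm (B ∘ₗ A) D ≠ 0 := gm_ne_zero (N := N) (fun v hv h => hN v hv h) hD hDne
  have hBA' : gm B (gm A D) ≠ 0 := by rwa [← gm_comp]
  set g : Fr E'' := io (gm B (gm A P)) / io (gm B (gm A D)) with hg
  have hg1 : g * io (gm B (gm A D)) = io (gm B (gm A P)) :=
    div_mul_cancel₀ _ (io_ne_zero.2 hBA')
  have t1 : Tr B f' g := ⟨gm A P, gm A D, hBA', h2, hg1⟩
  have t2 : Tr (B ∘ₗ A) f g := ⟨P, D, hBA, h1, by rw [gm_comp, gm_comp]; exact hg1⟩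
  constructor
  · intro h
    rw [(hTr E' E'' B).1 f' f'' g h t1]
    exact t2
  · intro h
    rw [(hTr E E'' (B ∘ₗ A)).1 f f'' g h t2]
    exact t1

end Pool.Agent.Helper28.DB.M_TrComp
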