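import Pool.Agent.Helper28.DB.St

/-! Shifting linear relations (MP_2bc838_lc). -/

set_option autoImplicit false

namespace Pool.Agent.Helper28.DB.M_TrLin

open AddMonoidAlgebra Pool.Agent.Helper28.DB

theorem main : StTrLin := by
  intro E E' _ _ _ _ n m A J P Q c c' h hT
  classical
  choose R D hD hR hR' using hT
  have hprod : ∀ t, D t * ∏ s ∈ Finset.univ.erase t, D s = ∏ s, D s := fun t =>
    Finset.mul_prod_erase Finset.univ D (Finset.mem_univ t)
  have h1 : ∀ k, (∏ s, D s) * Q k =
      ∑ t, R t * (∏ s ∈ Finset.univ.erase t, D s) * P t k := by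
    intro k
    apply io_injective
    have hk : io (Q k) = ∑ t, c t * io (P t k) := by
      have := congrFun h k
      simpa [iv] using this
    rw [map_mul, hk, map_sum, Finset.mul_sum]
    refine Finset.sum_congr rfl fun t _ => ?_
    rw [← hprod t, map_mul, map_mul, map_mul, ← hR t]
    ring
  have h2 : ∀ k, gm A (∏ s, D s) * gm A (Q k) =
      ∑ t, gm A (R t) * gm A (∏ s ∈ Finset.univ.erase t, D s) * gm A (P t k) := by
    intro k
    have := congrArg (gm A) (h1 k)
    rw [map_mul, map_sum] at this
    rw [this]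
    refine Finset.sum_congr rfl fun t _ => ?_
    rw [map_mul, map_mul]
  have hne : io (gm A (∏ s, D s)) ≠ 0 := by
    rw [io_ne_zero, map_prod]
    exact Finset.prod_ne_zero_iff.2 fun t _ => hD t
  funext k
  apply mul_left_cancel₀ hne
  have hL : io (gm A (∏ s, D s)) * iv (sh A J Q) k =
      ∑ t, io (gm A (R t)) * io (gm A (∏ s ∈ Finset.univ.erase t, D s)) *
        io (sh A J (P t) k) := by
    change io (gm A (∏ s, D s)) * io (∑ a, gm A (Q a) * J a k) = _
    rw [← map_mul, Finset.mul_sum]
    have : ∀ a, gm A (∏ s, D s) * (gm A (Q a) * J a k) =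
        ∑ t, gm A (R t) * gm A (∏ s ∈ Finset.univ.erase t, D s) * (gm A (P t a) * J a k) := by
      intro a
      rw [← mul_assoc, h2 a, Finset.sum_mul]
      exact Finset.sum_congr rfl fun t _ => by ring
    rw [Finset.sum_congr rfl fun a _ => this a, Finset.sum_comm, map_sum]
    refine Finset.sum_congr rfl fun t _ => ?_
    rw [← map_mul io, ← map_mul io, sh, Finset.mul_sum]
  rw [hL, Finset.sum_apply, Finset.mul_sum]
  refine Finset.sum_congr rfl fun t _ => ?_
  rw [Pi.smul_apply, smul_eq_mul, ← hprod t, map_mul, map_mul, ← hR' t]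
  change _ = _ * (c' t * io (sh A J (P t) k))
  ring

end Pool.Agent.Helper28.DB.M_TrLin
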