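import Pool.Agent.Helper28.DB.St

/-! Module Two: the prime two. -/

set_option autoImplicit false

namespace Pool.Agent.Helper28.DB.M_Two

open Finset

theorem val_prod (l : ℕ) [hl : Fact l.Prime] {ι : Type} (s : Finset ι) (f : ι → ℕ)
    (hf : ∀ i ∈ s, f i ≠ 0) :
    padicValNat l (∏ i ∈ s, f i) = ∑ i ∈ s, padicValNat l (f i) := by
  classical
  induction s using Finset.induction_on with
  | empty => simp
  | insert a s ha ih =>
    rw [prod_insert ha, sum_insert ha, padicValNat.mul (hf a (mem_insert_self a s))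
      (prod_ne_zero_iff.mpr fun i hi => hf i (mem_insert_of_mem hi)),
      ih fun i hi => hf i (mem_insert_of_mem hi)]

theorem val_GL (l p : ℕ) (hl : l.Prime) (hp : p.Prime) (hlp : l ≠ p) (m : ℕ) :
    padicValNat l (∏ i ∈ range m, (p ^ m - p ^ i)) =
      ∑ j ∈ range m, padicValNat l (p ^ (j + 1) - 1) := by
  have : Fact l.Prime := ⟨hl⟩
  have hne : ∀ k : ℕ, p ^ (k + 1) - 1 ≠ 0 := by
    intro k
    have : 1 < p ^ (k + 1) := Nat.one_lt_pow (Nat.succ_ne_zero k) hp.one_lt
    omega
  have h1 : ∀ i ∈ range m, p ^ m - p ^ i = p ^ i * (p ^ ((m - 1 - i) + 1) - 1) := by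
    intro i hi
    have hi' := mem_range.mp hi
    rw [Nat.mul_sub, mul_one, ← pow_add]
    congr 2
    omega
  rw [prod_congr rfl h1, val_prod l _ _ (fun i _ => mul_ne_zero (pow_ne_zero _ hp.ne_zero) (hne _))]
  have h2 : ∀ i ∈ range m, padicValNat l (p ^ i * (p ^ ((m - 1 - i) + 1) - 1)) =
      padicValNat l (p ^ ((m - 1 - i) + 1) - 1) := by
    intro i _
    rw [padicValNat.mul (pow_ne_zero _ hp.ne_zero) (hne _), padicValNat.pow]
    have : padicValNat l p = 0 := by
      apply padicValNat.eq_zero_of_not_dvd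
      intro h
      exact hlp ((Nat.prime_dvd_prime_iff_eq hl hp).mp h)
    rw [this, mul_zero, zero_add]
  rw [sum_congr rfl h2]
  exact sum_range_reflect (fun j => padicValNat l (p ^ (j + 1) - 1)) m

theorem val_odd {p : ℕ} (h : p % 8 = 3) (k : ℕ) : padicValNat 2 (p ^ (2 * k + 1) - 1) = 1 := by
  have h0 : p ^ (2 * k + 1) % 8 = 3 := by
    rw [pow_succ, pow_mul, Nat.mul_mod, Nat.pow_mod]
    have : p ^ 2 % 8 = 1 := by
      rw [Nat.pow_mod, h]
    rw [this, h]
    simp
  have h1 : 2 ∣ p ^ (2 * k + 1) - 1 := by omega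
  have h2 : ¬ 4 ∣ p ^ (2 * k + 1) - 1 := by omega
  have hne : p ^ (2 * k + 1) - 1 ≠ 0 := by omega
  have h3 : 1 ≤ padicValNat 2 (p ^ (2 * k + 1) - 1) :=
    (padicValNat_dvd_iff_le hne).mp (by simpa using h1)
  have h4 : ¬ 2 ≤ padicValNat 2 (p ^ (2 * k + 1) - 1) := fun h =>
    h2 (by simpa using (padicValNat_dvd_iff_le hne).mpr h)
  omega

theorem val_even {p : ℕ} (h : p % 8 = 3) {k : ℕ} (hk : k ≠ 0) :
    padicValNat 2 (p ^ (2 * k) - 1) = 3 + padicValNat 2 k := by
  have h1 := padicValNat.pow_two_sub_one (x := p) (n := 2 * k) (by omega) (by omega) (by omega)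
    (even_two_mul k)
  have h2 : padicValNat 2 (2 * k) = 1 + padicValNat 2 k := by
    rw [padicValNat.mul (by norm_num) hk]
    simp
  have h3 : padicValNat 2 (p - 1) = 1 := by
    have := val_odd h 0
    simpa using this
  have h4 : padicValNat 2 (p + 1) = 2 := by
    have hne : p + 1 ≠ 0 := by omega
    have h5 : 2 ≤ padicValNat 2 (p + 1) :=
      (padicValNat_dvd_iff_le hne).mp (by norm_num; omega)
    have h6 : ¬ 3 ≤ padicValNat 2 (p + 1) := fun h' => by
      have := (padicValNat_dvd_iff_le hne).mpr h'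
      norm_num at this
      omega
    omega
  rw [h2, h3, h4] at h1
  omega

theorem val_sum {p : ℕ} (h : p % 8 = 3) (m : ℕ) :
    ∑ j ∈ range m, padicValNat 2 (p ^ (j + 1) - 1) + m / 2 =
      m + 3 * (m / 2) + padicValNat 2 (m / 2).factorial := by
  induction m with
  | zero => simp
  | succ m ih =>
    rw [sum_range_succ]
    rcases Nat.even_or_odd' m with ⟨k, hk | hk⟩
    · have e1 : m / 2 = k := by omega
      have e2 : (m + 1) / 2 = k := by omega
      have e3 : m + 1 = 2 * k + 1 := by omega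
      rw [e1] at ih
      rw [e2, e3, val_odd h k]
      omega
    · have e1 : m / 2 = k := by omega
      have e2 : (m + 1) / 2 = k + 1 := by omega
      have e3 : m + 1 = 2 * (k + 1) := by omega
      rw [e1] at ih
      rw [e2, e3, val_even h (Nat.succ_ne_zero k), Nat.factorial_succ,
        padicValNat.mul (Nat.succ_ne_zero k) (Nat.factorial_ne_zero k)]
      omega

theorem main : StTwo := by
  intro m p₀
  obtain ⟨p, hp0, hp, hmod⟩ := Nat.forall_exists_prime_gt_and_modEq (p₀ + 2) (q := 8) (a := 3)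
    (by norm_num) (by norm_num)
  have h8 : p % 8 = 3 := hmod
  refine ⟨p, by omega, hp, ?_⟩
  rw [val_GL 2 p Nat.prime_two hp (by omega) m]
  have h1 := val_sum h8 m
  have h2 : padicValNat 2 (m / 2).factorial ≤ m / 2 := by
    rcases Nat.eq_zero_or_pos (m / 2) with h0 | h0
    · rw [h0]
      simp
    · exact (padicValNat_factorial_lt_of_ne_zero 2 h0.ne').le
  omega

end Pool.Agent.Helper28.DB.M_Two
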