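import Pool.Agent.Helper28.DB.St

/-! Units of the group algebra of a rational vector space (MP_2bc838_lc). -/

set_option autoImplicit false

namespace Pool.Agent.Helper28.DB.M_Unit

open AddMonoidAlgebra

theorem main : StUnit := by
  classical
  intro E _ _ S T h
  have hS : S ≠ 0 := by
    rintro rfl
    rw [zero_mul] at h
    exact zero_ne_one h
  have hT : T ≠ 0 := by
    rintro rfl
    rw [mul_zero] at h
    exact zero_ne_one h
  have hne : ∀ P : Gr E, P ≠ 0 → P.coeff.support.Nonempty := by
    intro P hP
    rw [Finset.nonempty_iff_ne_empty]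
    intro h0
    apply hP
    ext v
    have : v ∉ P.coeff.support := by rw [h0]; simp
    simpa using this
  have hA := hne S hS
  have hB := hne T hT
  by_cases hc : 1 < S.coeff.support.card * T.coeff.support.card
  · exfalso
    obtain ⟨p, hp, q, hq, hpq, hup, huq⟩ := TwoUniqueSums.uniqueAdd_of_one_lt_card hc
    rw [Finset.mem_product] at hp hq
    have key : ∀ p : E × E, p.1 ∈ S.coeff.support → p.2 ∈ T.coeff.support →
        UniqueAdd S.coeff.support T.coeff.support p.1 p.2 → p.1 + p.2 = 0 := by
      intro p h1 h2 h3
      by_contra h4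
      have h5 := coeff_mul_add_of_uniqueAdd h3
      rw [h, one_def, coeff_single, Finsupp.single_apply, if_neg (Ne.symm h4)] at h5
      exact mul_ne_zero (Finsupp.mem_support_iff.1 h1) (Finsupp.mem_support_iff.1 h2) h5.symm
    have e1 := key p hp.1 hp.2 hup
    have e2 := key q hq.1 hq.2 huq
    have e3 := hup hq.1 hq.2 (by rw [e1, e2])
    exact hpq (Prod.ext e3.1.symm e3.2.symm)
  · have h1 : S.coeff.support.card = 1 := by
      have ha := hA.card_pos
      have hb := hB.card_pos
      nlinarith
    obtain ⟨v, hv⟩ := Finset.card_eq_one.1 h1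
    refine ⟨v, S.coeff v, ?_, ?_⟩
    · exact Finsupp.mem_support_iff.1 (by rw [hv]; simp)
    · conv_lhs => rw [sum_single S, hv, Finset.sum_singleton]

end Pool.Agent.Helper28.DB.M_Unit
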