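import Pool.Agent.Helper28.DB.Asm
import Pool.Agent.Helper28.DB.M_Adm
import Pool.Agent.Helper28.DB.M_B0
import Pool.Agent.Helper28.DB.M_BN
import Pool.Agent.Helper28.DB.M_Basis
import Pool.Agent.Helper28.DB.M_Chain
import Pool.Agent.Helper28.DB.M_Cmp
import Pool.Agent.Helper28.DB.M_Comm
import Pool.Agent.Helper28.DB.M_Core
import Pool.Agent.Helper28.DB.M_Count
import Pool.Agent.Helper28.DB.M_Desc
import Pool.Agent.Helper28.DB.M_Diff
import Pool.Agent.Helper28.DB.M_Down
import Pool.Agent.Helper28.DB.M_Emb
import Pool.Agent.Helper28.DB.M_FSL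
import Pool.Agent.Helper28.DB.M_Fox
import Pool.Agent.Helper28.DB.M_Frac
import Pool.Agent.Helper28.DB.M_Grp
import Pool.Agent.Helper28.DB.M_Inf
import Pool.Agent.Helper28.DB.M_Least
import Pool.Agent.Helper28.DB.M_Mink
import Pool.Agent.Helper28.DB.M_Mod
import Pool.Agent.Helper28.DB.M_Num
import Pool.Agent.Helper28.DB.M_Odd
import Pool.Agent.Helper28.DB.M_PL
import Pool.Agent.Helper28.DB.M_Red
import Pool.Agent.Helper28.DB.M_Shift
import Pool.Agent.Helper28.DB.M_Stab
import Pool.Agent.Helper28.DB.M_Stable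
import Pool.Agent.Helper28.DB.M_Subf
import Pool.Agent.Helper28.DB.M_T2
import Pool.Agent.Helper28.DB.M_TL
import Pool.Agent.Helper28.DB.M_Tr
import Pool.Agent.Helper28.DB.M_TrComp
import Pool.Agent.Helper28.DB.M_TrLin
import Pool.Agent.Helper28.DB.M_Two
import Pool.Agent.Helper28.DB.M_Unit

/-! All parts together. -/

set_option autoImplicit false

namespace Pool.Agent.Helper28.DB

theorem cmp' : StCmp := M_Cmp.main
theorem frac : StFrac := M_Frac.main cmp'
theorem subf : StSubf := M_Subf.main
theorem inf' : StInf := M_Inf.main cmp' frac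
theorem adm : StAdm := M_Adm.main cmp' frac
theorem tr : StTr := M_Tr.main adm subf
theorem trComp : StTrComp := M_TrComp.main adm tr
theorem trLin : StTrLin := M_TrLin.main
theorem shift : StShift := M_Shift.main trLin
theorem desc : StDesc := M_Desc.main subf
theorem least : StLeast := M_Least.main inf' subf
theorem basis : StBasis := M_Basis.main
theorem tl : StTL := M_TL.main basis shift adm
theorem stable : StStable := M_Stable.main basis tl adm tr trLin inf' subf
theorem stab : StStab := M_Stab.main basis adm tr trLin desc subf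
theorem count : StCount := M_Count.main least basis stable stab subf
theorem t2 : StT2 := M_T2.main shift
theorem pl : StPL := M_PL.main trLin
theorem b0 : StB0 := M_B0.main adm tr inf' subf
theorem bn : StBN := M_BN.main b0 adm
theorem down : StDown := M_Down.main adm tr trComp subf
theorem red : StRed := M_Red.main cmp'
theorem unit : StUnit := M_Unit.main
theorem diff : StDiff := M_Diff.main red unit tr
theorem fsl : StFSL := M_FSL.main diff subf
theorem chain : StChain := M_Chain.main
theorem emb : StEmb := M_Emb.main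
theorem mod' : StMod := M_Mod.main
theorem odd : StOdd := M_Odd.main
theorem two : StTwo := M_Two.main
theorem num : StNum := M_Num.main
theorem mink : StMink := M_Mink.main mod' odd two num
theorem grp : StGrp := M_Grp.main fsl tr trComp subf
theorem core : StCore := M_Core.main grp chain emb mink
theorem comm : StComm := M_Comm.main grp
theorem foxF : StFox := M_Fox.main

/-- The general bound. -/
theorem general' (n : ℕ) (h₁ h₂ : Fin n → List (Fin n)) (w₁ w₂ : List (Fin n))
    (hag : ∀ k, k < 2 * n + (n - 1) * (2 + Nat.log 2 n) → ws h₁ w₁ k = ws h₂ w₂ k) (k : ℕ) :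
    ws h₁ w₁ k = ws h₂ w₂ k :=
  general foxF count t2 pl b0 bn down core n h₁ h₂ w₁ w₂ hag k

/-- The exact bound under the criterion. -/
theorem exact' (n : ℕ) (h₁ h₂ : Fin n → List (Fin n))
    (hcrit : ∀ (N : Submodule ℚ (Fin n → ℚ)) (A' B' : N ≃ₗ[ℚ] N),
      (∀ v : N, (A' v : Fin n → ℚ) = parM h₁ v) → (∀ v : N, (B' v : Fin n → ℚ) = parM h₂ v) →
      IsOfFinOrder (A'⁻¹ * B') → A' * B' = B' * A')
    (w₁ w₂ : List (Fin n))
    (hag : ∀ k, k < 2 * n → ws h₁ w₁ k = ws h₂ w₂ k) (k : ℕ) :
    ws h₁ w₁ k = ws h₂ w₂ k :=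
  exact_bound foxF count t2 pl b0 bn down comm n h₁ h₂ hcrit w₁ w₂ hag k

end Pool.Agent.Helper28.DB
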