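import Pool.Agent.Helper28.DB.St

/-! Assembly of the bound from the parts. -/

set_option autoImplicit false

namespace Pool.Agent.Helper28.DB

open AddMonoidAlgebra

/-- The sequence of words of a system. -/
def ws {n : ℕ} (h : Fin n → List (Fin n)) (w : List (Fin n)) (k : ℕ) : List (Fin n) :=
  (fun u : List (Fin n) => u.flatMap h)^[k] w

theorem ws_succ {n : ℕ} (h : Fin n → List (Fin n)) (w : List (Fin n)) (k : ℕ) :
    ws h w (k + 1) = (ws h w k).flatMap h := by
  simp only [ws, Function.iterate_succ_apply']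

/-- A condition on two linear maps and a length `l` that allows to conclude on a subspace. -/
def Ok {E : Type} [AddCommGroup E] [Module ℚ E] [FiniteDimensional ℚ E] (A B : E →ₗ[ℚ] E)
    (l : ℕ) : Prop :=
  ∀ (N : Submodule ℚ E) (A' B' : N ≃ₗ[ℚ] N), (∀ v : N, (A' v : E) = A v) →
    (∀ v : N, (B' v : E) = B v) → ∀ (d : ℕ) (lam : ℕ → Fin d → Fr N) (p : ℕ → N),
    Core A' B' d lam p l → ∀ i j, Tr (B' : N →ₗ[ℚ] N) (lam i j) (lam (i + 1) j)

theorem main_of_ok (hFox : StFox) (hCount : StCount) (hT2 : StT2) (hPL : StPL) (hB0 : StB0)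
    (hBN : StBN) (hDown : StDown) (n : ℕ) (h₁ h₂ : Fin n → List (Fin n))
    (w₁ w₂ : List (Fin n)) (l : ℕ) (hok : Ok (parM h₁) (parM h₂) l)
    (hag : ∀ k, k < 2 * n + l → ws h₁ w₁ k = ws h₂ w₂ k) (k : ℕ) :
    ws h₁ w₁ k = ws h₂ w₂ k := by
  classical
  rcases Nat.eq_zero_or_pos n with hn | hn
  · subst hn
    have h0 : ∀ v : List (Fin 0), v = [] := fun v => by
      cases v with
      | nil => rfl
      | cons a _ => exact a.elim0
    rw [h0 (ws h₁ w₁ k), h0 (ws h₂ w₂ k)]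
  obtain ⟨hinj, hfs, hps, hz⟩ := hFox n
  set u : ℕ → Fin n → Gr (Fin n → ℚ) := fun i => fox (ws h₁ w₁ i) with hu
  set p : ℕ → Fin n → ℚ := fun i => par (ws h₁ w₁ i) with hp
  set A := parM h₁ with hA
  set B := parM h₂ with hB
  set J : Fin n → Fin n → Gr (Fin n → ℚ) := fun a => fox (h₁ a) with hJ
  set J' : Fin n → Fin n → Gr (Fin n → ℚ) := fun a => fox (h₂ a) with hJ'
  have hu1 : ∀ i, u (i + 1) = sh A J (u i) := fun i => by
    simp only [hu, ws_succ]; exact hfs h₁ _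
  have hp1 : ∀ i, p (i + 1) = A (p i) := fun i => by
    simp only [hp, ws_succ]; exact hps h₁ _
  have hpu : ∀ i, p i = 0 ↔ u i = 0 := fun i => hz _
  -- agreement
  have hstep : ∀ i, i + 1 < 2 * n + l → ws h₁ w₁ (i + 1) = (ws h₁ w₁ i).flatMap h₂ := by
    intro i hi
    rw [hag (i + 1) hi, hag i (by omega), ws_succ]
  have hu2 : ∀ i, i < 2 * n + l - 1 → u (i + 1) = sh B J' (u i) := fun i hi => by
    simp only [hu]
    rw [hstep i (by omega)]; exact hfs h₂ _
  have hp2 : ∀ i, i < 2 * n + l - 1 → p (i + 1) = B (p i) := fun i hi => by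
    simp only [hp]
    rw [hstep i (by omega)]; exact hps h₂ _
  -- the goal
  suffices hall : ∀ i, u (i + 1) = sh B J' (u i) by
    have h3 : ∀ i, ws h₁ w₁ (i + 1) = (ws h₁ w₁ i).flatMap h₂ := by
      intro i
      apply hinj
      rw [hfs h₂]
      exact hall i
    have h4 : ∀ k, ws h₁ w₁ k = ws h₂ w₂ k := by
      intro k
      induction k with
      | zero => exact hag 0 (by omega)
      | succ k ih => rw [h3, ih, ws_succ]
    exact h4 k
  rcases hCount (Fin n → ℚ) n A J u p (by simp) hu1 hp1 hpu with h0 | ⟨i₀, d, N, lam, hsum, hS⟩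
  · intro i
    by_cases hi : i < 2 * n + l - 1
    · exact hu2 i hi
    · rw [h0 (i + 1) (by omega), h0 i (by omega)]
      funext c
      simp [sh]
  have hν : 1 ≤ Module.finrank ℚ N := by
    have h1 := hS.p_mem i₀ le_rfl
    have h2 := hS.p_ne i₀ le_rfl
    have : Nontrivial N := ⟨⟨⟨p i₀, h1⟩, 0, fun h => h2 (congrArg Subtype.val h)⟩⟩
    exact Module.finrank_pos
  have hd := hS.d_pos
  have htB := hT2 (Fin n → ℚ) n A B J' u p i₀ d N lam (2 * n + l - 1) hS hu2
  have hBN' : N.map B = N := hBN (Fin n → ℚ) n A B u p i₀ d N lam hS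
    (fun i h1 h2 j => htB i h1 (by omega) j) (fun i h1 h2 => hp2 i (by omega))
  -- restrict to N
  have hinjA : ∀ v ∈ N, A v = 0 → v = 0 := by
    have hs : Function.Surjective (A.restrict (p := N) (q := N)
        (fun v hv => by rw [← hS.map_eq]; exact Submodule.mem_map_of_mem hv)) := by
      rintro ⟨v, hv⟩
      rw [← hS.map_eq] at hv
      obtain ⟨w, hw, rfl⟩ := hv
      exact ⟨⟨w, hw⟩, rfl⟩
    have hi := LinearMap.injective_iff_surjective.2 hs
    intro v hv h0
    have := @hi ⟨v, hv⟩ 0 (by ext1; simpa using h0)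
    exact congrArg Subtype.val this
  have hinjB : ∀ v ∈ N, B v = 0 → v = 0 := by
    have hs : Function.Surjective (B.restrict (p := N) (q := N)
        (fun v hv => by rw [← hBN']; exact Submodule.mem_map_of_mem hv)) := by
      rintro ⟨v, hv⟩
      rw [← hBN'] at hv
      obtain ⟨w, hw, rfl⟩ := hv
      exact ⟨⟨w, hw⟩, rfl⟩
    have hi := LinearMap.injective_iff_surjective.2 hs
    intro v hv h0
    have := @hi ⟨v, hv⟩ 0 (by ext1; simpa using h0)
    exact congrArg Subtype.val this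
  set A₁ : N →ₗ[ℚ] N := A.restrict (p := N) (q := N)
        (fun v hv => by rw [← hS.map_eq]; exact Submodule.mem_map_of_mem hv) with hA₁
  set B₁ : N →ₗ[ℚ] N := B.restrict (p := N) (q := N)
        (fun v hv => by rw [← hBN']; exact Submodule.mem_map_of_mem hv) with hB₁
  set A' : N ≃ₗ[ℚ] N := LinearEquiv.ofInjectiveEndo A₁ (by
    rw [injective_iff_map_eq_zero]
    intro v hv
    ext1
    exact hinjA v v.2 (congrArg Subtype.val hv)) with hA'
  set B' : N ≃ₗ[ℚ] N := LinearEquiv.ofInjectiveEndo B₁ (by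
    rw [injective_iff_map_eq_zero]
    intro v hv
    ext1
    exact hinjB v v.2 (congrArg Subtype.val hv)) with hB'
  have hAv : ∀ v : N, (A' v : Fin n → ℚ) = A v := fun v => rfl
  have hBv : ∀ v : N, (B' v : Fin n → ℚ) = B v := fun v => rfl
  obtain ⟨hd1, hd2, hd3⟩ := hDown (Fin n → ℚ) N
  have hex : ∀ i j, ∃ g : Fr N, i₀ ≤ i → Tr N.subtype g (lam i j) := by
    intro i j
    by_cases hi : i₀ ≤ i
    · obtain ⟨g, hg⟩ := hd1 (lam i j) (hS.lam_mem i hi j)
      exact ⟨g, fun _ => hg⟩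
    · exact ⟨0, fun h => absurd h hi⟩
  choose mu hmu using hex
  have hmu' : ∀ i j, Tr N.subtype (mu (i₀ + i) j) (lam (i₀ + i) j) := fun i j =>
    hmu (i₀ + i) j (by omega)
  set q : ℕ → N := fun i => ⟨p (i₀ + i), hS.p_mem _ (by omega)⟩ with hq
  have hcore : Core A' B' d (fun i => mu (i₀ + i)) q l := by
    refine ⟨?_, ?_, ?_, hd, ?_, ?_, ?_⟩
    · intro h
      exact hS.p_ne i₀ le_rfl (congrArg Subtype.val h)
    · intro i j
      exact (hd3 A A' hAv hinjA _ _ _ _ (hmu' i j) (hmu' (i + 1) j)).1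
        (hS.trA (i₀ + i) (by omega) j)
    · intro i
      ext1
      exact hp1 (i₀ + i)
    · intro E' h1 h2
      have key : N ≤ E'.map N.subtype := by
        refine hB0 (Fin n → ℚ) n A u p i₀ d N lam hS i₀ le_rfl _ ?_ ?_
        · intro i hi1 hi2 j
          obtain ⟨i, rfl⟩ := Nat.exists_eq_add_of_le hi1
          exact (hd2 _ _ (hmu' i j) E').1 (h1 i (by omega) j)
        · intro i hi1 hi2
          obtain ⟨i, rfl⟩ := Nat.exists_eq_add_of_le hi1
          exact ⟨q i, h2 i (by omega), rfl⟩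
      rw [eq_top_iff]
      rintro ⟨v, hv⟩ -
      obtain ⟨w, hw, hwv⟩ := key hv
      have : w = ⟨v, hv⟩ := by ext1; exact hwv
      rwa [← this]
    · intro i hi j
      exact (hd3 B B' hBv hinjB _ _ _ _ (hmu' i j) (hmu' (i + 1) j)).1
        (htB (i₀ + i) (by omega) (by omega) j)
    · intro i hi
      ext1
      exact hp2 (i₀ + i) (by omega)
  have hfin := hok N A' B' hAv hBv d _ q hcore
  have htB' : ∀ i, i₀ ≤ i → ∀ j, Tr B (lam i j) (lam (i + 1) j) := by
    intro i hi j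
    obtain ⟨i, rfl⟩ := Nat.exists_eq_add_of_le hi
    exact (hd3 B B' hBv hinjB _ _ _ _ (hmu' i j) (hmu' (i + 1) j)).2 (hfin i j)
  have hlate := hPL (Fin n → ℚ) n A B J' u p i₀ d N lam hS htB'
    (fun i h1 h2 => hu2 i (by omega))
  intro i
  by_cases hi : i₀ ≤ i
  · exact hlate i hi
  · exact hu2 i (by omega)

/-- The general bound. -/
theorem general (hFox : StFox) (hCount : StCount) (hT2 : StT2) (hPL : StPL) (hB0 : StB0)
    (hBN : StBN) (hDown : StDown) (hCore : StCore) (n : ℕ) (h₁ h₂ : Fin n → List (Fin n))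
    (w₁ w₂ : List (Fin n))
    (hag : ∀ k, k < 2 * n + (n - 1) * (2 + Nat.log 2 n) → ws h₁ w₁ k = ws h₂ w₂ k) (k : ℕ) :
    ws h₁ w₁ k = ws h₂ w₂ k := by
  refine main_of_ok hFox hCount hT2 hPL hB0 hBN hDown n h₁ h₂ w₁ w₂ _ ?_ hag k
  intro N A' B' _ _ d lam p hc
  refine hCore N A' B' d lam p _ hc ?_
  have h1 : Module.finrank ℚ N ≤ n := by
    have := Submodule.finrank_le N
    simpa using this
  exact Nat.mul_le_mul (by omega) (by
    have := Nat.log_mono_right (b := 2) h1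
    omega)

/-- The criterion for the exact bound. -/
theorem exact_bound (hFox : StFox) (hCount : StCount) (hT2 : StT2) (hPL : StPL) (hB0 : StB0)
    (hBN : StBN) (hDown : StDown) (hComm : StComm) (n : ℕ) (h₁ h₂ : Fin n → List (Fin n))
    (hcrit : ∀ (N : Submodule ℚ (Fin n → ℚ)) (A' B' : N ≃ₗ[ℚ] N),
      (∀ v : N, (A' v : Fin n → ℚ) = parM h₁ v) → (∀ v : N, (B' v : Fin n → ℚ) = parM h₂ v) →
      IsOfFinOrder (A'⁻¹ * B') → A' * B' = B' * A')
    (w₁ w₂ : List (Fin n))
    (hag : ∀ k, k < 2 * n → ws h₁ w₁ k = ws h₂ w₂ k) (k : ℕ) :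
    ws h₁ w₁ k = ws h₂ w₂ k := by
  refine main_of_ok hFox hCount hT2 hPL hB0 hBN hDown n h₁ h₂ w₁ w₂ 0 ?_ (by simpa using hag) k
  intro N A' B' hA hB d lam p hc
  exact hComm N A' B' d lam p hc (hcrit N A' B' hA hB)

end Pool.Agent.Helper28.DB
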