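import Mathlib

/-! Base definitions for the bound on D0L sequence equivalence (MP_2bc838_lc): group algebras of
rational vector spaces, supports, induced maps, the transport relation. -/

set_option autoImplicit false
set_option linter.unusedSectionVars false

namespace Pool.Agent.Helper28.DB

open AddMonoidAlgebra

/-- The group algebra of a rational vector space `E`. -/
abbrev Gr (E : Type) [AddCommGroup E] : Type := AddMonoidAlgebra ℚ E

/-- Its field of fractions. -/
abbrev Fr (E : Type) [AddCommGroup E] : Type := FractionRing (Gr E)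

section

variable {E E' E'' : Type} [AddCommGroup E] [Module ℚ E] [AddCommGroup E'] [Module ℚ E']
  [AddCommGroup E''] [Module ℚ E'']

/-- The ring homomorphism of group algebras induced by a linear map. -/
noncomputable def gm (A : E →ₗ[ℚ] E') : Gr E →+* Gr E' :=
  AddMonoidAlgebra.mapDomainRingHom ℚ A.toAddMonoidHom

/-- The inclusion of the group algebra in its field of fractions. -/
noncomputable def io : Gr E →+* Fr E := algebraMap (Gr E) (Fr E)

/-- All exponents of `P` lie in `N`. -/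
def Supp (N : Submodule ℚ E) (P : Gr E) : Prop := ∀ v ∈ P.coeff.support, v ∈ N

/-- `f` is a quotient of two elements with exponents in `N`. -/
def InK (N : Submodule ℚ E) (f : Fr E) : Prop :=
  ∃ P D : Gr E, D ≠ 0 ∧ Supp N P ∧ Supp N D ∧ f * io D = io P

/-- `f'` is the transport of `f` under `A`. -/
def Tr (A : E →ₗ[ℚ] E') (f : Fr E) (f' : Fr E') : Prop :=
  ∃ P D : Gr E, gm A D ≠ 0 ∧ f * io D = io P ∧ f' * io (gm A D) = io (gm A P)

/-- The vector over the field of fractions given by a vector over the group algebra. -/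
noncomputable def iv {n : ℕ} (u : Fin n → Gr E) : Fin n → Fr E := fun c => io (u c)

/-- The shift `u ↦ A_*(u) J`. -/
noncomputable def sh {n : ℕ} (A : E →ₗ[ℚ] E') (J : Fin n → Fin n → Gr E') (u : Fin n → Gr E) :
    Fin n → Gr E' := fun c => ∑ a, gm A (u a) * J a c

/-- Good subspaces at time `i` for the sequences `u`, `p`. -/
def Good {n : ℕ} (u : ℕ → Fin n → Gr E) (p : ℕ → E) (N : Submodule ℚ E) (i : ℕ) : Prop :=
  (∀ (m : ℕ) (s : Fin m → ℕ), (∀ t, i ≤ s t) →
    LinearIndependent (Fr E) (fun t => iv (u (s t))) →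
    ∀ k, i ≤ k → ∀ c : Fin m → Fr E, iv (u k) = ∑ t, c t • iv (u (s t)) → ∀ t, InK N (c t)) ∧
  ∀ k, i ≤ k → p k ∈ N

/-- The dimension of the span of the later vectors. -/
noncomputable def dm {n : ℕ} (u : ℕ → Fin n → Gr E) (i : ℕ) : ℕ :=
  Module.finrank (Fr E) (Submodule.span (Fr E) {x : Fin n → Fr E | ∃ k, i ≤ k ∧ x = iv (u k)})

/-- The data in the stable range. -/
structure Stab {n : ℕ} (A : E →ₗ[ℚ] E) (u : ℕ → Fin n → Gr E) (p : ℕ → E) (i₀ d : ℕ)
    (N : Submodule ℚ E) (lam : ℕ → Fin d → Fr E) : Prop where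
  d_pos : 1 ≤ d
  indep : ∀ i, i₀ ≤ i → LinearIndependent (Fr E) (fun j : Fin d => iv (u (i + j)))
  rel : ∀ i, i₀ ≤ i → iv (u (i + d)) = ∑ j : Fin d, lam i j • iv (u (i + j))
  lam_mem : ∀ i, i₀ ≤ i → ∀ j, InK N (lam i j)
  p_mem : ∀ i, i₀ ≤ i → p i ∈ N
  p_ne : ∀ i, i₀ ≤ i → p i ≠ 0
  p_succ : ∀ i, p (i + 1) = A (p i)
  map_eq : N.map A = N
  trA : ∀ i, i₀ ≤ i → ∀ j, Tr A (lam i j) (lam (i + 1) j)
  minimal : ∀ N' : Submodule ℚ E, N' ≤ N → ∀ i₁, i₀ ≤ i₁ →
    (∀ i, i₁ ≤ i → ∀ j, InK N' (lam i j)) → (∀ i, i₁ ≤ i → p i ∈ N') → N' = N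

/-! ### Basic facts -/

theorem io_injective : Function.Injective (io : Gr E → Fr E) :=
  IsFractionRing.injective (Gr E) (Fr E)

theorem io_eq_zero {P : Gr E} : io P = 0 ↔ P = 0 := by
  rw [← map_zero (io : Gr E →+* Fr E)]
  exact io_injective.eq_iff

theorem io_ne_zero {P : Gr E} : io P ≠ 0 ↔ P ≠ 0 := io_eq_zero.not

theorem exists_frac (f : Fr E) : ∃ P D : Gr E, D ≠ 0 ∧ f * io D = io P := by
  obtain ⟨⟨P, D⟩, h⟩ := IsLocalization.surj (nonZeroDivisors (Gr E)) f
  exact ⟨P, D, nonZeroDivisors.ne_zero D.2, h⟩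

@[simp] theorem gm_single (A : E →ₗ[ℚ] E') (v : E) (r : ℚ) :
    gm A (single v r) = single (A v) r := by
  simp [gm]

theorem gm_coeff (A : E →ₗ[ℚ] E') (P : Gr E) :
    (gm A P).coeff = Finsupp.mapDomain A P.coeff := rfl

theorem gm_comp (B : E' →ₗ[ℚ] E'') (A : E →ₗ[ℚ] E') (P : Gr E) :
    gm (B ∘ₗ A) P = gm B (gm A P) := by
  ext1
  rw [gm_coeff, gm_coeff, gm_coeff, ← Finsupp.mapDomain_comp]
  rfl

theorem gm_id (P : Gr E) : gm (LinearMap.id : E →ₗ[ℚ] E) P = P := by
  ext1
  rw [gm_coeff]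
  exact Finsupp.mapDomain_id

/-- Expansion in monomials. -/
theorem sum_single (P : Gr E) : P = ∑ v ∈ P.coeff.support, single v (P.coeff v) := by
  ext1
  rw [coeff_sum]
  simp only [coeff_single]
  exact (Finsupp.sum_single P.coeff).symm

theorem gm_eq_sum (A : E →ₗ[ℚ] E') (P : Gr E) :
    gm A P = ∑ v ∈ P.coeff.support, single (A v) (P.coeff v) := by
  conv_lhs => rw [sum_single P]
  rw [map_sum]
  simp

theorem Supp.mono {N N' : Submodule ℚ E} (h : N ≤ N') {P : Gr E} (hP : Supp N P) : Supp N' P :=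
  fun v hv => h (hP v hv)

theorem supp_top (P : Gr E) : Supp ⊤ P := fun _ _ => trivial

theorem supp_zero (N : Submodule ℚ E) : Supp N (0 : Gr E) := by
  intro v hv; simp at hv

theorem supp_single {N : Submodule ℚ E} {v : E} (hv : v ∈ N) (r : ℚ) :
    Supp N (single v r) := by
  intro w hw
  rw [coeff_single] at hw
  have := Finsupp.support_single_subset hw
  rw [Finset.mem_singleton] at this
  rwa [this]

theorem supp_one (N : Submodule ℚ E) : Supp N (1 : Gr E) := supp_single N.zero_mem 1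

theorem Supp.add {N : Submodule ℚ E} {P Q : Gr E} (hP : Supp N P) (hQ : Supp N Q) :
    Supp N (P + Q) := by
  classical
  intro v hv
  rw [coeff_add] at hv
  rcases Finset.mem_union.1 (Finsupp.support_add hv) with h | h
  · exact hP v h
  · exact hQ v h

theorem Supp.neg {N : Submodule ℚ E} {P : Gr E} (hP : Supp N P) : Supp N (-P) := by
  intro v hv
  apply hP
  simpa using hv

theorem Supp.sub {N : Submodule ℚ E} {P Q : Gr E} (hP : Supp N P) (hQ : Supp N Q) :
    Supp N (P - Q) := by
  rw [sub_eq_add_neg]; exact hP.add hQ.neg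

theorem Supp.mul {N : Submodule ℚ E} {P Q : Gr E} (hP : Supp N P) (hQ : Supp N Q) :
    Supp N (P * Q) := by
  classical
  intro v hv
  obtain ⟨a, ha, b, hb, rfl⟩ := Finset.mem_add.1 (support_coeff_mul_subset P Q hv)
  exact N.add_mem (hP a ha) (hQ b hb)

theorem supp_sum {N : Submodule ℚ E} {ι : Type} (s : Finset ι) (f : ι → Gr E)
    (h : ∀ i ∈ s, Supp N (f i)) : Supp N (∑ i ∈ s, f i) := by
  classical
  induction s using Finset.induction_on with
  | empty => simpa using supp_zero N
  | insert a s ha ih =>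
    rw [Finset.sum_insert ha]
    exact (h a (Finset.mem_insert_self a s)).add
      (ih fun i hi => h i (Finset.mem_insert_of_mem hi))

theorem supp_prod {N : Submodule ℚ E} {ι : Type} (s : Finset ι) (f : ι → Gr E)
    (h : ∀ i ∈ s, Supp N (f i)) : Supp N (∏ i ∈ s, f i) := by
  classical
  induction s using Finset.induction_on with
  | empty => simpa using supp_one N
  | insert a s ha ih =>
    rw [Finset.prod_insert ha]
    exact (h a (Finset.mem_insert_self a s)).mul
      (ih fun i hi => h i (Finset.mem_insert_of_mem hi))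

theorem Supp.gm {N : Submodule ℚ E} {P : Gr E} (hP : Supp N P) (A : E →ₗ[ℚ] E') :
    Supp (N.map A) (gm A P) := by
  rw [gm_eq_sum]
  exact supp_sum _ _ fun v hv => supp_single (Submodule.mem_map_of_mem (hP v hv)) _

/-- Two maps that agree on `N` agree on elements with exponents in `N`. -/
theorem gm_congr {N : Submodule ℚ E} {A B : E →ₗ[ℚ] E'} (h : ∀ v ∈ N, A v = B v) {P : Gr E}
    (hP : Supp N P) : DB.gm A P = DB.gm B P := by
  rw [gm_eq_sum, gm_eq_sum]
  exact Finset.sum_congr rfl fun v hv => by rw [h v (hP v hv)]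

/-- If `A` is injective on `N` then `A_*` is injective on elements with exponents in `N`. -/
theorem gm_ne_zero {N : Submodule ℚ E} {A : E →ₗ[ℚ] E'} (h : ∀ v ∈ N, A v = 0 → v = 0)
    {P : Gr E} (hP : Supp N P) (h0 : P ≠ 0) : DB.gm A P ≠ 0 := by
  classical
  obtain ⟨v, hv⟩ : ∃ v, P.coeff v ≠ 0 := by
    by_contra hcon
    push Not at hcon
    exact h0 (by ext v; simpa using hcon v)
  intro hz
  apply hv
  have hv' : v ∈ P.coeff.support := Finsupp.mem_support_iff.2 hv
  have h1 : (DB.gm A P).coeff (A v) = P.coeff v := by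
    rw [gm_eq_sum, coeff_sum, Finsupp.finsetSum_apply, Finset.sum_eq_single v]
    · simp
    · intro w hw hne
      rw [coeff_single, Finsupp.single_apply, if_neg]
      intro he
      apply hne
      have : w - v = 0 := h _ (N.sub_mem (hP w hw) (hP v hv')) (by rw [map_sub, he, sub_self])
      exact sub_eq_zero.1 this
    · intro h; exact absurd hv' h
  rw [← h1, hz]
  simp

end

end Pool.Agent.Helper28.DB
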