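import Pool.Agent.Helper28.DB.St

/-! Module FSL (MP_2bc838_lc). -/

set_option autoImplicit false

namespace Pool.Agent.Helper28.DB.M_FSL

theorem main (hDiff : StDiff) (hSubf : StSubf) : StFSL := by
  classical
  intro E _ _ _ ι κ _ _ f p hmin
  have _ := Fintype.ofFinite ι
  have _ := Fintype.ofFinite κ
  choose s hs1 hs2 using fun i => hDiff E (f i)
  set S : Finset E := (Finset.univ.biUnion s) ∪ Finset.univ.image p with hS
  have hsS : ∀ i, ((s i : Finset E) : Set E) ⊆ S := by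
    intro i v hv
    rw [hS, Finset.coe_union]
    exact Or.inl (Finset.mem_biUnion.2 ⟨i, Finset.mem_univ i, hv⟩)
  have hpS : ∀ k, p k ∈ S := by
    intro k
    rw [hS, Finset.mem_union]
    exact Or.inr (Finset.mem_image.2 ⟨k, Finset.mem_univ k, rfl⟩)
  have htop : Submodule.span ℚ (S : Set E) = ⊤ := by
    apply hmin
    · intro i
      exact (hSubf E).2.1 _ _ (Submodule.span_mono (hsS i)) _ (hs1 i)
    · intro k
      exact Submodule.subset_span (hpS k)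
  have hmap : ∀ θ : E ≃ₗ[ℚ] E, ((∀ i, Tr (θ : E →ₗ[ℚ] E) (f i) (f i)) ∧ ∀ k, θ (p k) = p k) →
      ∀ v ∈ S, θ v ∈ S := by
    rintro θ ⟨h1, h2⟩ v hv
    rw [hS, Finset.mem_union] at hv
    rcases hv with hv | hv
    · obtain ⟨i, -, hi⟩ := Finset.mem_biUnion.1 hv
      exact hsS i (hs2 i θ (h1 i) v hi)
    · obtain ⟨k, -, rfl⟩ := Finset.mem_image.1 hv
      rw [h2]
      exact hpS k
  let Φ : {θ : E ≃ₗ[ℚ] E | (∀ i, Tr (θ : E →ₗ[ℚ] E) (f i) (f i)) ∧ ∀ k, θ (p k) = p k} →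
      (S → S) := fun θ v => ⟨θ.1 v, hmap θ.1 θ.2 v v.2⟩
  have hinj : Function.Injective Φ := by
    rintro ⟨θ, hθ⟩ ⟨θ', hθ'⟩ h
    apply Subtype.ext
    change θ = θ'
    have h1 : ∀ v ∈ (S : Set E), θ v = θ' v := by
      intro v hv
      exact congrArg Subtype.val (congrFun h ⟨v, hv⟩)
    have h2 : (θ : E →ₗ[ℚ] E) = (θ' : E →ₗ[ℚ] E) := LinearMap.ext_on htop h1
    exact LinearEquiv.toLinearMap_injective h2
  have hfin : Finite {θ : E ≃ₗ[ℚ] E | (∀ i, Tr (θ : E →ₗ[ℚ] E) (f i) (f i)) ∧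
      ∀ k, θ (p k) = p k} := Finite.of_injective Φ hinj
  exact Set.toFinite _

end Pool.Agent.Helper28.DB.M_FSL
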