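import Pool.Agent.Helper28.DB.St

/-! Module Stable (MP_2bc838_lc): a stable step is stable forever. -/

set_option autoImplicit false

namespace Pool.Agent.Helper28.DB.M_Stable

open AddMonoidAlgebra

theorem good_mono {E : Type} [AddCommGroup E] [Module ℚ E] {n : ℕ} {u : ℕ → Fin n → Gr E}
    {p : ℕ → E} {N : Submodule ℚ E} {i k : ℕ} (hik : i ≤ k) (h : Good u p N i) :
    Good u p N k :=
  ⟨fun m s hs hli j hj => h.1 m s (fun t => hik.trans (hs t)) hli j (hik.trans hj),
    fun j hj => h.2 j (hik.trans hj)⟩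

/-- injectivity on `N` if the image has the same dimension -/
theorem inj_of_map {E : Type} [AddCommGroup E] [Module ℚ E] [FiniteDimensional ℚ E]
    (A : E →ₗ[ℚ] E) (N : Submodule ℚ E) (h : N.map A = N) : ∀ v ∈ N, A v = 0 → v = 0 := by
  have h1 := LinearMap.finrank_range_add_finrank_ker (A ∘ₗ N.subtype)
  have h2 : LinearMap.range (A ∘ₗ N.subtype) = N := by
    rw [LinearMap.range_comp, Submodule.range_subtype, h]
  rw [h2] at h1
  have h3 : Module.finrank ℚ (LinearMap.ker (A ∘ₗ N.subtype)) = 0 := by omega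
  have h4 : LinearMap.ker (A ∘ₗ N.subtype) = ⊥ := Submodule.finrank_eq_zero.1 h3
  intro v hv h0
  have h5 : (⟨v, hv⟩ : N) ∈ LinearMap.ker (A ∘ₗ N.subtype) := by
    rw [LinearMap.mem_ker]
    exact h0
  rw [h4, Submodule.mem_bot] at h5
  exact congrArg Subtype.val h5

/-- a left inverse on `N` -/
theorem exists_inv {E : Type} [AddCommGroup E] [Module ℚ E]
    (A : E →ₗ[ℚ] E) (N : Submodule ℚ E) (h : ∀ v ∈ N, A v = 0 → v = 0) :
    ∃ A' : E →ₗ[ℚ] E, ∀ v ∈ N, A' (A v) = v := by
  have h1 : LinearMap.ker (A ∘ₗ N.subtype) = ⊥ := by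
    rw [LinearMap.ker_eq_bot']
    intro v hv
    exact Subtype.ext (h v v.2 hv)
  obtain ⟨g, hg⟩ := LinearMap.exists_leftInverse_of_injective (A ∘ₗ N.subtype) h1
  refine ⟨N.subtype ∘ₗ g, fun v hv => ?_⟩
  have h2 := congrArg (fun q : N →ₗ[ℚ] N => (q ⟨v, hv⟩ : E)) hg
  exact h2

theorem main (hBasis : StBasis) (hTL : StTL) (hAdm : StAdm) (hTr : StTr) (hTrLin : StTrLin)
    (hInf : StInf) (hSubf : StSubf) : StStable := by
  have _ := hSubf
  intro E _ _ _ n A J u p hu hp i N hdm hG hL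
  -- the image
  have hAN : N.map A = N :=
    (Submodule.eq_of_le_of_finrank_le (hL _ (hTL E n A J u p hu hp i N hdm hG))
      (Submodule.finrank_map_le A N)).symm
  have hinj := inj_of_map A N hAN
  obtain ⟨A', hA'⟩ := exists_inv A N hinj
  -- basis facts without casts
  have B1 : ∀ k d, dm u k = d → ∀ (m : ℕ) (s : Fin m → ℕ), (∀ t, k ≤ s t) →
      LinearIndependent (Fr E) (fun t => iv (u (s t))) → m ≤ d ∧
      ∃ (s' : Fin d → ℕ) (e : Fin m → Fin d), (∀ t, k ≤ s' t) ∧
        LinearIndependent (Fr E) (fun t => iv (u (s' t))) ∧ Function.Injective e ∧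
        ∀ t, s' (e t) = s t := by
    intro k d h
    subst h
    exact (hBasis E n u k).1
  have B2 : ∀ k d, dm u k = d → ∀ s : Fin d → ℕ, (∀ t, k ≤ s t) →
      LinearIndependent (Fr E) (fun t => iv (u (s t))) → ∀ j, k ≤ j →
      ∃ c : Fin d → Fr E, iv (u j) = ∑ t, c t • iv (u (s t)) := by
    intro k d h
    subst h
    exact (hBasis E n u k).2.1
  have B3 : ∀ k d, dm u k = d → ∀ s : Fin d → ℕ, (∀ t, k ≤ s t) →
      (∀ j, k ≤ j → ∃ c : Fin d → Fr E, iv (u j) = ∑ t, c t • iv (u (s t))) →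
      LinearIndependent (Fr E) (fun t => iv (u (s t))) := by
    intro k d h
    subst h
    exact (hBasis E n u k).2.2.1
  have B4 : ∀ k, dm u (k + 1) ≤ dm u k := fun k => (hBasis E n u k).2.2.2.1
  -- the shift fact
  have S : ∀ (m : ℕ) (s : Fin m → ℕ) (k : ℕ) (c : Fin m → Fr E), (∀ t, InK N (c t)) →
      iv (u k) = ∑ t, c t • iv (u (s t)) → ∃ c' : Fin m → Fr E, (∀ t, Tr A (c t) (c' t)) ∧
        iv (u (k + 1)) = ∑ t, c' t • iv (u (s t + 1)) := by
    intro m s k c hc hrel
    choose c' hc' using fun t => (hTr E E A).2.2.2.2.1 N hinj (c t) (hc t)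
    refine ⟨c', hc', ?_⟩
    have h1 := hTrLin E E n m A J (fun t => u (s t)) (u k) c c' hrel hc'
    rw [hu k]
    simp only [hu]
    exact h1
  -- one step forward for bases
  have FW : ∀ k, i ≤ k → ∀ d, dm u k = d → dm u (k + 1) = d → ∀ s : Fin d → ℕ,
      (∀ t, k ≤ s t) → LinearIndependent (Fr E) (fun t => iv (u (s t))) →
      LinearIndependent (Fr E) (fun t => iv (u (s t + 1))) := by
    intro k hk d hd hd1 s hs hli
    refine B3 (k + 1) d hd1 (fun t => s t + 1) (fun t => Nat.succ_le_succ (hs t)) ?_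
    intro j hj
    obtain ⟨j, rfl⟩ : ∃ j', j = j' + 1 := ⟨j - 1, by omega⟩
    obtain ⟨c, hc⟩ := B2 k d hd s hs hli j (by omega)
    obtain ⟨c', _, hc'⟩ := S d s j c ((good_mono hk hG).1 d s hs hli j (by omega) c hc) hc
    exact ⟨c', hc'⟩
  -- dimensions
  have D : ∀ l, dm u (i + l) = dm u i ∧ dm u (i + l + 1) = dm u i := by
    intro l
    induction l with
    | zero => exact ⟨rfl, hdm⟩
    | succ l ih =>
      obtain ⟨h1, h2⟩ := ih
      refine ⟨h2, le_antisymm ((B4 _).trans h2.le) ?_⟩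
      obtain ⟨_, s, _, hs, hli, _, _⟩ := B1 (i + l + 1) (dm u i) h2 0 (fun t => t.elim0)
        (fun t => t.elim0) (linearIndependent_empty_type)
      have h3 := FW (i + l) (by omega) (dm u i) h1 h2 s (fun t => by have := hs t; omega) hli
      exact (B1 (i + (l + 1) + 1) _ rfl (dm u i) (fun t => s t + 1)
        (fun t => by have := hs t; omega) h3).1
  have D' : ∀ k, i ≤ k → dm u k = dm u i := by
    intro k hk
    obtain ⟨l, rfl⟩ := Nat.exists_eq_add_of_le hk
    exact (D l).1
  -- one step forward for independent families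
  have F : ∀ k, i ≤ k → ∀ (m : ℕ) (s : Fin m → ℕ), (∀ t, k ≤ s t) →
      LinearIndependent (Fr E) (fun t => iv (u (s t))) →
      LinearIndependent (Fr E) (fun t => iv (u (s t + 1))) := by
    intro k hk m s hs hli
    obtain ⟨_, s', e, hs', hli', he, hse⟩ := B1 k (dm u i) (D' k hk) m s hs hli
    have h1 := (FW k hk (dm u i) (D' k hk) (D' (k + 1) (by omega)) s' hs' hli').comp e he
    have h2 : (fun t => iv (u (s t + 1))) = (fun t => iv (u (s' t + 1))) ∘ e := by
      funext t
      simp only [Function.comp, hse]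
    rw [h2]
    exact h1
  -- leastness
  have L : ∀ l, ∀ N' : Submodule ℚ E, Good u p N' (i + l) → N ≤ N' := by
    intro l
    induction l with
    | zero => exact fun N' h => hL N' (good_mono (by omega) h)
    | succ l ih =>
      intro N' hN'
      have hk : i ≤ i + l := by omega
      have hGk := good_mono hk hG
      have hM : Good u p (N' ⊓ N) (i + l + 1) := by
        have hGk1 := good_mono (show i ≤ i + l + 1 by omega) hG
        refine ⟨fun m s hs hli j hj c hc t => ?_, fun j hj => ⟨hN'.2 j hj, hGk1.2 j hj⟩⟩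
        exact hInf E N' N (c t) (hN'.1 m s hs hli j hj c hc t) (hGk1.1 m s hs hli j hj c hc t)
      have hM' : Good u p ((N' ⊓ N).map A') (i + l) := by
        refine ⟨fun m s hs hli j hj c hc t => ?_, fun j hj => ?_⟩
        · have h1 := hGk.1 m s hs hli j hj c hc
          obtain ⟨c', hc', hrel⟩ := S m s j c h1 hc
          have h2 := hM.1 m (fun t => s t + 1) (fun t => Nat.succ_le_succ (hs t))
            (F (i + l) hk m s hs hli) (j + 1) (by omega) c' hrel t
          have h3 := (hTr E E A).2.2.2.2.2 N hinj (c t) (c' t) (h1 t) (hc' t) A' hA'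
          exact (hAdm E E A' (N' ⊓ N) (c' t) (c t) h2 h3).2.1
        · refine ⟨p (j + 1), hM.2 (j + 1) (by omega), ?_⟩
          rw [hp j]
          exact hA' _ (hGk.2 j hj)
      have h4 : N ≤ (N' ⊓ N).map A' := ih _ hM'
      have h5 : Module.finrank ℚ N ≤ Module.finrank ℚ ↥(N' ⊓ N) :=
        (Submodule.finrank_mono h4).trans (Submodule.finrank_map_le A' _)
      have h6 : N' ⊓ N = N := Submodule.eq_of_le_of_finrank_le inf_le_right h5
      rw [← h6]
      exact inf_le_left
  refine ⟨hAN, fun k hk => ⟨D' k hk, good_mono hk hG, ?_⟩⟩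
  obtain ⟨l, rfl⟩ := Nat.exists_eq_add_of_le hk
  exact L l

end Pool.Agent.Helper28.DB.M_Stable
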