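import Pool.Agent.Helper28.DB.All

/-! The criterion for the exact bound in terms of roots of unity. -/

set_option autoImplicit false

namespace Pool.Agent.Helper28.DB

open Matrix

/-- The incidence matrix of a morphism, rows are the Parikh vectors of the images. -/
def inc {n : ℕ} (h : Fin n → List (Fin n)) : Matrix (Fin n) (Fin n) ℚ :=
  Matrix.of fun a b => ((h a).count b : ℚ)

theorem parM_eq {n : ℕ} (h : Fin n → List (Fin n)) (v : Fin n → ℚ) :
    parM h v = v ᵥ* inc h := by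
  funext b
  simp only [parM, Fintype.linearCombination_apply, Finset.sum_apply, Pi.smul_apply, smul_eq_mul,
    par, Matrix.vecMul, dotProduct, inc, Matrix.of_apply]

/-- Complexification of a vector. -/
def cv {n : ℕ} (v : Fin n → ℚ) : Fin n → ℂ := fun i => (v i : ℂ)

theorem cv_inj {n : ℕ} {v w : Fin n → ℚ} (h : cv v = cv w) : v = w := by
  funext i
  have := congrFun h i
  simpa [cv] using this

theorem cv_vecMul {n : ℕ} (M : Matrix (Fin n) (Fin n) ℚ) (v : Fin n → ℚ) :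
    cv v ᵥ* M.map (fun q => (q : ℂ)) = cv (v ᵥ* M) := by
  funext i
  simp [cv, Matrix.vecMul, dotProduct]

theorem cv_sum {n : ℕ} {ι : Type} (s : Finset ι) (f : ι → Fin n → ℚ) :
    cv (∑ i ∈ s, f i) = ∑ i ∈ s, cv (f i) := by
  funext j
  simp [cv, Finset.sum_apply]

theorem theta_eq_one {n : ℕ} (M₁ M₂ : Matrix (Fin n) (Fin n) ℚ)
    (hroot : ∀ (ζ : ℂ) (m : ℕ), 0 < m → ζ ^ m = 1 → ζ ≠ 1 → ∀ x : Fin n → ℂ,
      x ᵥ* M₂.map (fun q => (q : ℂ)) = ζ • (x ᵥ* M₁.map (fun q => (q : ℂ))) →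
      x ᵥ* M₁.map (fun q => (q : ℂ)) = 0)
    (N : Submodule ℚ (Fin n → ℚ)) (A' B' : N ≃ₗ[ℚ] N)
    (hA : ∀ v : N, (A' v : Fin n → ℚ) = (v : Fin n → ℚ) ᵥ* M₁)
    (hB : ∀ v : N, (B' v : Fin n → ℚ) = (v : Fin n → ℚ) ᵥ* M₂)
    (hfin : IsOfFinOrder (A'⁻¹ * B')) : A'⁻¹ * B' = 1 := by
  classical
  set θ : N ≃ₗ[ℚ] N := A'⁻¹ * B' with hθ
  obtain ⟨m, hm, hm1⟩ := (isOfFinOrder_iff_pow_eq_one).1 hfin
  have hAθ : ∀ v : N, A' (θ v) = B' v := by
    intro v
    have : A' * θ = B' := by rw [hθ]; group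
    rw [← this]; rfl
  -- a left inverse of A' as a matrix
  obtain ⟨L, hL⟩ := LinearMap.exists_leftInverse_of_injective
    (N.subtype ∘ₗ (A' : N →ₗ[ℚ] N)) (by
      rw [LinearMap.ker_eq_bot]
      exact N.injective_subtype.comp A'.injective)
  set P : Matrix (Fin n) (Fin n) ℚ :=
    Matrix.of fun a b => (N.subtype (L (Pi.single a 1))) b with hP
  have hPv : ∀ v : Fin n → ℚ, v ᵥ* P = N.subtype (L v) := by
    intro v
    conv_rhs => rw [pi_eq_sum_univ' v]
    funext b
    simp only [map_sum, map_smul, Finset.sum_apply, Pi.smul_apply, smul_eq_mul,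
      Matrix.vecMul, dotProduct, hP, Matrix.of_apply]
  have hPA : ∀ v : N, ((A' v : N) : Fin n → ℚ) ᵥ* P = v := by
    intro v
    rw [hPv]
    have := LinearMap.congr_fun hL v
    simpa using this
  ext1 v
  -- the eigenvectors
  have key : ∀ ζ : ℂ, ζ ^ m = 1 → ζ ≠ 1 →
      ∑ k ∈ Finset.range m, ζ ^ (m - k) • cv (((θ ^ k) v : N) : Fin n → ℚ) = 0 := by
    intro ζ hζ hζ1
    set x : Fin n → ℂ := ∑ k ∈ Finset.range m, ζ ^ (m - k) • cv (((θ ^ k) v : N) : Fin n → ℚ) with hx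
    have h1 : x ᵥ* M₁.map (fun q => (q : ℂ)) =
        ∑ k ∈ Finset.range m, ζ ^ (m - k) • cv ((A' ((θ ^ k) v) : N) : Fin n → ℚ) := by
      rw [hx, Matrix.sum_vecMul]
      refine Finset.sum_congr rfl fun k _ => ?_
      rw [Matrix.smul_vecMul, cv_vecMul, hA]
    have h2 : x ᵥ* M₂.map (fun q => (q : ℂ)) =
        ∑ k ∈ Finset.range m, ζ ^ (m - k) • cv ((A' ((θ ^ (k + 1)) v) : N) : Fin n → ℚ) := by
      rw [hx, Matrix.sum_vecMul]
      refine Finset.sum_congr rfl fun k _ => ?_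
      rw [Matrix.smul_vecMul, cv_vecMul, ← hB, ← hAθ, pow_succ']
      rfl
    have h3 : x ᵥ* M₂.map (fun q => (q : ℂ)) = ζ • (x ᵥ* M₁.map (fun q => (q : ℂ))) := by
      rw [h1, h2, Finset.smul_sum]
      obtain ⟨m', rfl⟩ : ∃ m', m = m' + 1 := ⟨m - 1, by omega⟩
      rw [Finset.sum_range_succ, Finset.sum_range_succ']
      congr 1
      · refine Finset.sum_congr rfl fun k hk => ?_
        rw [Finset.mem_range] at hk
        rw [smul_smul, ← pow_succ']
        congr 2
        omega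
      · rw [hm1]
        simp only [Nat.sub_zero, pow_zero, hζ]
        rw [smul_smul, mul_one]
        congr 2
        simp
    have h4 := hroot ζ m hm hζ hζ1 x h3
    have h5 : (x ᵥ* M₁.map (fun q => (q : ℂ))) ᵥ* P.map (fun q => (q : ℂ)) = x := by
      rw [h1, Matrix.sum_vecMul]
      refine Finset.sum_congr rfl fun k _ => ?_
      rw [Matrix.smul_vecMul, cv_vecMul, hPA]
    rw [← h5, h4, Matrix.zero_vecMul]
  set ω : ℂ := Complex.exp (2 * Real.pi * Complex.I / m) with hω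
  have hprim : IsPrimitiveRoot ω m := Complex.isPrimitiveRoot_exp m hm.ne'
  have hsum : ∑ j ∈ Finset.range m, ∑ k ∈ Finset.range m,
      (ω ^ j) ^ (m - k) • cv (((θ ^ k) v : N) : Fin n → ℚ) = (m : ℂ) • cv (v : Fin n → ℚ) := by
    rw [Finset.sum_comm]
    have hg : ∀ k ∈ Finset.range m, ∑ j ∈ Finset.range m,
        (ω ^ j) ^ (m - k) • cv (((θ ^ k) v : N) : Fin n → ℚ) = if k = 0 then (m : ℂ) • cv (v : Fin n → ℚ)
          else 0 := by
      intro k hk
      rw [Finset.mem_range] at hk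
      rw [← Finset.sum_smul]
      split_ifs with h0
      · subst h0
        congr 1
        rw [Finset.sum_congr rfl (g := fun _ => (1 : ℂ))]
        · simp
        · intro j _
          rw [Nat.sub_zero, ← pow_mul, mul_comm, pow_mul, hprim.pow_eq_one, one_pow]
      · have hne : ω ^ (m - k) ≠ 1 := hprim.pow_ne_one_of_pos_of_lt (by omega) (by omega)
        have hz : ∑ j ∈ Finset.range m, (ω ^ j) ^ (m - k) = 0 := by
          have h6 : ∀ j, (ω ^ j) ^ (m - k) = (ω ^ (m - k)) ^ j := fun j => by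
            rw [← pow_mul, ← pow_mul, mul_comm]
          simp_rw [h6]
          have h7 := mul_geom_sum (ω ^ (m - k)) m
          rw [← pow_mul, mul_comm (m - k) m, pow_mul, hprim.pow_eq_one, one_pow, sub_self] at h7
          rcases mul_eq_zero.1 h7 with h8 | h8
          · exact absurd (sub_eq_zero.1 h8) hne
          · exact h8
        rw [hz, zero_smul]
    rw [Finset.sum_congr rfl hg, Finset.sum_ite_eq' (Finset.range m) 0, if_pos]
    exact Finset.mem_range.2 hm
  have hsum2 : ∑ j ∈ Finset.range m, ∑ k ∈ Finset.range m,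
      (ω ^ j) ^ (m - k) • cv (((θ ^ k) v : N) : Fin n → ℚ) = ∑ k ∈ Finset.range m, cv (((θ ^ k) v : N) : Fin n → ℚ) := by
    rw [Finset.sum_eq_single 0]
    · simp
    · intro j hj hj0
      rw [Finset.mem_range] at hj
      refine key (ω ^ j) ?_ ?_
      · rw [← pow_mul, mul_comm, pow_mul, hprim.pow_eq_one, one_pow]
      · exact hprim.pow_ne_one_of_pos_of_lt hj0 hj
    · intro h; exact absurd (Finset.mem_range.2 hm) h
  have hsum3 : (∑ k ∈ Finset.range m, (θ ^ k) v : N) = (m : ℚ) • v := by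
    ext1
    apply cv_inj
    rw [hsum2] at hsum
    rw [AddSubmonoidClass.coe_finsetSum, cv_sum, hsum]
    funext i
    simp [cv]
  have hinv : θ (∑ k ∈ Finset.range m, (θ ^ k) v) = ∑ k ∈ Finset.range m, (θ ^ k) v := by
    rw [map_sum]
    obtain ⟨m', rfl⟩ : ∃ m', m = m' + 1 := ⟨m - 1, by omega⟩
    rw [Finset.sum_range_succ, Finset.sum_range_succ']
    congr 1
    · refine Finset.sum_congr rfl fun k _ => ?_
      rw [pow_succ']; rfl
    · have : θ ((θ ^ m') v) = (θ ^ (m' + 1)) v := by rw [pow_succ']; rfl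
      rw [this, hm1]; simp
  rw [hsum3, map_smul] at hinv
  have hm0 : (m : ℚ) ≠ 0 := by exact_mod_cast hm.ne'
  have := smul_right_injective N hm0 hinv
  simpa using this

end Pool.Agent.Helper28.DB
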