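import Pool.Agent.Helper28.DB.Base

/-! Statements of the parts of the proof (MP_2bc838_lc). Every `St...` is a proposition that is
proved in its own module. -/

set_option autoImplicit false

namespace Pool.Agent.Helper28.DB

open AddMonoidAlgebra

/-! ### Algebra of fractions -/

open Classical in
/-- The part of `P` with exponents in the coset `v + H`. -/
noncomputable def cmp {E : Type} [AddCommGroup E] (H : AddSubgroup E) (v : E) (P : Gr E) : Gr E :=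
  ofCoeff (P.coeff.filter fun w => w - v ∈ H)

/-- Coset components. -/
def StCmp : Prop :=
  ∀ (E : Type) [AddCommGroup E] [Module ℚ E] (H : AddSubgroup E),
    (∀ (P : Gr E) (v w : E), w ∈ (cmp H v P).coeff.support ↔
      w ∈ P.coeff.support ∧ w - v ∈ H) ∧
    (∀ (P D : Gr E), (∀ w ∈ D.coeff.support, w ∈ H) → ∀ v, cmp H v (P * D) = cmp H v P * D) ∧
    (∀ (P : Gr E), ∃ s : Finset E, (∀ v ∈ s, v ∈ P.coeff.support) ∧
      P = ∑ v ∈ s, cmp H v P)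

/-- Fractions with exponents in `N` and coset components. -/
def StFrac : Prop :=
  ∀ (E : Type) [AddCommGroup E] [Module ℚ E] (N : Submodule ℚ E) (f : Fr E), InK N f →
    ∀ P D : Gr E, f * io D = io P → ∀ v : E,
      f * io (cmp N.toAddSubgroup v D) = io (cmp N.toAddSubgroup v P)

/-- The elements `f` with `InK N f` form a subfield, monotone in `N`. -/
def StSubf : Prop :=
  ∀ (E : Type) [AddCommGroup E] [Module ℚ E],
    (∀ N : Submodule ℚ E, ∃ K : Subfield (Fr E), ∀ f, f ∈ K ↔ InK N f) ∧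
    (∀ (N N' : Submodule ℚ E), N ≤ N' → ∀ f, InK N f → InK N' f) ∧
    (∀ f : Fr E, InK ⊤ f) ∧
    (∀ (N : Submodule ℚ E) (P : Gr E), Supp N P → InK N (io P))

/-- Intersections. -/
def StInf : Prop :=
  ∀ (E : Type) [AddCommGroup E] [Module ℚ E] (N N' : Submodule ℚ E) (f : Fr E),
    InK N f → InK N' f → InK (N ⊓ N') f

/-- Admissible representation of a transport. -/
def StAdm : Prop :=
  ∀ (E E' : Type) [AddCommGroup E] [Module ℚ E] [AddCommGroup E'] [Module ℚ E']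
    (A : E →ₗ[ℚ] E') (N : Submodule ℚ E) (f : Fr E) (f' : Fr E'), InK N f → Tr A f f' →
    (∃ P D : Gr E, Supp N P ∧ Supp N D ∧ gm A D ≠ 0 ∧ f * io D = io P ∧
      f' * io (gm A D) = io (gm A P)) ∧
    InK (N.map A) f' ∧
    (∀ B : E →ₗ[ℚ] E', (∀ v ∈ N, A v = B v) → Tr B f f')

/-- Basic properties of the transport relation. -/
def StTr : Prop :=
  ∀ (E E' : Type) [AddCommGroup E] [Module ℚ E] [AddCommGroup E'] [Module ℚ E']
    (A : E →ₗ[ℚ] E'),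
    (∀ (f : Fr E) (f' f'' : Fr E'), Tr A f f' → Tr A f f'' → f' = f'') ∧
    (∀ P : Gr E, Tr A (io P) (io (gm A P))) ∧
    (∀ (f g : Fr E) (f' g' : Fr E'), Tr A f f' → Tr A g g' → Tr A (f + g) (f' + g')) ∧
    (∀ (f g : Fr E) (f' g' : Fr E'), Tr A f f' → Tr A g g' → Tr A (f * g) (f' * g')) ∧
    (∀ N : Submodule ℚ E, (∀ v ∈ N, A v = 0 → v = 0) → ∀ f : Fr E, InK N f →
      ∃ f' : Fr E', Tr A f f') ∧
    (∀ N : Submodule ℚ E, (∀ v ∈ N, A v = 0 → v = 0) → ∀ (f : Fr E) (f' : Fr E'), InK N f →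
      Tr A f f' → ∀ A' : E' →ₗ[ℚ] E, (∀ v ∈ N, A' (A v) = v) → Tr A' f' f)

/-- Composition of transports along maps that are injective on the relevant subspaces. -/
def StTrComp : Prop :=
  ∀ (E E' E'' : Type) [AddCommGroup E] [Module ℚ E] [AddCommGroup E'] [Module ℚ E']
    [AddCommGroup E''] [Module ℚ E''] (A : E →ₗ[ℚ] E') (B : E' →ₗ[ℚ] E'')
    (N : Submodule ℚ E), (∀ v ∈ N, B (A v) = 0 → v = 0) →
    ∀ (f : Fr E) (f' : Fr E') (f'' : Fr E''), InK N f → Tr A f f' →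
      (Tr B f' f'' ↔ Tr (B ∘ₗ A) f f'')

/-- Linear relations can be shifted if all coefficients can be transported. -/
def StTrLin : Prop :=
  ∀ (E E' : Type) [AddCommGroup E] [Module ℚ E] [AddCommGroup E'] [Module ℚ E']
    (n m : ℕ) (A : E →ₗ[ℚ] E') (J : Fin n → Fin n → Gr E') (P : Fin m → Fin n → Gr E)
    (Q : Fin n → Gr E) (c : Fin m → Fr E) (c' : Fin m → Fr E'),
    iv Q = ∑ t, c t • iv (P t) → (∀ t, Tr A (c t) (c' t)) →
    iv (sh A J Q) = ∑ t, c' t • iv (sh A J (P t))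

/-- If the shifted vectors are independent then the coefficients can be transported. -/
def StShift : Prop :=
  ∀ (E E' : Type) [AddCommGroup E] [Module ℚ E] [AddCommGroup E'] [Module ℚ E']
    (n m : ℕ) (A : E →ₗ[ℚ] E') (J : Fin n → Fin n → Gr E') (P : Fin m → Fin n → Gr E),
    LinearIndependent (Fr E') (fun t => iv (sh A J (P t))) →
    LinearIndependent (Fr E) (fun t => iv (P t)) ∧
    ∀ (Q : Fin n → Gr E) (c : Fin m → Fr E), iv Q = ∑ t, c t • iv (P t) →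
      ∃ c' : Fin m → Fr E', (∀ t, Tr A (c t) (c' t)) ∧
        iv (sh A J Q) = ∑ t, c' t • iv (sh A J (P t))

/-- Coefficients of relations between vectors over `K_N` lie in `K_N`. -/
def StDesc : Prop :=
  ∀ (E : Type) [AddCommGroup E] [Module ℚ E] (N : Submodule ℚ E) (m l : ℕ)
    (a : Fin m → Fin l → Fr E) (b : Fin l → Fr E) (c : Fin m → Fr E),
    (∀ t j, InK N (a t j)) → (∀ j, InK N (b j)) → LinearIndependent (Fr E) a →
    b = ∑ t, c t • a t → ∀ t, InK N (c t)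

/-! ### First stage -/

/-- Least good subspaces exist. -/
def StLeast : Prop :=
  ∀ (E : Type) [AddCommGroup E] [Module ℚ E] [FiniteDimensional ℚ E] (n : ℕ)
    (u : ℕ → Fin n → Gr E) (p : ℕ → E) (i : ℕ),
    ∃ N : Submodule ℚ E, Good u p N i ∧ ∀ N' : Submodule ℚ E, Good u p N' i → N ≤ N'

/-- Extension of independent families to bases of the spans. -/
def StBasis : Prop :=
  ∀ (E : Type) [AddCommGroup E] [Module ℚ E] (n : ℕ) (u : ℕ → Fin n → Gr E) (i : ℕ),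
    (∀ (m : ℕ) (s : Fin m → ℕ), (∀ t, i ≤ s t) →
      LinearIndependent (Fr E) (fun t => iv (u (s t))) → m ≤ dm u i ∧
      ∃ (s' : Fin (dm u i) → ℕ) (e : Fin m → Fin (dm u i)), (∀ t, i ≤ s' t) ∧
        LinearIndependent (Fr E) (fun t => iv (u (s' t))) ∧ Function.Injective e ∧
        ∀ t, s' (e t) = s t) ∧
    (∀ s : Fin (dm u i) → ℕ, (∀ t, i ≤ s t) →
      LinearIndependent (Fr E) (fun t => iv (u (s t))) → ∀ k, i ≤ k →
      ∃ c : Fin (dm u i) → Fr E, iv (u k) = ∑ t, c t • iv (u (s t))) ∧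
    (∀ s : Fin (dm u i) → ℕ, (∀ t, i ≤ s t) →
      (∀ k, i ≤ k → ∃ c : Fin (dm u i) → Fr E, iv (u k) = ∑ t, c t • iv (u (s t))) →
      LinearIndependent (Fr E) (fun t => iv (u (s t)))) ∧
    dm u (i + 1) ≤ dm u i ∧ dm u i ≤ n

/-- Transport of good subspaces when the dimension does not drop. -/
def StTL : Prop :=
  ∀ (E : Type) [AddCommGroup E] [Module ℚ E] [FiniteDimensional ℚ E] (n : ℕ)
    (A : E →ₗ[ℚ] E) (J : Fin n → Fin n → Gr E) (u : ℕ → Fin n → Gr E) (p : ℕ → E),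
    (∀ i, u (i + 1) = sh A J (u i)) → (∀ i, p (i + 1) = A (p i)) →
    ∀ (i : ℕ) (N : Submodule ℚ E), dm u (i + 1) = dm u i → Good u p N i →
      Good u p (N.map A) (i + 1)

/-- A stable step is stable forever. -/
def StStable : Prop :=
  ∀ (E : Type) [AddCommGroup E] [Module ℚ E] [FiniteDimensional ℚ E] (n : ℕ)
    (A : E →ₗ[ℚ] E) (J : Fin n → Fin n → Gr E) (u : ℕ → Fin n → Gr E) (p : ℕ → E),
    (∀ i, u (i + 1) = sh A J (u i)) → (∀ i, p (i + 1) = A (p i)) →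
    ∀ (i : ℕ) (N : Submodule ℚ E), dm u (i + 1) = dm u i → Good u p N i →
      (∀ N' : Submodule ℚ E, Good u p N' (i + 1) → N ≤ N') →
      N.map A = N ∧ ∀ k, i ≤ k → dm u k = dm u i ∧ Good u p N k ∧
        ∀ N' : Submodule ℚ E, Good u p N' k → N ≤ N'

/-- The stable data. -/
def StStab : Prop :=
  ∀ (E : Type) [AddCommGroup E] [Module ℚ E] [FiniteDimensional ℚ E] (n : ℕ)
    (A : E →ₗ[ℚ] E) (J : Fin n → Fin n → Gr E) (u : ℕ → Fin n → Gr E) (p : ℕ → E),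
    (∀ i, u (i + 1) = sh A J (u i)) → (∀ i, p (i + 1) = A (p i)) →
    (∀ i, p i = 0 ↔ u i = 0) →
    ∀ (i₀ d : ℕ) (N : Submodule ℚ E), 1 ≤ d → N.map A = N →
      (∀ k, i₀ ≤ k → dm u k = d ∧ Good u p N k ∧
        ∀ N' : Submodule ℚ E, Good u p N' k → N ≤ N') →
      ∃ lam : ℕ → Fin d → Fr E, Stab A u p i₀ d N lam

/-- The first stage. -/
def StCount : Prop :=
  ∀ (E : Type) [AddCommGroup E] [Module ℚ E] [FiniteDimensional ℚ E] (n : ℕ)
    (A : E →ₗ[ℚ] E) (J : Fin n → Fin n → Gr E) (u : ℕ → Fin n → Gr E) (p : ℕ → E),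
    Module.finrank ℚ E ≤ n →
    (∀ i, u (i + 1) = sh A J (u i)) → (∀ i, p (i + 1) = A (p i)) →
    (∀ i, p i = 0 ↔ u i = 0) →
    (∀ i, 2 * n ≤ i + 1 → u i = 0) ∨
    ∃ (i₀ d : ℕ) (N : Submodule ℚ E) (lam : ℕ → Fin d → Fr E),
      i₀ + d + Module.finrank ℚ N ≤ 2 * n ∧ Stab A u p i₀ d N lam

/-! ### Second stage -/

/-- Agreement transports the coefficients. -/
def StT2 : Prop :=
  ∀ (E : Type) [AddCommGroup E] [Module ℚ E] [FiniteDimensional ℚ E] (n : ℕ)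
    (A B : E →ₗ[ℚ] E) (J' : Fin n → Fin n → Gr E) (u : ℕ → Fin n → Gr E) (p : ℕ → E)
    (i₀ d : ℕ) (N : Submodule ℚ E) (lam : ℕ → Fin d → Fr E) (T : ℕ),
    Stab A u p i₀ d N lam → (∀ i, i < T → u (i + 1) = sh B J' (u i)) →
    ∀ i, i₀ ≤ i → i + d < T → ∀ j, Tr B (lam i j) (lam (i + 1) j)

/-- Propagation of the agreement. -/
def StPL : Prop :=
  ∀ (E : Type) [AddCommGroup E] [Module ℚ E] [FiniteDimensional ℚ E] (n : ℕ)
    (A B : E →ₗ[ℚ] E) (J' : Fin n → Fin n → Gr E) (u : ℕ → Fin n → Gr E) (p : ℕ → E)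
    (i₀ d : ℕ) (N : Submodule ℚ E) (lam : ℕ → Fin d → Fr E),
    Stab A u p i₀ d N lam → (∀ i, i₀ ≤ i → ∀ j, Tr B (lam i j) (lam (i + 1) j)) →
    (∀ i, i₀ ≤ i → i < i₀ + d → u (i + 1) = sh B J' (u i)) →
    ∀ i, i₀ ≤ i → u (i + 1) = sh B J' (u i)

/-- The subspace is generated early. -/
def StB0 : Prop :=
  ∀ (E : Type) [AddCommGroup E] [Module ℚ E] [FiniteDimensional ℚ E] (n : ℕ)
    (A : E →ₗ[ℚ] E) (u : ℕ → Fin n → Gr E) (p : ℕ → E)
    (i₀ d : ℕ) (N : Submodule ℚ E) (lam : ℕ → Fin d → Fr E),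
    Stab A u p i₀ d N lam → ∀ i₁, i₀ ≤ i₁ → ∀ N' : Submodule ℚ E,
      (∀ i, i₁ ≤ i → i + 1 < i₁ + Module.finrank ℚ N → ∀ j, InK N' (lam i j)) →
      (∀ i, i₁ ≤ i → i + 1 < i₁ + Module.finrank ℚ N + d → p i ∈ N') → N ≤ N'

/-- The second map preserves the subspace. -/
def StBN : Prop :=
  ∀ (E : Type) [AddCommGroup E] [Module ℚ E] [FiniteDimensional ℚ E] (n : ℕ)
    (A B : E →ₗ[ℚ] E) (u : ℕ → Fin n → Gr E) (p : ℕ → E)
    (i₀ d : ℕ) (N : Submodule ℚ E) (lam : ℕ → Fin d → Fr E),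
    Stab A u p i₀ d N lam →
      (∀ i, i₀ ≤ i → i + 1 < i₀ + Module.finrank ℚ N → ∀ j, Tr B (lam i j) (lam (i + 1) j)) →
      (∀ i, i₀ ≤ i → i + 1 < i₀ + Module.finrank ℚ N + d → p (i + 1) = B (p i)) →
      N.map B = N

/-- Descent to the subspace. -/
def StDown : Prop :=
  ∀ (E : Type) [AddCommGroup E] [Module ℚ E] (N : Submodule ℚ E),
    (∀ f : Fr E, InK N f → ∃ g : Fr N, Tr N.subtype g f) ∧
    (∀ (f : Fr E) (g : Fr N), Tr N.subtype g f → ∀ N' : Submodule ℚ N,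
      InK N' g ↔ InK (N'.map N.subtype) f) ∧
    (∀ (A : E →ₗ[ℚ] E) (A' : N →ₗ[ℚ] N), (∀ v : N, (A' v : E) = A v) →
      (∀ v ∈ N, A v = 0 → v = 0) → ∀ (f f' : Fr E) (g g' : Fr N), Tr N.subtype g f →
      Tr N.subtype g' f' → (Tr A f f' ↔ Tr A' g g'))

/-! ### Finite groups -/

/-- `P / D` is a reduced fraction. -/
def Reduced {E : Type} [AddCommGroup E] (P D : Gr E) : Prop :=
  D ≠ 0 ∧ ∀ Q R : Gr E, P * R = Q * D → ∃ T : Gr E, Q = P * T ∧ R = D * T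

/-- Reduced fractions exist. -/
def StRed : Prop :=
  ∀ (E : Type) [AddCommGroup E] [Module ℚ E] [FiniteDimensional ℚ E] (f : Fr E),
    ∃ P D : Gr E, Reduced P D ∧ f * io D = io P

/-- Units of the group algebra. -/
def StUnit : Prop :=
  ∀ (E : Type) [AddCommGroup E] [Module ℚ E] (S T : Gr E), S * T = 1 →
    ∃ (v : E) (c : ℚ), c ≠ 0 ∧ S = single v c

/-- Linear maps fixing `f` permute a finite set of vectors that determines the exponents. -/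
def StDiff : Prop :=
  ∀ (E : Type) [AddCommGroup E] [Module ℚ E] [FiniteDimensional ℚ E] (f : Fr E),
    ∃ s : Finset E, InK (Submodule.span ℚ (s : Set E)) f ∧
      ∀ θ : E ≃ₗ[ℚ] E, Tr (θ : E →ₗ[ℚ] E) f f → ∀ v ∈ s, θ v ∈ s

/-- The stabilizer is finite. -/
def StFSL : Prop :=
  ∀ (E : Type) [AddCommGroup E] [Module ℚ E] [FiniteDimensional ℚ E] (ι κ : Type) [Finite ι]
    [Finite κ] (f : ι → Fr E) (p : κ → E),
    (∀ E' : Submodule ℚ E, (∀ i, InK E' (f i)) → (∀ k, p k ∈ E') → E' = ⊤) →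
    Set.Finite {θ : E ≃ₗ[ℚ] E | (∀ i, Tr (θ : E →ₗ[ℚ] E) (f i) (f i)) ∧ ∀ k, θ (p k) = p k}

/-- Chains of intersections of conjugates. -/
def StChain : Prop :=
  ∀ (Γ : Type) [Group Γ] (a : Γ) (G : ℕ → Subgroup Γ), Finite (G 0) →
    (∀ k x, x ∈ G (k + 1) ↔ x ∈ G k ∧ a⁻¹ * x * a ∈ G k) →
    ∀ l, ArithmeticFunction.cardFactors (Nat.card (G 0)) ≤ l →
    ∀ x, x ∈ G l → ∀ k, x ∈ G k

/-- A finite group fixing a nonzero vector embeds in a smaller linear group. -/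
def StEmb : Prop :=
  ∀ (E : Type) [AddCommGroup E] [Module ℚ E] [FiniteDimensional ℚ E]
    (G : Subgroup (E ≃ₗ[ℚ] E)), Finite G → ∀ p : E, p ≠ 0 → (∀ g ∈ G, g p = p) →
    ∃ G' : Subgroup (GL (Fin (Module.finrank ℚ E - 1)) ℚ), Nat.card G' = Nat.card G

/-- Reduction modulo a large prime. -/
def StMod : Prop :=
  ∀ (m : ℕ) (G : Subgroup (GL (Fin m) ℚ)), Finite G →
    ∃ p₀ : ℕ, ∀ p : ℕ, p₀ ≤ p → p.Prime →
      Nat.card G ∣ ∏ i ∈ Finset.range m, (p ^ m - p ^ i)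

/-- The odd part. -/
def StOdd : Prop :=
  ∀ (l : ℕ), l.Prime → l ≠ 2 → ∀ m : ℕ, ∀ p₀ : ℕ, ∃ p : ℕ, p₀ ≤ p ∧ p.Prime ∧
    (l - 1) ^ 2 * padicValNat l (∏ i ∈ Finset.range m, (p ^ m - p ^ i)) ≤ m * l ∧
    (m < l - 1 → padicValNat l (∏ i ∈ Finset.range m, (p ^ m - p ^ i)) = 0)

/-- The prime two. -/
def StTwo : Prop :=
  ∀ m : ℕ, ∀ p₀ : ℕ, ∃ p : ℕ, p₀ ≤ p ∧ p.Prime ∧
    padicValNat 2 (∏ i ∈ Finset.range m, (p ^ m - p ^ i)) ≤ m + 3 * (m / 2)

/-- A numerical estimate. -/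
def StNum : Prop :=
  ∀ (m N : ℕ), N ≠ 0 → padicValNat 2 N ≤ m + 3 * (m / 2) →
    (∀ l : ℕ, l.Prime → l ≠ 2 → (l - 1) ^ 2 * padicValNat l N ≤ m * l ∧
      (m < l - 1 → padicValNat l N = 0)) →
    ArithmeticFunction.cardFactors N ≤ m * (2 + Nat.log 2 (m + 1))

/-- Finite groups of rational matrices. -/
def StMink : Prop :=
  ∀ (m : ℕ) (G : Subgroup (GL (Fin m) ℚ)), Finite G →
    ArithmeticFunction.cardFactors (Nat.card G) ≤ m * (2 + Nat.log 2 (m + 1))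

/-- Data on the subspace. -/
structure Core {E : Type} [AddCommGroup E] [Module ℚ E] (A B : E ≃ₗ[ℚ] E) (d : ℕ)
    (lam : ℕ → Fin d → Fr E) (p : ℕ → E) (l : ℕ) : Prop where
  p_ne : p 0 ≠ 0
  trA : ∀ i j, Tr (A : E →ₗ[ℚ] E) (lam i j) (lam (i + 1) j)
  p_succ : ∀ i, p (i + 1) = A (p i)
  d_pos : 1 ≤ d
  minimal : ∀ E' : Submodule ℚ E,
    (∀ i, i + 1 < Module.finrank ℚ E → ∀ j, InK E' (lam i j)) →
    (∀ i, i + 1 < Module.finrank ℚ E + d → p i ∈ E') → E' = ⊤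
  trB : ∀ i, i + 1 < Module.finrank ℚ E + l → ∀ j,
    Tr (B : E →ₗ[ℚ] E) (lam i j) (lam (i + 1) j)
  p_succB : ∀ i, i + 1 < Module.finrank ℚ E + l + d → p (i + 1) = B (p i)

/-- The groups of the chain. -/
def StGrp : Prop :=
  ∀ (E : Type) [AddCommGroup E] [Module ℚ E] [FiniteDimensional ℚ E] (A B : E ≃ₗ[ℚ] E) (d : ℕ)
    (lam : ℕ → Fin d → Fr E) (p : ℕ → E) (l : ℕ), Core A B d lam p l →
    ∃ G : ℕ → Subgroup (E ≃ₗ[ℚ] E), Finite (G 0) ∧
      (∀ k x, x ∈ G (k + 1) ↔ x ∈ G k ∧ A⁻¹ * x * A ∈ G k) ∧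
      (∀ g ∈ G 0, g (p 0) = p 0) ∧ A⁻¹ * B ∈ G l ∧
      ((∀ k, A⁻¹ * B ∈ G k) → ∀ i j, Tr (B : E →ₗ[ℚ] E) (lam i j) (lam (i + 1) j))

/-- The general conclusion on the subspace. -/
def StCore : Prop :=
  ∀ (E : Type) [AddCommGroup E] [Module ℚ E] [FiniteDimensional ℚ E] (A B : E ≃ₗ[ℚ] E) (d : ℕ)
    (lam : ℕ → Fin d → Fr E) (p : ℕ → E) (l : ℕ), Core A B d lam p l →
    (Module.finrank ℚ E - 1) * (2 + Nat.log 2 (Module.finrank ℚ E)) ≤ l →
    ∀ i j, Tr (B : E →ₗ[ℚ] E) (lam i j) (lam (i + 1) j)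

/-- The conclusion when the maps commute as soon as the quotient has finite order. -/
def StComm : Prop :=
  ∀ (E : Type) [AddCommGroup E] [Module ℚ E] [FiniteDimensional ℚ E] (A B : E ≃ₗ[ℚ] E) (d : ℕ)
    (lam : ℕ → Fin d → Fr E) (p : ℕ → E), Core A B d lam p 0 →
    (IsOfFinOrder (A⁻¹ * B) → A * B = B * A) →
    ∀ i j, Tr (B : E →ₗ[ℚ] E) (lam i j) (lam (i + 1) j)

/-! ### Words -/

/-- The vector of Fox derivatives of a word, with commuting variables. -/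
noncomputable def fox {n : ℕ} : List (Fin n) → Fin n → Gr (Fin n → ℚ)
  | [], _ => 0
  | a :: w, c => (if a = c then 1 else 0) + single (Pi.single a (1 : ℚ)) (1 : ℚ) * fox w c

/-- The vector of the numbers of occurrences. -/
def par {n : ℕ} (w : List (Fin n)) : Fin n → ℚ := fun c => (w.count c : ℚ)

/-- The linear map of a morphism. -/
noncomputable def parM {n : ℕ} (h : Fin n → List (Fin n)) : (Fin n → ℚ) →ₗ[ℚ] (Fin n → ℚ) :=
  Fintype.linearCombination ℚ fun a => par (h a)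

/-- Words and their Fox derivatives. -/
def StFox : Prop :=
  ∀ n : ℕ,
    (∀ w w' : List (Fin n), fox w = fox w' → w = w') ∧
    (∀ (h : Fin n → List (Fin n)) (w : List (Fin n)),
      fox (w.flatMap h) = sh (parM h) (fun a => fox (h a)) (fox w)) ∧
    (∀ (h : Fin n → List (Fin n)) (w : List (Fin n)), par (w.flatMap h) = parM h (par w)) ∧
    (∀ w : List (Fin n), par w = 0 ↔ fox w = 0)

end Pool.Agent.Helper28.DB
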